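import Mathlib

/-!
# Matroid subdivisions: definitions

Everything lives in `ℝ^n = Fin n → ℝ`.
-/

set_option autoImplicit false

namespace Pool.Agent.MatSub

open Set

variable {n : ℕ}

/-- The 0/1 vector `e_B`. -/
def ind (B : Finset (Fin n)) : Fin n → ℝ := fun i => if i ∈ B then 1 else 0

/-- The convex hull of the vectors `e_B`, for `B` in a family of subsets of `[n]`. -/
def poly (𝓑 : Set (Finset (Fin n))) : Set (Fin n → ℝ) := convexHull ℝ (ind '' 𝓑)

/-- The matroid polytope `P_M`: the convex hull of the `e_B`, for `B` a basis of `M`. -/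
def matroidPolytope (M : Matroid (Fin n)) : Set (Fin n → ℝ) :=
  poly {B : Finset (Fin n) | M.IsBase (B : Set (Fin n))}

/-- The hypersimplex `Δ(k,n)`: the convex hull of the `e_B` with `|B| = k`. -/
def hypersimplex (k n : ℕ) : Set (Fin n → ℝ) := poly {B : Finset (Fin n) | B.card = k}

/-- `F` is a face of the convex set `P`: a convex extreme subset.  (For polytopes these are the
usual faces, including the empty face and `P` itself.) -/
def IsFace (P F : Set (Fin n → ℝ)) : Prop := Convex ℝ F ∧ IsExtreme ℝ P F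

/-- `𝒞` (the set of nonempty cells) is a matroid subdivision of the polytope `P`: a finite
polytopal complex with union `P`, all of whose cells are matroid polytopes of matroids on `[n]` and
whose vertices are vertices of `P`. -/
structure IsMatroidSubdivision (P : Set (Fin n → ℝ)) (𝒞 : Set (Set (Fin n → ℝ))) : Prop where
  /-- there are finitely many cells -/
  finite : 𝒞.Finite
  /-- every cell is a matroid polytope -/
  matroid : ∀ C ∈ 𝒞, ∃ N : Matroid (Fin n), N.E = Set.univ ∧ C = matroidPolytope N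
  /-- all vertices are vertices of `P` -/
  vertices : ∀ C ∈ 𝒞, C.extremePoints ℝ ⊆ P.extremePoints ℝ
  /-- nonempty faces of cells are cells -/
  face_mem : ∀ C ∈ 𝒞, ∀ F, IsFace C F → F.Nonempty → F ∈ 𝒞
  /-- two cells meet in a common face (symmetric in the two cells) -/
  inter : ∀ C ∈ 𝒞, ∀ D ∈ 𝒞, IsFace C (C ∩ D)
  /-- the union of the cells is `P` -/
  union : ⋃₀ 𝒞 = P

/-- The trivial subdivision of `P`: `P` and its (nonempty) faces. -/
def trivialSubdivision (P : Set (Fin n → ℝ)) : Set (Set (Fin n → ℝ)) :=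
  {F | IsFace P F ∧ F.Nonempty}

/-- `𝒞'` refines `𝒞`: every cell of `𝒞'` is contained in a cell of `𝒞`. -/
def Refines (𝒞' 𝒞 : Set (Set (Fin n → ℝ))) : Prop := ∀ C' ∈ 𝒞', ∃ C ∈ 𝒞, C' ⊆ C

/-- A finest matroid subdivision of `P`: no matroid subdivision of `P` properly refines it. -/
def IsFinest (P : Set (Fin n → ℝ)) (𝒞 : Set (Set (Fin n → ℝ))) : Prop :=
  IsMatroidSubdivision P 𝒞 ∧
    ∀ 𝒞', IsMatroidSubdivision P 𝒞' → Refines 𝒞' 𝒞 → 𝒞' = 𝒞

/-- A matroid is indecomposable if its polytope has only the trivial matroid subdivision. -/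
def Indecomposable (M : Matroid (Fin n)) : Prop :=
  ∀ 𝒞, IsMatroidSubdivision (matroidPolytope M) 𝒞 → 𝒞 = trivialSubdivision (matroidPolytope M)

/-- A maximal cell of a complex. -/
def IsMaximalCell (𝒞 : Set (Set (Fin n → ℝ))) (C : Set (Fin n → ℝ)) : Prop :=
  C ∈ 𝒞 ∧ ∀ D ∈ 𝒞, C ⊆ D → D = C

end Pool.Agent.MatSub
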