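import Mathlib
import Pool.Agent.Lib.MP_6a4d09_co.Defs

set_option autoImplicit false

namespace Pool.Agent.MatSub

open Set

variable {n : ℕ}

/-- sum of coordinates over `S` -/
def sm (S : Finset (Fin n)) (x : Fin n → ℝ) : ℝ := ∑ i ∈ S, x i

lemma sm_add (S : Finset (Fin n)) (x y : Fin n → ℝ) : sm S (x + y) = sm S x + sm S y := by
  simp [sm, Finset.sum_add_distrib]

lemma sm_smul (S : Finset (Fin n)) (c : ℝ) (x : Fin n → ℝ) : sm S (c • x) = c * sm S x := by
  simp [sm, Finset.mul_sum]

lemma sm_sub (S : Finset (Fin n)) (x y : Fin n → ℝ) : sm S (x - y) = sm S x - sm S y := by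
  simp [sm, Finset.sum_sub_distrib]

lemma sm_ind (S B : Finset (Fin n)) : sm S (ind B) = ((S ∩ B).card : ℝ) := by
  simp only [sm, ind]
  rw [← Finset.sum_filter, Finset.sum_const, nsmul_eq_mul, mul_one, Finset.filter_mem_eq_inter]

lemma sm_linear_isLinear (S : Finset (Fin n)) : IsLinearMap ℝ (sm S) :=
  ⟨sm_add S, fun c x => sm_smul S c x⟩

lemma continuous_sm (S : Finset (Fin n)) : Continuous (sm S) := by
  unfold sm
  exact continuous_finsetSum _ (fun i _ => continuous_apply i)

/-- weights representing a point of `poly 𝓑` -/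
def Rep (𝓑 : Set (Finset (Fin n))) (x : Fin n → ℝ) (w : Finset (Fin n) → ℝ) : Prop :=
  (∀ B, 0 ≤ w B) ∧ (∀ B, B ∉ 𝓑 → w B = 0) ∧ ∑ B, w B = 1 ∧ x = ∑ B, w B • ind B

lemma poly_rep {𝓑 : Set (Finset (Fin n))} {x : Fin n → ℝ} (hx : x ∈ poly 𝓑) : ∃ w, Rep 𝓑 x w := by
  classical
  have hsub : poly 𝓑 ⊆ {x | ∃ w, Rep 𝓑 x w} := by
    apply convexHull_min
    · rintro _ ⟨B, hB, rfl⟩
      refine ⟨fun B' => if B' = B then 1 else 0, fun B' => by dsimp; split_ifs <;> norm_num, ?_, by simp, by simp⟩
      intro B' hB'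
      have : B' ≠ B := by rintro rfl; exact hB' hB
      simp [this]
    · rintro x ⟨w, h1, h2, h3, h4⟩ y ⟨v, g1, g2, g3, g4⟩ a b ha hb hab
      refine ⟨fun B => a * w B + b * v B, fun B => add_nonneg (mul_nonneg ha (h1 B)) (mul_nonneg hb (g1 B)), ?_, ?_, ?_⟩
      · intro B hB
        simp [h2 B hB, g2 B hB]
      · rw [Finset.sum_add_distrib, ← Finset.mul_sum, ← Finset.mul_sum, h3, g3]
        simpa using hab
      · rw [h4, g4, Finset.smul_sum, Finset.smul_sum, ← Finset.sum_add_distrib]
        apply Finset.sum_congr rfl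
        intro B _
        rw [smul_smul, smul_smul, ← add_smul]
  exact hsub hx

lemma ind_mem_poly {𝓑 : Set (Finset (Fin n))} {B : Finset (Fin n)} (hB : B ∈ 𝓑) :
    ind B ∈ poly 𝓑 := subset_convexHull ℝ _ ⟨B, hB, rfl⟩

lemma convex_poly (𝓑 : Set (Finset (Fin n))) : Convex ℝ (poly 𝓑) := convex_convexHull ℝ _

lemma rep_mem {𝓑 : Set (Finset (Fin n))} {x : Fin n → ℝ} {w : Finset (Fin n) → ℝ}
    (h : Rep 𝓑 x w) : x ∈ poly 𝓑 := by
  classical
  obtain ⟨h1, h2, h3, h4⟩ := h
  have hne : ∃ B, B ∈ 𝓑 := by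
    by_contra hcon
    push Not at hcon
    have : ∑ B, w B = 0 := Finset.sum_eq_zero (fun B _ => h2 B (hcon B))
    rw [this] at h3
    exact zero_ne_one h3
  obtain ⟨B0, hB0⟩ := hne
  have h5 : x = ∑ B, w B • (if B ∈ 𝓑 then ind B else ind B0) := by
    rw [h4]
    apply Finset.sum_congr rfl
    intro B _
    by_cases hB : B ∈ 𝓑
    · rw [if_pos hB]
    · rw [h2 B hB]; simp
  rw [h5]
  apply (convex_poly 𝓑).sum_mem (fun B _ => h1 B) h3
  intro B _
  split_ifs with hB
  · exact ind_mem_poly hB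
  · exact ind_mem_poly hB0

lemma poly_mono {𝓑 𝓑' : Set (Finset (Fin n))} (h : 𝓑 ⊆ 𝓑') : poly 𝓑 ⊆ poly 𝓑' :=
  convexHull_mono (image_mono h)

/-- linear inequalities pass to the polytope -/
lemma poly_le {𝓑 : Set (Finset (Fin n))} {S : Finset (Fin n)} {r : ℝ}
    (h : ∀ B ∈ 𝓑, ((S ∩ B).card : ℝ) ≤ r) {x : Fin n → ℝ} (hx : x ∈ poly 𝓑) : sm S x ≤ r := by
  have hc : Convex ℝ {x : Fin n → ℝ | sm S x ≤ r} := convex_halfSpace_le (sm_linear_isLinear S) r
  have hsub : poly 𝓑 ⊆ {x | sm S x ≤ r} := by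
    apply convexHull_min _ hc
    rintro _ ⟨B, hB, rfl⟩
    rw [mem_ofPred_eq, sm_ind]
    exact h B hB
  exact hsub hx

lemma poly_ge {𝓑 : Set (Finset (Fin n))} {S : Finset (Fin n)} {r : ℝ}
    (h : ∀ B ∈ 𝓑, r ≤ ((S ∩ B).card : ℝ)) {x : Fin n → ℝ} (hx : x ∈ poly 𝓑) : r ≤ sm S x := by
  have hc : Convex ℝ {x : Fin n → ℝ | r ≤ sm S x} := convex_halfSpace_ge (sm_linear_isLinear S) r
  have hsub : poly 𝓑 ⊆ {x | r ≤ sm S x} := by
    apply convexHull_min _ hc
    rintro _ ⟨B, hB, rfl⟩
    rw [mem_ofPred_eq, sm_ind]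
    exact h B hB
  exact hsub hx

lemma sm_single (i : Fin n) (x : Fin n → ℝ) : sm {i} x = x i := by simp [sm]

lemma poly_nonneg {𝓑 : Set (Finset (Fin n))} {x : Fin n → ℝ} (hx : x ∈ poly 𝓑) (i : Fin n) :
    0 ≤ x i := by
  rw [← sm_single i x]
  exact poly_ge (fun B _ => by positivity) hx

lemma poly_le_one {𝓑 : Set (Finset (Fin n))} {x : Fin n → ℝ} (hx : x ∈ poly 𝓑) (i : Fin n) :
    x i ≤ 1 := by
  rw [← sm_single i x]
  apply poly_le _ hx
  intro B _
  have : ({i} ∩ B).card ≤ ({i} : Finset (Fin n)).card := Finset.card_le_card Finset.inter_subset_left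
  rw [Finset.card_singleton] at this
  exact_mod_cast this

/-- a uniform 0/1 vector in `poly 𝓑` comes from a member of `𝓑`. -/
lemma mem_of_ind_mem {𝓑 : Set (Finset (Fin n))} {k : ℕ} (hk : ∀ B ∈ 𝓑, B.card = k)
    {T : Finset (Fin n)} (hT : T.card = k) (h : ind T ∈ poly 𝓑) : T ∈ 𝓑 := by
  classical
  obtain ⟨w, h1, h2, h3, h4⟩ := poly_rep h
  have hsum : sm T (ind T) = ∑ B, w B * ((T ∩ B).card : ℝ) := by
    rw [h4]
    have : sm T (∑ B, w B • ind B) = ∑ B, sm T (w B • ind B) := by
      simp only [sm, Finset.sum_apply]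
      rw [Finset.sum_comm]
    rw [this]
    apply Finset.sum_congr rfl
    intro B _
    rw [sm_smul, sm_ind]
  rw [sm_ind, Finset.inter_self, hT] at hsum
  by_contra hTn
  have hlt : ∑ B, w B * ((T ∩ B).card : ℝ) < ∑ B, w B * (k : ℝ) := by
    have hex : ∃ B, 0 < w B := by
      by_contra hcon
      push Not at hcon
      have : ∑ B, w B = 0 := Finset.sum_eq_zero (fun B _ => le_antisymm (hcon B) (h1 B))
      rw [this] at h3
      exact zero_ne_one h3
    obtain ⟨B0, hB0⟩ := hex
    have hle : ∀ B, w B * ((T ∩ B).card : ℝ) ≤ w B * (k : ℝ) := by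
      intro B
      apply mul_le_mul_of_nonneg_left _ (h1 B)
      have : (T ∩ B).card ≤ T.card := Finset.card_le_card Finset.inter_subset_left
      rw [hT] at this
      exact_mod_cast this
    apply Finset.sum_lt_sum (fun B _ => hle B)
    refine ⟨B0, Finset.mem_univ _, ?_⟩
    apply mul_lt_mul_of_pos_left _ hB0
    have hB0m : B0 ∈ 𝓑 := by
      by_contra hn
      rw [h2 B0 hn] at hB0
      exact lt_irrefl _ hB0
    have hne : T ≠ B0 := by rintro rfl; exact hTn hB0m
    have hss : T ∩ B0 ⊂ T := by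
      refine Finset.ssubset_iff_subset_ne.mpr ⟨Finset.inter_subset_left, ?_⟩
      intro he
      have hsub : T ⊆ B0 := Finset.inter_eq_left.mp he
      exact hne (Finset.eq_of_subset_of_card_le hsub (by rw [hk B0 hB0m, hT]))
    have := Finset.card_lt_card hss
    rw [hT] at this
    exact_mod_cast this
  rw [← hsum, ← Finset.sum_mul, h3, one_mul] at hlt
  exact lt_irrefl _ hlt

/-- symmetric exchange -/
def SymmExch (𝓑 : Set (Finset (Fin n))) : Prop :=
  ∀ B₁ ∈ 𝓑, ∀ B₂ ∈ 𝓑, ∀ a ∈ B₁, a ∉ B₂ → ∃ b ∈ B₂, b ∉ B₁ ∧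
    insert b (B₁.erase a) ∈ 𝓑 ∧ insert a (B₂.erase b) ∈ 𝓑

lemma ind_exch {B : Finset (Fin n)} {a b : Fin n} (ha : a ∈ B) (hb : b ∉ B) :
    ind (insert b (B.erase a)) = ind B + (Pi.single b 1 - Pi.single a 1) := by
  have hab : a ≠ b := by rintro rfl; exact hb ha
  funext i
  simp only [ind, Pi.add_apply, Pi.sub_apply, Finset.mem_insert, Finset.mem_erase]
  by_cases hib : i = b
  · subst hib
    simp [hb, hab.symm]
  · by_cases hia : i = a
    · subst hia
      simp [ha, hib]
    · simp [hib, hia]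

/-- support members of a face -/
lemma supp_mem_face {𝓑 : Set (Finset (Fin n))} {F : Set (Fin n → ℝ)} (hF : IsFace (poly 𝓑) F)
    {x : Fin n → ℝ} (hx : x ∈ F) {w : Finset (Fin n) → ℝ} (hw : Rep 𝓑 x w) {B : Finset (Fin n)}
    (hB : 0 < w B) : ind B ∈ F := by
  classical
  obtain ⟨h1, h2, h3, h4⟩ := hw
  have hBm : B ∈ 𝓑 := by
    by_contra hn
    rw [h2 B hn] at hB
    exact lt_irrefl _ hB
  have hle : w B ≤ 1 := by
    rw [← h3]
    exact Finset.single_le_sum (fun B _ => h1 B) (Finset.mem_univ B)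
  rcases eq_or_lt_of_le hle with h | h
  · have hz : ∀ B', B' ≠ B → w B' = 0 := by
      intro B' hne
      by_contra hpos
      have hpos' : 0 < w B' := lt_of_le_of_ne (h1 B') (Ne.symm hpos)
      have : w B + w B' ≤ ∑ B, w B := by
        rw [← Finset.sum_pair (Ne.symm hne)]
        exact Finset.sum_le_sum_of_subset_of_nonneg (Finset.subset_univ _) (fun B _ _ => h1 B)
      rw [h3, h] at this
      linarith
    have : x = ind B := by
      rw [h4, Finset.sum_eq_single B]
      · rw [h, one_smul]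
      · intro B' _ hne
        rw [hz B' hne, zero_smul]
      · intro hn; exact absurd (Finset.mem_univ B) hn
    rw [← this]; exact hx
  · -- proper convex combination
    have hpos : 0 < 1 - w B := by linarith
    obtain ⟨y, hy⟩ : ∃ y : Fin n → ℝ, y = (1 - w B)⁻¹ • (x - w B • ind B) := ⟨_, rfl⟩
    have hyrep : Rep 𝓑 y (fun B' => if B' = B then 0 else (1 - w B)⁻¹ * w B') := by
      refine ⟨?_, ?_, ?_, ?_⟩
      · intro B'
        dsimp
        split_ifs
        · exact le_rfl
        · exact mul_nonneg (inv_nonneg.mpr hpos.le) (h1 B')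
      · intro B' hB'
        dsimp
        split_ifs
        · rfl
        · rw [h2 B' hB', mul_zero]
      · have e1 : ∀ B', (if B' = B then (0:ℝ) else (1 - w B)⁻¹ * w B') =
            (1 - w B)⁻¹ * w B' - if B' = B then (1 - w B)⁻¹ * w B else 0 := by
          intro B'
          split_ifs with hh
          · rw [hh]; ring
          · ring
        simp_rw [e1]
        rw [Finset.sum_sub_distrib, ← Finset.mul_sum, h3, Finset.sum_ite_eq' Finset.univ B,
          if_pos (Finset.mem_univ B)]
        field_simp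
      · rw [hy]
        nth_rewrite 1 [h4]
        rw [← Finset.sum_erase_add _ _ (Finset.mem_univ B), add_sub_cancel_right, Finset.smul_sum]
        rw [← Finset.sum_erase_add Finset.univ _ (Finset.mem_univ B)]
        beta_reduce
        rw [if_pos rfl, zero_smul, add_zero]
        apply Finset.sum_congr rfl
        intro B' hB'
        rw [if_neg (Finset.ne_of_mem_erase hB'), smul_smul]
    have hyP : y ∈ poly 𝓑 := rep_mem hyrep
    apply hF.2.left_mem_of_mem_openSegment (ind_mem_poly hBm) hyP hx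
    refine ⟨w B, 1 - w B, hB, hpos, by ring, ?_⟩
    rw [hy, smul_smul, mul_inv_cancel₀ hpos.ne', one_smul]
    abel

/-- faces of polytopes of families with symmetric exchange -/
theorem face_eq {𝓑 : Set (Finset (Fin n))} (hex : SymmExch 𝓑) {F : Set (Fin n → ℝ)}
    (hF : IsFace (poly 𝓑) F) :
    F = poly {B ∈ 𝓑 | ind B ∈ F} ∧ SymmExch {B ∈ 𝓑 | ind B ∈ F} := by
  constructor
  · apply Subset.antisymm
    · intro x hx
      obtain ⟨w, hw⟩ := poly_rep (hF.2.subset hx)
      have hw' : Rep {B ∈ 𝓑 | ind B ∈ F} x w := by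
        refine ⟨hw.1, ?_, hw.2.2.1, hw.2.2.2⟩
        intro B hB
        by_contra hne
        have hpos : 0 < w B := lt_of_le_of_ne (hw.1 B) (Ne.symm hne)
        apply hB
        refine ⟨?_, supp_mem_face hF hx hw hpos⟩
        by_contra hn
        exact hne (hw.2.1 B hn)
      exact rep_mem hw'
    · apply convexHull_min _ hF.1
      rintro _ ⟨B, hB, rfl⟩
      exact hB.2
  · rintro B₁ ⟨hB₁, hF₁⟩ B₂ ⟨hB₂, hF₂⟩ a ha ha'
    obtain ⟨b, hb, hb', h1, h2⟩ := hex B₁ hB₁ B₂ hB₂ a ha ha'
    have e1 := ind_exch ha hb'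
    have e2 := ind_exch hb ha'
    have hmid : (1/2 : ℝ) • ind B₁ + (1/2 : ℝ) • ind B₂ ∈ F :=
      hF.1 hF₁ hF₂ (by norm_num) (by norm_num) (by norm_num)
    have hseg : (1/2 : ℝ) • ind B₁ + (1/2 : ℝ) • ind B₂ ∈
        openSegment ℝ (ind (insert b (B₁.erase a))) (ind (insert a (B₂.erase b))) := by
      refine ⟨1/2, 1/2, by norm_num, by norm_num, by norm_num, ?_⟩
      rw [e1, e2]
      module
    refine ⟨b, hb, hb', ⟨h1, ?_⟩, ⟨h2, ?_⟩⟩
    · exact hF.2.left_mem_of_mem_openSegment (ind_mem_poly h1) (ind_mem_poly h2) hmid hseg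
    · exact hF.2.right_mem_of_mem_openSegment (ind_mem_poly h1) (ind_mem_poly h2) hmid hseg

/-- a nonempty family with symmetric exchange is the set of bases of a matroid on `[n]`. -/
lemma exists_matroid {𝓑 : Set (Finset (Fin n))} (hex : SymmExch 𝓑) (hne : 𝓑.Nonempty) :
    ∃ N : Matroid (Fin n), N.E = Set.univ ∧ poly 𝓑 = matroidPolytope N := by
  classical
  obtain ⟨B0, hB0⟩ := hne
  refine ⟨Matroid.ofIsBaseOfFinite (E := Set.univ) (Set.finite_univ)
    (fun X => ∃ B ∈ 𝓑, X = (B : Set (Fin n))) ⟨_, B0, hB0, rfl⟩ ?_ (fun _ _ => Set.subset_univ _), rfl, ?_⟩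
  · rintro _ _ ⟨B₁, h1, rfl⟩ ⟨B₂, h2, rfl⟩ a ⟨ha, ha'⟩
    obtain ⟨b, hb, hb', h3, _⟩ := hex B₁ h1 B₂ h2 a (by simpa using ha) (by simpa using ha')
    refine ⟨b, ⟨by simpa using hb, by simpa using hb'⟩, _, h3, ?_⟩
    simp
  · unfold matroidPolytope
    congr 1
    ext B
    simp only [Set.mem_ofPred_eq, Matroid.ofIsBaseOfFinite_isBase]
    constructor
    · intro h; exact ⟨B, h, rfl⟩
    · rintro ⟨B', hB', he⟩
      have : B = B' := Finset.coe_injective he
      rw [this]; exact hB'

/-! ### Cutting by a half-space with integral right-hand side -/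

/-- directions in which one can move both ways inside a convex set -/
def Dir (P : Set (Fin n → ℝ)) (x v : Fin n → ℝ) : Prop :=
  ∃ ε : ℝ, 0 < ε ∧ x + ε • v ∈ P ∧ x - ε • v ∈ P

lemma Dir.shrink {P : Set (Fin n → ℝ)} (hP : Convex ℝ P) {x v : Fin n → ℝ} (hx : x ∈ P) {ε δ : ℝ}
    (hε : 0 < ε) (h1 : x + ε • v ∈ P) (h2 : x - ε • v ∈ P) (hδ : 0 ≤ δ) (hδε : δ ≤ ε) :
    x + δ • v ∈ P ∧ x - δ • v ∈ P := by
  have ht : 0 ≤ δ / ε := by positivity
  have ht1 : 0 ≤ 1 - δ / ε := by
    have : δ / ε ≤ 1 := (div_le_one hε).mpr hδε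
    linarith
  have hs : (1 - δ / ε) + δ / ε = 1 := by ring
  have e : δ / ε * ε = δ := by field_simp
  constructor
  · have := hP hx h1 ht1 ht hs
    have e2 : (1 - δ / ε) • x + (δ / ε) • (x + ε • v) = x + δ • v := by
      rw [smul_add, smul_smul, e, sub_smul, one_smul]; abel
    rwa [e2] at this
  · have := hP hx h2 ht1 ht hs
    have e2 : (1 - δ / ε) • x + (δ / ε) • (x - ε • v) = x - δ • v := by
      rw [smul_sub, smul_smul, e, sub_smul, one_smul]; abel
    rwa [e2] at this

lemma Dir.add {P : Set (Fin n → ℝ)} (hP : Convex ℝ P) {x v u : Fin n → ℝ} (hx : x ∈ P)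
    (hv : Dir P x v) (hu : Dir P x u) : Dir P x (v + u) := by
  obtain ⟨ε, hε, h1, h2⟩ := hv
  obtain ⟨η, hη, g1, g2⟩ := hu
  have hpos : 0 < min ε η := lt_min hε hη
  obtain ⟨a1, a2⟩ := Dir.shrink hP hx hε h1 h2 hpos.le (min_le_left _ _)
  obtain ⟨b1, b2⟩ := Dir.shrink hP hx hη g1 g2 hpos.le (min_le_right _ _)
  refine ⟨min ε η / 2, by positivity, ?_, ?_⟩
  · have := hP a1 b1 (by norm_num : (0:ℝ) ≤ 1/2) (by norm_num : (0:ℝ) ≤ 1/2) (by norm_num)
    have e : (1/2 : ℝ) • (x + min ε η • v) + (1/2 : ℝ) • (x + min ε η • u)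
        = x + (min ε η / 2) • (v + u) := by module
    rwa [e] at this
  · have := hP a2 b2 (by norm_num : (0:ℝ) ≤ 1/2) (by norm_num : (0:ℝ) ≤ 1/2) (by norm_num)
    have e : (1/2 : ℝ) • (x - min ε η • v) + (1/2 : ℝ) • (x - min ε η • u)
        = x - (min ε η / 2) • (v + u) := by module
    rwa [e] at this

lemma Dir.neg {P : Set (Fin n → ℝ)} {x v : Fin n → ℝ} (hv : Dir P x v) : Dir P x (-v) := by
  obtain ⟨ε, hε, h1, h2⟩ := hv
  refine ⟨ε, hε, ?_, ?_⟩
  · rw [smul_neg, ← sub_eq_add_neg]; exact h2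
  · rw [smul_neg, sub_neg_eq_add]; exact h1

/-- shifting weight -/
lemma shift_mem {𝓑 : Set (Finset (Fin n))} {x : Fin n → ℝ} {w : Finset (Fin n) → ℝ}
    (hw : Rep 𝓑 x w) {B B' : Finset (Fin n)} (hB' : B' ∈ 𝓑) {ε : ℝ} (hε : 0 ≤ ε)
    (hεB : ε ≤ w B) : x + ε • (ind B' - ind B) ∈ poly 𝓑 := by
  classical
  obtain ⟨h1, h2, h3, h4⟩ := hw
  apply rep_mem (w := fun A => w A + (if A = B' then ε else 0) - (if A = B then ε else 0))
  refine ⟨?_, ?_, ?_, ?_⟩
  · intro A
    dsimp
    have := h1 A
    by_cases hAB : A = B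
    · subst hAB
      rw [if_pos rfl]
      split_ifs <;> linarith
    · rw [if_neg hAB]
      split_ifs <;> linarith
  · intro A hA
    dsimp
    have hAB' : A ≠ B' := by rintro rfl; exact hA hB'
    rw [if_neg hAB', h2 A hA]
    by_cases hAB : A = B
    · rw [if_pos hAB]
      rw [← hAB, h2 A hA] at hεB
      linarith
    · rw [if_neg hAB]; ring
  · rw [Finset.sum_sub_distrib, Finset.sum_add_distrib, h3]
    simp
  · rw [h4]
    have : ∀ A, (w A + (if A = B' then ε else 0) - (if A = B then ε else 0)) • ind A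
        = w A • ind A + ((if A = B' then ε • ind B' else 0) - (if A = B then ε • ind B else 0)) := by
      intro A
      have e1 : (if A = B' then ε • ind A else (0 : Fin n → ℝ)) = (if A = B' then ε • ind B' else 0) := by
        split_ifs with h
        · rw [h]
        · rfl
      have e2 : (if A = B then ε • ind A else (0 : Fin n → ℝ)) = (if A = B then ε • ind B else 0) := by
        split_ifs with h
        · rw [h]
        · rfl
      rw [sub_smul, add_smul, ite_smul, ite_smul, zero_smul, e1, e2]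
      abel
    simp_rw [this]
    rw [Finset.sum_add_distrib, Finset.sum_sub_distrib]
    simp [smul_sub]

/-- exchange directions -/
lemma exch_dir {𝓑 : Set (Finset (Fin n))} (hex : SymmExch 𝓑) {x : Fin n → ℝ}
    {w : Finset (Fin n) → ℝ} (hw : Rep 𝓑 x w) {B₁ B₂ : Finset (Fin n)} (h1 : 0 < w B₁)
    (h2 : 0 < w B₂) {a : Fin n} (ha : a ∈ B₁) (ha' : a ∉ B₂) :
    ∃ b ∈ B₂, b ∉ B₁ ∧ Dir (poly 𝓑) x (Pi.single b 1 - Pi.single a 1) := by
  have hm : ∀ B, 0 < w B → B ∈ 𝓑 := by
    intro B hB
    by_contra hn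
    rw [hw.2.1 B hn] at hB
    exact lt_irrefl _ hB
  obtain ⟨b, hb, hb', g1, g2⟩ := hex B₁ (hm _ h1) B₂ (hm _ h2) a ha ha'
  refine ⟨b, hb, hb', min (w B₁) (w B₂), lt_min h1 h2, ?_, ?_⟩
  · have := shift_mem hw (B := B₁) g1 (lt_min h1 h2).le (min_le_left _ _)
    rwa [ind_exch ha hb', add_sub_cancel_left] at this
  · have := shift_mem hw (B := B₂) g2 (lt_min h1 h2).le (min_le_right _ _)
    rw [ind_exch hb ha', add_sub_cancel_left] at this
    have e : x + min (w B₁) (w B₂) • ((Pi.single a 1 : Fin n → ℝ) - Pi.single b 1)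
        = x - min (w B₁) (w B₂) • ((Pi.single b 1 : Fin n → ℝ) - Pi.single a 1) := by module
    rwa [e] at this

lemma sm_dir (S : Finset (Fin n)) (a b : Fin n) :
    sm S ((Pi.single b 1 : Fin n → ℝ) - Pi.single a 1)
      = (if b ∈ S then 1 else 0) - (if a ∈ S then 1 else 0) := by
  rw [sm_sub]
  simp [sm]

/-- the main cutting lemma -/
theorem cut {𝓑 : Set (Finset (Fin n))} {k : ℕ} (hk : ∀ B ∈ 𝓑, B.card = k) (hex : SymmExch 𝓑)
    (S : Finset (Fin n)) (r : ℕ) :
    {x | x ∈ poly 𝓑 ∧ sm S x ≤ r} = poly {B | B ∈ 𝓑 ∧ (S ∩ B).card ≤ r} := by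
  classical
  apply Subset.antisymm
  swap
  · apply convexHull_min
    · rintro _ ⟨B, hB, rfl⟩
      refine ⟨ind_mem_poly hB.1, ?_⟩
      rw [sm_ind]
      exact_mod_cast hB.2
    · exact (convex_poly 𝓑).inter (convex_halfSpace_le (sm_linear_isLinear S) r)
  obtain ⟨K, hK⟩ : ∃ K, K = {x | x ∈ poly 𝓑 ∧ sm S x ≤ r} := ⟨_, rfl⟩
  have hmK : ∀ x, x ∈ K ↔ x ∈ poly 𝓑 ∧ sm S x ≤ r := by intro x; rw [hK]; rfl
  rw [← hK]
  have hfin : (ind '' 𝓑).Finite := (Set.toFinite 𝓑).image _
  have hcompact : IsCompact (poly 𝓑) := hfin.isCompact_convexHull ℝ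
  have hKc : IsCompact K := by
    rw [hK]
    exact hcompact.inter_right (isClosed_le (continuous_sm S) continuous_const)
  have hKconv : Convex ℝ K := by
    rw [hK]
    exact (convex_poly 𝓑).inter (convex_halfSpace_le (sm_linear_isLinear S) r)
  have hext : K.extremePoints ℝ ⊆ ind '' {B | B ∈ 𝓑 ∧ (S ∩ B).card ≤ r} := by
    intro x hx
    have hxK : x ∈ K := hx.1
    obtain ⟨hxP, hxr⟩ := (hmK x).mp hxK
    obtain ⟨w, hw⟩ := poly_rep hxP
    -- no two-sided direction inside K
    have hno : ∀ v, v ≠ 0 → Dir (poly 𝓑) x v → (sm S v = 0 ∨ sm S x < r) → False := by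
      intro v hv hd hor
      obtain ⟨ε, hε, h1, h2⟩ := hd
      -- find δ with both in K
      obtain ⟨δ, hδ, k1, k2⟩ : ∃ δ : ℝ, 0 < δ ∧ x + δ • v ∈ K ∧ x - δ • v ∈ K := by
        rcases hor with h0 | hlt
        · refine ⟨ε, hε, (hmK _).mpr ⟨h1, ?_⟩, (hmK _).mpr ⟨h2, ?_⟩⟩
          · rw [sm_add, sm_smul, h0]; simpa using hxr
          · rw [sm_sub, sm_smul, h0]; simpa using hxr
        · obtain ⟨δ, hδ, hδε, hδs⟩ : ∃ δ : ℝ, 0 < δ ∧ δ ≤ ε ∧ δ * |sm S v| ≤ r - sm S x := by
            refine ⟨min ε ((r - sm S x) / (|sm S v| + 1)), ?_, min_le_left _ _, ?_⟩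
            · apply lt_min hε
              apply div_pos (by linarith) (by positivity)
            · have hp : 0 < |sm S v| + 1 := by positivity
              calc min ε ((r - sm S x) / (|sm S v| + 1)) * |sm S v|
                  ≤ ((r - sm S x) / (|sm S v| + 1)) * |sm S v| := by
                    apply mul_le_mul_of_nonneg_right (min_le_right _ _) (abs_nonneg _)
                _ ≤ ((r - sm S x) / (|sm S v| + 1)) * (|sm S v| + 1) := by
                    apply mul_le_mul_of_nonneg_left (by linarith)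
                    apply div_nonneg (by linarith) hp.le
                _ = r - sm S x := by field_simp
          obtain ⟨q1, q2⟩ := Dir.shrink (convex_poly 𝓑) hxP hε h1 h2 hδ.le hδε
          have hb1 : δ * sm S v ≤ δ * |sm S v| := mul_le_mul_of_nonneg_left (le_abs_self _) hδ.le
          have hb2 : -(δ * sm S v) ≤ δ * |sm S v| := by
            have := mul_le_mul_of_nonneg_left (neg_le_abs (sm S v)) hδ.le
            linarith
          refine ⟨δ, hδ, (hmK _).mpr ⟨q1, ?_⟩, (hmK _).mpr ⟨q2, ?_⟩⟩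
          · rw [sm_add, sm_smul]; linarith
          · rw [sm_sub, sm_smul]; linarith
      have hseg : x ∈ openSegment ℝ (x + δ • v) (x - δ • v) := by
        refine ⟨1/2, 1/2, by norm_num, by norm_num, by norm_num, ?_⟩
        module
      have := hx.2 k1 k2 hseg
      have h0 : δ • v = 0 := by simpa using this
      rcases smul_eq_zero.mp h0 with h | h
      · exact hδ.ne' h
      · exact hv h
    have hdne : ∀ a b : Fin n, a ≠ b → (Pi.single b 1 - Pi.single a 1 : Fin n → ℝ) ≠ 0 := by
      intro a b hab h0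
      have := congrFun h0 a
      simp [hab] at this
    have hm : ∀ B, 0 < w B → B ∈ 𝓑 := by
      intro B hB
      by_contra hn
      rw [hw.2.1 B hn] at hB
      exact lt_irrefl _ hB
    -- the support is a single set
    have huniq : ∀ B₁ B₂, 0 < w B₁ → 0 < w B₂ → B₁ = B₂ := by
      intro B₁ B₂ h1 h2
      by_contra hne
      -- exchange pairs change type and the constraint is tight
      have hdiff : ∀ A₁ A₂ : Finset (Fin n), 0 < w A₁ → 0 < w A₂ → A₁ ≠ A₂ → ∃ a ∈ A₁, a ∉ A₂ := by
        intro A₁ A₂ g1 g2 gne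
        by_contra hcon
        push Not at hcon
        exact gne (Finset.eq_of_subset_of_card_le hcon (by rw [hk _ (hm _ g1), hk _ (hm _ g2)]))
      have htight : sm S x = r := by
        by_contra hnt
        have hlt : sm S x < r := lt_of_le_of_ne hxr hnt
        obtain ⟨a, ha, ha'⟩ := hdiff B₁ B₂ h1 h2 hne
        obtain ⟨b, hb, hb', hd⟩ := exch_dir hex hw h1 h2 ha ha'
        exact hno _ (hdne a b (by rintro rfl; exact hb' ha)) hd (Or.inr hlt)
      -- every exchange direction crosses
      have hcross : ∀ a b : Fin n, a ≠ b → Dir (poly 𝓑) x (Pi.single b 1 - Pi.single a 1) →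
          (a ∈ S ∧ b ∉ S) ∨ (a ∉ S ∧ b ∈ S) := by
        intro a b hab hd
        by_contra hcon
        apply hno _ (hdne a b hab) hd
        left
        rw [sm_dir]
        by_cases haS : a ∈ S <;> by_cases hbS : b ∈ S
        · simp [haS, hbS]
        · exact absurd (Or.inl ⟨haS, hbS⟩) hcon
        · exact absurd (Or.inr ⟨haS, hbS⟩) hcon
        · simp [haS, hbS]
      -- key contradiction for a pair with g(A₁) ≥ g(A₂) that is not of the form (one more)
      have hkey : ∀ A₁ A₂ : Finset (Fin n), 0 < w A₁ → 0 < w A₂ → A₁ ≠ A₂ →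
          ((S ∩ A₂).card = (S ∩ A₁).card ∨ (S ∩ A₂).card + 2 ≤ (S ∩ A₁).card) → False := by
        intro A₁ A₂ g1 g2 gne hg
        -- there is an element a of S in A₁ \ A₂
        have hexa : ∃ a ∈ A₁, a ∉ A₂ ∧ a ∈ S := by
          by_contra hcon
          push Not at hcon
          have hsub : S ∩ A₁ ⊆ S ∩ A₂ := by
            intro i hi
            rw [Finset.mem_inter] at hi ⊢
            refine ⟨hi.1, ?_⟩
            by_contra hn
            exact hcon i hi.2 hn hi.1
          have hcard := Finset.card_le_card hsub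
          have heq : S ∩ A₁ = S ∩ A₂ := by
            apply Finset.eq_of_subset_of_card_le hsub
            omega
          obtain ⟨a, ha, ha'⟩ := hdiff A₁ A₂ g1 g2 gne
          obtain ⟨b, hb, hb', hd⟩ := exch_dir hex hw g1 g2 ha ha'
          have hab : a ≠ b := by rintro rfl; exact hb' ha
          rcases hcross a b hab hd with ⟨haS, _⟩ | ⟨_, hbS⟩
          · exact hcon a ha ha' haS
          · have : b ∈ S ∩ A₂ := Finset.mem_inter.mpr ⟨hbS, hb⟩
            rw [← heq, Finset.mem_inter] at this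
            exact hb' this.2
        obtain ⟨a, ha, ha', haS⟩ := hexa
        obtain ⟨b, hb, hb', hd⟩ := exch_dir hex hw g1 g2 ha ha'
        have hab : a ≠ b := by rintro rfl; exact hb' ha
        have hbS : b ∉ S := by
          rcases hcross a b hab hd with ⟨_, h⟩ | ⟨h, _⟩
          · exact h
          · exact absurd haS h
        rcases hg with hg | hg
        · -- equal: there is an element b' of S in A₂ \ A₁
          have hexb : ∃ b' ∈ A₂, b' ∉ A₁ ∧ b' ∈ S := by
            by_contra hcon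
            push Not at hcon
            have hsub : S ∩ A₂ ⊆ (S ∩ A₁).erase a := by
              intro i hi
              rw [Finset.mem_inter] at hi
              rw [Finset.mem_erase, Finset.mem_inter]
              refine ⟨?_, hi.1, ?_⟩
              · rintro rfl; exact ha' hi.2
              · by_contra hn
                exact hcon i hi.2 hn hi.1
            have := Finset.card_le_card hsub
            rw [Finset.card_erase_of_mem (Finset.mem_inter.mpr ⟨haS, ha⟩)] at this
            have hpos : 0 < (S ∩ A₁).card := Finset.card_pos.mpr ⟨a, Finset.mem_inter.mpr ⟨haS, ha⟩⟩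
            omega
          obtain ⟨b', hb1, hb2, hb3⟩ := hexb
          obtain ⟨a', ha1, ha2, hd'⟩ := exch_dir hex hw g2 g1 hb1 hb2
          -- direction: a' added, b' removed
          have hab' : b' ≠ a' := by rintro rfl; exact ha2 hb1
          have ha'S : a' ∉ S := by
            rcases hcross b' a' hab' hd' with ⟨_, h⟩ | ⟨h, _⟩
            · exact h
            · exact absurd hb3 h
          have hdir := Dir.add (convex_poly 𝓑) hxP hd hd'.neg
          apply hno _ _ hdir (Or.inl _)
          · intro h0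
            have := congrFun h0 a
            have e1 : a ≠ b' := by rintro rfl; exact hb2 ha
            have e2 : a ≠ a' := by rintro rfl; exact ha'S haS
            simp [hab, e1, e2] at this
          · have hneg : sm S (-((Pi.single a' 1 : Fin n → ℝ) - Pi.single b' 1)) =
                - sm S ((Pi.single a' 1 : Fin n → ℝ) - Pi.single b' 1) := by
              simp [sm]
            rw [sm_add, hneg, sm_dir, sm_dir]
            simp [haS, hbS, hb3, ha'S]
        · -- two more: another element a2 of S in A₁ \ A₂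
          have hexa2 : ∃ a2 ∈ A₁, a2 ∉ A₂ ∧ a2 ∈ S ∧ a2 ≠ a := by
            by_contra hcon
            push Not at hcon
            have hsub : S ∩ A₁ ⊆ insert a (S ∩ A₂) := by
              intro i hi
              rw [Finset.mem_inter] at hi
              rw [Finset.mem_insert, Finset.mem_inter]
              by_cases hi2 : i ∈ A₂
              · exact Or.inr ⟨hi.1, hi2⟩
              · exact Or.inl (hcon i hi.2 hi2 hi.1)
            have := Finset.card_le_card hsub
            have h5 := Finset.card_insert_le a (S ∩ A₂)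
            omega
          obtain ⟨a2, ha1, ha2, ha3, hne2⟩ := hexa2
          obtain ⟨b2, hb1, hb2, hd2⟩ := exch_dir hex hw g1 g2 ha1 ha2
          have hab2 : a2 ≠ b2 := by rintro rfl; exact hb2 ha1
          have hb2S : b2 ∉ S := by
            rcases hcross a2 b2 hab2 hd2 with ⟨_, h⟩ | ⟨h, _⟩
            · exact h
            · exact absurd ha3 h
          have hdir := Dir.add (convex_poly 𝓑) hxP hd hd2.neg
          apply hno _ _ hdir (Or.inl _)
          · intro h0
            have := congrFun h0 a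
            have e1 : a ≠ a2 := Ne.symm hne2
            have e2 : a ≠ b2 := by rintro rfl; exact hb2 ha
            simp [hab, e1, e2] at this
          · have hneg : sm S (-((Pi.single b2 1 : Fin n → ℝ) - Pi.single a2 1)) =
                - sm S ((Pi.single b2 1 : Fin n → ℝ) - Pi.single a2 1) := by
              simp [sm]
            rw [sm_add, hneg, sm_dir, sm_dir]
            simp [haS, hbS, ha3, hb2S]
      -- averages
      have hsum : (r : ℝ) = ∑ B, w B * ((S ∩ B).card : ℝ) := by
        rw [← htight, hw.2.2.2]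
        have : sm S (∑ B, w B • ind B) = ∑ B, sm S (w B • ind B) := by
          simp only [sm, Finset.sum_apply]
          rw [Finset.sum_comm]
        rw [this]
        apply Finset.sum_congr rfl
        intro B _
        rw [sm_smul, sm_ind]
      have hsum2 : ∑ B, w B * (((S ∩ B).card : ℝ) - r) = 0 := by
        simp_rw [mul_sub]
        rw [Finset.sum_sub_distrib, ← Finset.sum_mul, hw.2.2.1, ← hsum]
        ring
      by_cases hall : ∀ B, 0 < w B → (S ∩ B).card = r
      · exact hkey B₁ B₂ h1 h2 hne (Or.inl (by rw [hall B₁ h1, hall B₂ h2]))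
      · push Not at hall
        obtain ⟨B, hB, hBr⟩ := hall
        have hup : ∃ A, 0 < w A ∧ r < (S ∩ A).card := by
          by_contra hcon
          push Not at hcon
          have hlt : ∑ B, w B * (((S ∩ B).card : ℝ) - r) < 0 := by
            have hz : (0 : ℝ) = ∑ B : Finset (Fin n), (0 : ℝ) := by simp
            rw [hz]
            apply Finset.sum_lt_sum
            · intro A _
              rcases eq_or_lt_of_le (hw.1 A) with h | h
              · rw [← h]; simp
              · apply mul_nonpos_of_nonneg_of_nonpos h.le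
                have : ((S ∩ A).card : ℝ) ≤ r := by exact_mod_cast hcon A h
                linarith
            · refine ⟨B, Finset.mem_univ _, mul_neg_of_pos_of_neg hB ?_⟩
              have h1 := hcon B hB
              have : (S ∩ B).card < r := lt_of_le_of_ne h1 hBr
              have : ((S ∩ B).card : ℝ) < r := by exact_mod_cast this
              linarith
          rw [hsum2] at hlt
          exact lt_irrefl _ hlt
        have hdown : ∃ A, 0 < w A ∧ (S ∩ A).card < r := by
          by_contra hcon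
          push Not at hcon
          have hlt : 0 < ∑ B, w B * (((S ∩ B).card : ℝ) - r) := by
            have hz : (0 : ℝ) = ∑ B : Finset (Fin n), (0 : ℝ) := by simp
            rw [hz]
            apply Finset.sum_lt_sum
            · intro A _
              rcases eq_or_lt_of_le (hw.1 A) with h | h
              · rw [← h]; simp
              · apply mul_nonneg h.le
                have : (r : ℝ) ≤ ((S ∩ A).card : ℝ) := by exact_mod_cast hcon A h
                linarith
            · refine ⟨B, Finset.mem_univ _, mul_pos hB ?_⟩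
              have h1 := hcon B hB
              have : r < (S ∩ B).card := lt_of_le_of_ne h1 (Ne.symm hBr)
              have : (r : ℝ) < ((S ∩ B).card : ℝ) := by exact_mod_cast this
              linarith
          rw [hsum2] at hlt
          exact lt_irrefl _ hlt
        obtain ⟨A₁, hA₁, hr₁⟩ := hup
        obtain ⟨A₂, hA₂, hr₂⟩ := hdown
        exact hkey A₁ A₂ hA₁ hA₂ (by rintro rfl; omega) (Or.inr (by omega))
    -- conclude
    obtain ⟨B, hB⟩ : ∃ B, 0 < w B := by
      by_contra hcon
      push Not at hcon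
      have : ∑ B, w B = 0 := Finset.sum_eq_zero (fun B _ => le_antisymm (hcon B) (hw.1 B))
      rw [hw.2.2.1] at this
      exact one_ne_zero this
    have hz : ∀ B', B' ≠ B → w B' = 0 := by
      intro B' hne
      by_contra hpos
      exact hne (huniq B' B (lt_of_le_of_ne (hw.1 B') (Ne.symm hpos)) hB)
    have hB1 : w B = 1 := by
      rw [← hw.2.2.1, Finset.sum_eq_single B]
      · intro B' _ hne; exact hz B' hne
      · intro hn; exact absurd (Finset.mem_univ B) hn
    have hxB : x = ind B := by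
      rw [hw.2.2.2, Finset.sum_eq_single B]
      · rw [hB1, one_smul]
      · intro B' _ hne
        rw [hz B' hne, zero_smul]
      · intro hn; exact absurd (Finset.mem_univ B) hn
    refine ⟨B, ⟨hm B hB, ?_⟩, hxB.symm⟩
    rw [hxB, sm_ind] at hxr
    exact_mod_cast hxr
  rw [← closure_convexHull_extremePoints hKc hKconv]
  have hfin' : (ind '' {B | B ∈ 𝓑 ∧ (S ∩ B).card ≤ r}).Finite := (Set.toFinite _).image _
  apply closure_minimal _ (hfin'.isClosed_convexHull ℝ)
  exact convexHull_mono hext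

end Pool.Agent.MatSub
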