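import Mathlib
import Pool.Agent.Lib.MP_6a4d09_co.Poly

set_option autoImplicit false

namespace Pool.Agent.MatSub

open Set

variable {n : ℕ}

lemma IsFace.refl {P : Set (Fin n → ℝ)} (hP : Convex ℝ P) : IsFace P P := ⟨hP, IsExtreme.refl ℝ P⟩

lemma IsFace.trans {P F F' : Set (Fin n → ℝ)} (h1 : IsFace P F) (h2 : IsFace F F') : IsFace P F' :=
  ⟨h2.1, h1.2.trans h2.2⟩

lemma IsFace.mono {P Q F : Set (Fin n → ℝ)} (h : IsFace P F) (hQ : Q ⊆ P) (hF : F ⊆ Q) :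
    IsFace Q F :=
  ⟨h.1, ⟨hF, fun _ hx _ hy _ hz hs => h.2.left_mem_of_mem_openSegment (hQ hx) (hQ hy) hz hs⟩⟩

lemma IsFace.inter {P F F' : Set (Fin n → ℝ)} (h1 : IsFace P F) (h2 : IsFace P F') :
    IsFace P (F ∩ F') :=
  ⟨h1.1.inter h2.1, ⟨fun _ hx => h1.2.subset hx.1, fun _ hx _ hy _ hz hs =>
    ⟨h1.2.left_mem_of_mem_openSegment hx hy hz.1 hs,
      h2.2.left_mem_of_mem_openSegment hx hy hz.2 hs⟩⟩⟩

/-- face cut out by a valid inequality -/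
lemma isFace_eq {P : Set (Fin n → ℝ)} (hP : Convex ℝ P) (S : Finset (Fin n)) (r : ℝ)
    (h : ∀ x ∈ P, sm S x ≤ r) : IsFace P {x | x ∈ P ∧ sm S x = r} := by
  refine ⟨hP.inter ?_, ⟨fun x hx => hx.1, ?_⟩⟩
  · exact convex_hyperplane (sm_linear_isLinear S) r
  · rintro x hx y hy z ⟨_, hz⟩ ⟨a, b, ha, hb, hab, rfl⟩
    refine ⟨hx, ?_⟩
    rw [sm_add, sm_smul, sm_smul] at hz
    have h1 := h x hx
    have h2 := h y hy
    by_contra hne
    have h3 : sm S x < r := lt_of_le_of_ne h1 hne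
    have h4 : a * sm S x < a * r := mul_lt_mul_of_pos_left h3 ha
    have h5 : b * sm S y ≤ b * r := mul_le_mul_of_nonneg_left h2 hb.le
    have h6 : a * r + b * r = r := by rw [← add_mul, hab, one_mul]
    linarith

lemma isFace_eq' {P : Set (Fin n → ℝ)} (hP : Convex ℝ P) (S : Finset (Fin n)) (r : ℝ)
    (h : ∀ x ∈ P, r ≤ sm S x) : IsFace P {x | x ∈ P ∧ sm S x = r} := by
  refine ⟨hP.inter ?_, ⟨fun x hx => hx.1, ?_⟩⟩
  · exact convex_hyperplane (sm_linear_isLinear S) r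
  · rintro x hx y hy z ⟨_, hz⟩ ⟨a, b, ha, hb, hab, rfl⟩
    refine ⟨hx, ?_⟩
    rw [sm_add, sm_smul, sm_smul] at hz
    have h1 := h x hx
    have h2 := h y hy
    by_contra hne
    have h3 : r < sm S x := lt_of_le_of_ne h1 (Ne.symm hne)
    have h4 : a * r < a * sm S x := mul_lt_mul_of_pos_left h3 ha
    have h5 : b * r ≤ b * sm S y := mul_le_mul_of_nonneg_left h2 hb.le
    have h6 : a * r + b * r = r := by rw [← add_mul, hab, one_mul]
    linarith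

lemma poly_empty : poly (∅ : Set (Finset (Fin n))) = ∅ := by simp [poly]

lemma nonempty_of_poly {𝓑 : Set (Finset (Fin n))} (h : (poly 𝓑).Nonempty) : 𝓑.Nonempty := by
  rw [Set.nonempty_iff_ne_empty]
  rintro rfl
  rw [poly_empty] at h
  exact Set.not_nonempty_empty h

lemma ind_extreme {𝓑 : Set (Finset (Fin n))} {B : Finset (Fin n)} (hB : ind B ∈ poly 𝓑) :
    ind B ∈ (poly 𝓑).extremePoints ℝ := by
  refine ⟨hB, ?_⟩
  rintro x hx y hy ⟨a, b, ha, hb, hab, he⟩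
  funext i
  have hei := congrFun he i
  simp only [Pi.add_apply, Pi.smul_apply, smul_eq_mul] at hei
  have hx0 := poly_nonneg hx i
  have hx1 := poly_le_one hx i
  have hy0 := poly_nonneg hy i
  have hy1 := poly_le_one hy i
  have hind : ind B i = 0 ∨ ind B i = 1 := by
    unfold ind
    by_cases h : i ∈ B
    · right; simp [h]
    · left; simp [h]
  rcases hind with h | h
  · rw [h] at hei ⊢
    have h1 : 0 ≤ a * x i := mul_nonneg ha.le hx0
    have h2 : 0 ≤ b * y i := mul_nonneg hb.le hy0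
    have h3 : a * x i = 0 := by linarith
    rcases mul_eq_zero.mp h3 with h4 | h4
    · exact absurd h4 ha.ne'
    · exact h4
  · rw [h] at hei ⊢
    have h1 : 0 ≤ a * (1 - x i) := mul_nonneg ha.le (by linarith)
    have h2 : 0 ≤ b * (1 - y i) := mul_nonneg hb.le (by linarith)
    have h5 : a * (1 - x i) + b * (1 - y i) = 0 := by
      have : a * (1 - x i) + b * (1 - y i) = (a + b) - (a * x i + b * y i) := by ring
      rw [this, hab, hei]; ring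
    have h3 : a * (1 - x i) = 0 := by linarith
    rcases mul_eq_zero.mp h3 with h4 | h4
    · exact absurd h4 ha.ne'
    · linarith

/-- the complex of all faces of the pieces of a regular subdivision -/
def pieceComplex {ι : Type} (Q : ι → Set (Fin n → ℝ)) : Set (Set (Fin n → ℝ)) :=
  {F | F.Nonempty ∧ ∃ i, IsFace (Q i) F}

theorem regular_complex {ι : Type} [Finite ι] [Nonempty ι] (𝓟 : Set (Finset (Fin n)))
    (h : ι → (Fin n → ℝ) → ℝ)
    (haff : ∀ i (a b : ℝ) (x y : Fin n → ℝ), a + b = 1 → h i (a • x + b • y) = a * h i x + b * h i y)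
    (𝓑 : ι → Set (Finset (Fin n))) (hex : ∀ i, SymmExch (𝓑 i))
    (hQ : ∀ i, {x | x ∈ poly 𝓟 ∧ ∀ j, h j x ≤ h i x} = poly (𝓑 i)) :
    IsMatroidSubdivision (poly 𝓟) (pieceComplex (fun i => poly (𝓑 i))) := by
  have hmem : ∀ i x, x ∈ poly (𝓑 i) ↔ x ∈ poly 𝓟 ∧ ∀ j, h j x ≤ h i x := by
    intro i x
    rw [← hQ i]; rfl
  refine ⟨?_, ?_, ?_, ?_, ?_, ?_⟩
  · apply (Set.finite_range (poly (n := n))).subset
    rintro F ⟨_, i, hF⟩
    obtain ⟨h1, _⟩ := face_eq (hex i) hF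
    exact ⟨_, h1.symm⟩
  · rintro F ⟨hne, i, hF⟩
    obtain ⟨h1, h2⟩ := face_eq (hex i) hF
    rw [h1] at hne
    obtain ⟨N, hN, hN2⟩ := exists_matroid h2 (nonempty_of_poly hne)
    exact ⟨N, hN, h1.trans hN2⟩
  · rintro F ⟨hne, i, hF⟩ x hx
    obtain ⟨h1, h2⟩ := face_eq (hex i) hF
    have hxF : x ∈ F := hx.1
    rw [h1] at hx
    obtain ⟨B, hB, rfl⟩ := extremePoints_convexHull_subset hx
    apply ind_extreme
    have := hF.2.subset hxF
    exact ((hmem i _).mp this).1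
  · rintro C ⟨_, i, hC⟩ F hF hne
    exact ⟨hne, i, hC.trans hF⟩
  · rintro C ⟨_, i, hC⟩ D ⟨_, j, hD⟩
    refine ⟨hC.1.inter hD.1, ⟨fun x hx => hx.1, ?_⟩⟩
    rintro x hx y hy z ⟨hzC, hzD⟩ hseg
    refine ⟨hx, ?_⟩
    have hxi := (hmem i x).mp (hC.2.subset hx)
    have hyi := (hmem i y).mp (hC.2.subset hy)
    have hzi := (hmem i z).mp (hC.2.subset hzC)
    have hzj := (hmem j z).mp (hD.2.subset hzD)
    have heq : h i z = h j z := le_antisymm (hzj.2 i) (hzi.2 j)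
    have hseg' := hseg
    obtain ⟨a, b, ha, hb, hab, hz⟩ := hseg
    have e1 := haff i a b x y hab
    have e2 := haff j a b x y hab
    rw [hz] at e1 e2
    have d1 : 0 ≤ a * (h i x - h j x) := mul_nonneg ha.le (by linarith [hxi.2 j])
    have d2 : 0 ≤ b * (h i y - h j y) := mul_nonneg hb.le (by linarith [hyi.2 j])
    have d3 : a * (h i x - h j x) + b * (h i y - h j y) = 0 := by
      have : a * (h i x - h j x) + b * (h i y - h j y)
          = (a * h i x + b * h i y) - (a * h j x + b * h j y) := by ring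
      rw [this, ← e1, ← e2, heq]; ring
    have d4 : a * (h i x - h j x) = 0 := by linarith
    have d5 : b * (h i y - h j y) = 0 := by linarith
    have f1 : h i x = h j x := by
      rcases mul_eq_zero.mp d4 with h4 | h4
      · exact absurd h4 ha.ne'
      · linarith
    have f2 : h i y = h j y := by
      rcases mul_eq_zero.mp d5 with h4 | h4
      · exact absurd h4 hb.ne'
      · linarith
    have hxj : x ∈ poly (𝓑 j) := (hmem j x).mpr ⟨hxi.1, fun l => by rw [← f1]; exact hxi.2 l⟩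
    have hyj : y ∈ poly (𝓑 j) := (hmem j y).mpr ⟨hyi.1, fun l => by rw [← f2]; exact hyi.2 l⟩
    exact hD.2.left_mem_of_mem_openSegment hxj hyj hzD hseg'
  · apply Subset.antisymm
    · rintro x ⟨F, ⟨_, i, hF⟩, hx⟩
      exact ((hmem i x).mp (hF.2.subset hx)).1
    · intro x hx
      obtain ⟨i, hi⟩ := Finite.exists_max (fun i => h i x)
      have hxi : x ∈ poly (𝓑 i) := (hmem i x).mpr ⟨hx, hi⟩
      exact ⟨poly (𝓑 i), ⟨⟨x, hxi⟩, i, IsFace.refl (convex_poly _)⟩, hxi⟩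

/-! ### Refinement -/

lemma cell_nonempty {P : Set (Fin n → ℝ)} {𝒞 : Set (Set (Fin n → ℝ))}
    (h : IsMatroidSubdivision P 𝒞) {C : Set (Fin n → ℝ)} (hC : C ∈ 𝒞) : C.Nonempty := by
  classical
  obtain ⟨N, _, rfl⟩ := h.matroid C hC
  obtain ⟨B, hB⟩ := N.exists_isBase
  refine ⟨ind B.toFinset, ind_mem_poly ?_⟩
  simpa using hB

lemma refines_subset {P : Set (Fin n → ℝ)} {𝒞 𝒟 : Set (Set (Fin n → ℝ))}
    (hC : IsMatroidSubdivision P 𝒞) (hD : IsMatroidSubdivision P 𝒟) (h1 : Refines 𝒞 𝒟)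
    (h2 : Refines 𝒟 𝒞) : 𝒞 ⊆ 𝒟 := by
  intro C hCm
  obtain ⟨D, hDm, hCD⟩ := h1 C hCm
  obtain ⟨C', hC'm, hDC'⟩ := h2 D hDm
  have hf := hC.inter C' hC'm C hCm
  rw [Set.inter_eq_self_of_subset_right (hCD.trans hDC')] at hf
  exact hD.face_mem D hDm C (hf.mono hDC' hCD) (cell_nonempty hC hCm)

lemma refines_antisymm {P : Set (Fin n → ℝ)} {𝒞 𝒟 : Set (Set (Fin n → ℝ))}
    (hC : IsMatroidSubdivision P 𝒞) (hD : IsMatroidSubdivision P 𝒟) (h1 : Refines 𝒞 𝒟)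
    (h2 : Refines 𝒟 𝒞) : 𝒞 = 𝒟 :=
  Subset.antisymm (refines_subset hC hD h1 h2) (refines_subset hD hC h2 h1)

lemma Refines.trans' {𝒞 𝒟 𝓔 : Set (Set (Fin n → ℝ))} (h1 : Refines 𝒞 𝒟) (h2 : Refines 𝒟 𝓔) :
    Refines 𝒞 𝓔 := by
  intro C hC
  obtain ⟨D, hD, hCD⟩ := h1 C hC
  obtain ⟨E, hE, hDE⟩ := h2 D hD
  exact ⟨E, hE, hCD.trans hDE⟩

theorem exists_finest {P : Set (Fin n → ℝ)} {𝒞₀ : Set (Set (Fin n → ℝ))}
    (h0 : IsMatroidSubdivision P 𝒞₀) : ∃ 𝒞, IsFinest P 𝒞 ∧ Refines 𝒞 𝒞₀ := by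
  have hfin : {𝒞 : Set (Set (Fin n → ℝ)) | IsMatroidSubdivision P 𝒞}.Finite := by
    apply ((Set.finite_range (poly (n := n))).finite_subsets).subset
    intro 𝒞 h𝒞 C hC
    obtain ⟨N, _, rfl⟩ := h𝒞.matroid C hC
    exact ⟨_, rfl⟩
  have : Finite {𝒞 : Set (Set (Fin n → ℝ)) // IsMatroidSubdivision P 𝒞} := hfin
  let r : {𝒞 : Set (Set (Fin n → ℝ)) // IsMatroidSubdivision P 𝒞} →
      {𝒞 : Set (Set (Fin n → ℝ)) // IsMatroidSubdivision P 𝒞} → Prop :=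
    fun a b => Refines a.1 b.1 ∧ a ≠ b
  have ht : IsTrans _ r := ⟨by
    rintro a b c ⟨h1, h2⟩ ⟨h3, h4⟩
    refine ⟨h1.trans' h3, ?_⟩
    rintro rfl
    exact h2 (Subtype.ext (refines_antisymm a.2 b.2 h1 h3))⟩
  have hi : Std.Irrefl r := ⟨fun a h => h.2 rfl⟩
  have hwf : WellFounded r := Finite.wellFounded_of_trans_of_irrefl r
  obtain ⟨m, hm, hmin⟩ := hwf.has_min {𝒞 | Refines 𝒞.1 𝒞₀} ⟨⟨𝒞₀, h0⟩, fun C hC => ⟨C, hC, Subset.rfl⟩⟩
  refine ⟨m.1, ⟨m.2, ?_⟩, hm⟩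
  intro 𝒞' h1 h2
  by_contra hne
  apply hmin ⟨𝒞', h1⟩ (h2.trans' hm)
  exact ⟨h2, fun he => hne (congrArg Subtype.val he)⟩

/-- restriction of a refinement to a cell of the coarser complex -/
lemma cell_in {P : Set (Fin n → ℝ)} {𝒞 𝒞₀ : Set (Set (Fin n → ℝ))}
    (hC : IsMatroidSubdivision P 𝒞) (h0 : IsMatroidSubdivision P 𝒞₀) (href : Refines 𝒞 𝒞₀)
    {G : Set (Fin n → ℝ)} (hG : G ∈ 𝒞₀) {y : Fin n → ℝ} (hy : y ∈ G) :
    ∃ C ∈ 𝒞, y ∈ C ∧ C ⊆ G := by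
  have hyP : y ∈ P := by rw [← h0.union]; exact ⟨G, hG, hy⟩
  rw [← hC.union] at hyP
  obtain ⟨C, hCm, hyC⟩ := hyP
  obtain ⟨D, hDm, hCD⟩ := href C hCm
  have hf := h0.inter D hDm G hG
  have hf2 : IsFace C (C ∩ G) := by
    have e : C ∩ G = C ∩ (D ∩ G) := by
      ext x
      exact ⟨fun h => ⟨h.1, hCD h.1, h.2⟩, fun h => ⟨h.1, h.2.2⟩⟩
    have hCconv : Convex ℝ C := by
      obtain ⟨N, _, rfl⟩ := hC.matroid C hCm
      exact convex_poly _
    rw [e]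
    refine ⟨hCconv.inter hf.1, ⟨fun x hx => hx.1, ?_⟩⟩
    rintro x hx z hz w ⟨_, hw⟩ hs
    exact ⟨hx, hf.2.left_mem_of_mem_openSegment (hCD hx) (hCD hz) hw hs⟩
  exact ⟨C ∩ G, hC.face_mem C hCm _ hf2 ⟨y, hyC, hy⟩, ⟨hyC, hy⟩, fun x hx => hx.2⟩

/-! ### Vertex sets of cells -/

/-- sets whose indicator lies in `C` -/
def vs (C : Set (Fin n → ℝ)) : Set (Finset (Fin n)) := {B | ind B ∈ C}

/-- basis exchange -/
def Exch (𝓑 : Set (Finset (Fin n))) : Prop :=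
  ∀ B₁ ∈ 𝓑, ∀ B₂ ∈ 𝓑, ∀ a ∈ B₁, a ∉ B₂ → ∃ b ∈ B₂, b ∉ B₁ ∧ insert b (B₁.erase a) ∈ 𝓑

lemma hyp_card {k : ℕ} {B : Finset (Fin n)} (h : ind B ∈ hypersimplex k n) : B.card = k := by
  have h1 : sm Finset.univ (ind B) ≤ k := poly_le (fun T hT => by
    rw [Finset.univ_inter]; exact_mod_cast le_of_eq hT) h
  have h2 : (k : ℝ) ≤ sm Finset.univ (ind B) := poly_ge (fun T hT => by
    rw [Finset.univ_inter]; exact_mod_cast le_of_eq (Eq.symm hT)) h
  rw [sm_ind, Finset.univ_inter] at h1 h2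
  have := le_antisymm h1 h2
  exact_mod_cast this

lemma cell_spec {k : ℕ} {𝒞 : Set (Set (Fin n → ℝ))}
    (h : IsMatroidSubdivision (hypersimplex k n) 𝒞) {C : Set (Fin n → ℝ)} (hC : C ∈ 𝒞) :
    C = poly (vs C) ∧ Exch (vs C) ∧ (∀ B ∈ vs C, B.card = k) := by
  classical
  obtain ⟨N, _, hN⟩ := h.matroid C hC
  have hsub : C ⊆ hypersimplex k n := by
    intro x hx
    rw [← h.union]
    exact ⟨C, hC, hx⟩
  have hcard : ∀ B ∈ vs C, B.card = k := fun B hB => hyp_card (hsub hB)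
  have hbase : ∀ B : Finset (Fin n), N.IsBase (B : Set (Fin n)) → B.card = k := by
    intro B hB
    apply hcard
    show ind B ∈ C
    rw [hN]
    exact ind_mem_poly hB
  have hvs : vs C = {B : Finset (Fin n) | N.IsBase (B : Set (Fin n))} := by
    ext B
    constructor
    · intro hB
      have hB' : ind B ∈ C := hB
      have hc := hcard B hB
      rw [hN] at hB'
      exact mem_of_ind_mem (k := k) (fun T hT => hbase T hT) hc hB'
    · intro hB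
      show ind B ∈ C
      rw [hN]
      exact ind_mem_poly hB
  refine ⟨by rw [hvs]; exact hN, ?_, hcard⟩
  rw [hvs]
  intro B₁ h1 B₂ h2 a ha ha'
  obtain ⟨b, hb, hb2⟩ := N.isBase_exchange _ _ h1 h2 a ⟨by simpa using ha, by simpa using ha'⟩
  refine ⟨b, by simpa using hb.1, by simpa using hb.2, ?_⟩
  show N.IsBase _
  have e : ((insert b (B₁.erase a) : Finset (Fin n)) : Set (Fin n)) = insert b ((B₁ : Set (Fin n)) \ {a}) := by
    simp
  rw [e]
  exact hb2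

end Pool.Agent.MatSub
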