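import Mathlib
import Pool.Agent.Lib.MP_6a4d09_co.Poly

set_option autoImplicit false

namespace Pool.Agent.MatSub

open Set

/-! ### Fast checking of the symmetric exchange property -/

/-- table lookup -/
def tmem (tab m : ℕ) : Bool := (Nat.land (Nat.shiftRight tab m) 1).beq 1

/-- bit test; `p` is a power of two -/
def tb (m p : ℕ) : Bool := (Nat.land m p).beq p

/-- the check for one pair -/
def sc (tab : ℕ) (e₁ e₂ : ℕ × List ℕ) : Bool :=
  e₁.2.all (fun a => tb e₂.1 a || e₂.2.any (fun b => !(tb e₁.1 b) &&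
    (tmem tab (Nat.xor (Nat.xor e₁.1 a) b) && tmem tab (Nat.xor (Nat.xor e₂.1 a) b))))

/-- all pairs -/
def chk (tab : ℕ) (L : List (ℕ × List ℕ)) : Bool := L.all (fun e₁ => L.all (fun e₂ => sc tab e₁ e₂))

/-- powers of two -/
def pw : List ℕ := [1, 2, 4, 8, 16, 32, 64, 128, 256]

/-- number of elements -/
def pcf (m : ℕ) : ℕ :=
  (tb m 1).toNat + (tb m 2).toNat + (tb m 4).toNat + (tb m 8).toNat + (tb m 16).toNat +
  (tb m 32).toNat + (tb m 64).toNat + (tb m 128).toNat + (tb m 256).toNat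

/-- membership test in the family of constraints -/
def inF (cs : List (ℕ × ℕ)) (m : ℕ) : Bool :=
  (pcf m).beq 3 && cs.all (fun c => (pcf (Nat.land m c.1)).ble c.2)

/-- the whole check -/
def okb (cs : List (ℕ × ℕ)) (tab : ℕ) (L : List (ℕ × List ℕ)) : Bool :=
  (List.range 512).all (fun m => tmem tab m == inF cs m) &&
  ((List.range 512).all (fun m => !(tmem tab m) || L.any (fun e => e.1.beq m)) &&
  (L.all (fun e => e.2 == pw.filter (tb e.1)) && chk tab L))

/-- the subset encoded by a bit mask -/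
def fs (c : ℕ) : Finset (Fin 9) := Finset.univ.filter (fun i => tb c (2 ^ (i : ℕ)) = true)

/-- the family of 3-sets satisfying constraints -/
def fam (cs : List (ℕ × ℕ)) : Set (Finset (Fin 9)) :=
  {B | B.card = 3 ∧ ∀ c ∈ cs, (fs c.1 ∩ B).card ≤ c.2}

/-- bit mask of a subset -/
def mask (B : Finset (Fin 9)) : ℕ := Nat.ofBits (fun i : Fin 9 => decide (i ∈ B))

lemma tb_eq (m i : ℕ) : tb m (2 ^ i) = m.testBit i := by
  unfold tb
  have h1 : Nat.land m (2 ^ i) = (m.testBit i).toNat * 2 ^ i := Nat.and_two_pow m i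
  rw [h1]
  have hp : 0 < 2 ^ i := by positivity
  cases h : m.testBit i
  · simp only [Bool.toNat_false, zero_mul]
    cases h2 : Nat.beq 0 (2 ^ i)
    · rfl
    · have := Nat.eq_of_beq_eq_true h2
      omega
  · simp

lemma mask_testBit (B : Finset (Fin 9)) (i : ℕ) :
    (mask B).testBit i = if h : i < 9 then decide ((⟨i, h⟩ : Fin 9) ∈ B) else false := by
  unfold mask
  split_ifs with h
  · rw [Nat.testBit_ofBits_lt _ _ h]
  · rw [Nat.testBit_ofBits_ge _ _ (by omega)]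

lemma mask_tb (B : Finset (Fin 9)) (i : Fin 9) : tb (mask B) (2 ^ (i : ℕ)) = decide (i ∈ B) := by
  rw [tb_eq, mask_testBit, dif_pos i.2]

lemma mask_lt (B : Finset (Fin 9)) : mask B < 512 := by
  have := Nat.ofBits_lt_two_pow (fun i : Fin 9 => decide (i ∈ B))
  simpa [mask] using this

lemma pcf_eq (m : ℕ) :
    pcf m = (Finset.univ.filter (fun i : Fin 9 => tb m (2 ^ (i : ℕ)) = true)).card := by
  rw [Finset.card_filter]
  simp only [Fin.sum_univ_succ, pcf, Bool.toNat]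
  simp [Bool.cond_eq_ite, add_assoc]

lemma mem_pw {p : ℕ} (hp : p ∈ pw) : ∃ i : Fin 9, p = 2 ^ (i : ℕ) := by
  simp only [pw, List.mem_cons, List.not_mem_nil, or_false] at hp
  rcases hp with h | h | h | h | h | h | h | h | h
  · exact ⟨0, by rw [h]; rfl⟩
  · exact ⟨1, by rw [h]; rfl⟩
  · exact ⟨2, by rw [h]; rfl⟩
  · exact ⟨3, by rw [h]; rfl⟩
  · exact ⟨4, by rw [h]; rfl⟩
  · exact ⟨5, by rw [h]; rfl⟩
  · exact ⟨6, by rw [h]; rfl⟩
  · exact ⟨7, by rw [h]; rfl⟩
  · exact ⟨8, by rw [h]; rfl⟩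

lemma pw_mem (i : Fin 9) : 2 ^ (i : ℕ) ∈ pw := by
  fin_cases i <;> simp [pw]

lemma pcf_mask (B : Finset (Fin 9)) : pcf (mask B) = B.card := by
  rw [pcf_eq]
  congr 1
  ext i
  simp [mask_tb]

lemma pcf_land (B : Finset (Fin 9)) (c : ℕ) : pcf (Nat.land (mask B) c) = (fs c ∩ B).card := by
  rw [pcf_eq]
  congr 1
  ext i
  have h1 : (Nat.land (mask B) c).testBit i = ((mask B).testBit i && c.testBit i) :=
    Nat.testBit_and _ _ _
  simp only [Finset.mem_filter, Finset.mem_univ, true_and, fs, Finset.mem_inter]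
  rw [tb_eq, h1, ← tb_eq, ← tb_eq, mask_tb]
  simp [and_comm]

lemma inF_iff (cs : List (ℕ × ℕ)) (B : Finset (Fin 9)) : inF cs (mask B) = true ↔ B ∈ fam cs := by
  unfold inF fam
  rw [Bool.and_eq_true, List.all_eq_true, Nat.beq_eq, pcf_mask]
  simp only [Nat.ble_eq, pcf_land, mem_ofPred_eq]

lemma mask_exch {B : Finset (Fin 9)} {a b : Fin 9} (ha : a ∈ B) (hb : b ∉ B) :
    mask (insert b (B.erase a)) = Nat.xor (Nat.xor (mask B) (2 ^ (a : ℕ))) (2 ^ (b : ℕ)) := by
  apply Nat.eq_of_testBit_eq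
  intro i
  have h1 : (Nat.xor (Nat.xor (mask B) (2 ^ (a : ℕ))) (2 ^ (b : ℕ))).testBit i =
      (((mask B).testBit i ^^ (2 ^ (a : ℕ)).testBit i) ^^ (2 ^ (b : ℕ)).testBit i) := by
    have e1 := Nat.testBit_xor (mask B) (2 ^ (a : ℕ)) i
    have e2 := Nat.testBit_xor (Nat.xor (mask B) (2 ^ (a : ℕ))) (2 ^ (b : ℕ)) i
    exact e2.trans (by congr 1)
  rw [h1, Nat.testBit_two_pow, Nat.testBit_two_pow, mask_testBit, mask_testBit]
  have hab : a ≠ b := by rintro rfl; exact hb ha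
  by_cases hi : i < 9
  · rw [dif_pos hi, dif_pos hi]
    obtain ⟨j, hj⟩ : ∃ j : Fin 9, j = ⟨i, hi⟩ := ⟨_, rfl⟩
    rw [← hj]
    have hji : (j : ℕ) = i := by rw [hj]
    have ea : (decide ((a : ℕ) = i)) = decide (a = j) := by
      rw [← hji]; congr 1; rw [Fin.ext_iff]
    have eb : (decide ((b : ℕ) = i)) = decide (b = j) := by
      rw [← hji]; congr 1; rw [Fin.ext_iff]
    rw [ea, eb]
    by_cases h1 : a = j
    · subst h1
      simp [ha, hab, hab.symm]
    · by_cases h2 : b = j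
      · subst h2
        simp [hb, hab]
      · have h1' : j ≠ a := Ne.symm h1
        have h2' : j ≠ b := Ne.symm h2
        simp [h1, h2, h1', h2']
  · rw [dif_neg hi, dif_neg hi]
    have ea : (decide ((a : ℕ) = i)) = false := by
      rw [decide_eq_false_iff_not]; intro h; exact hi (h ▸ a.2)
    have eb : (decide ((b : ℕ) = i)) = false := by
      rw [decide_eq_false_iff_not]; intro h; exact hi (h ▸ b.2)
    rw [ea, eb]; rfl

theorem symm_of_ok {cs : List (ℕ × ℕ)} {tab : ℕ} {L : List (ℕ × List ℕ)}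
    (h : okb cs tab L = true) : SymmExch (fam cs) := by
  unfold okb at h
  rw [Bool.and_eq_true, Bool.and_eq_true, Bool.and_eq_true, List.all_eq_true, List.all_eq_true,
    List.all_eq_true] at h
  obtain ⟨h1, h2, h3, h4⟩ := h
  have hmem : ∀ B : Finset (Fin 9), tmem tab (mask B) = true ↔ B ∈ fam cs := by
    intro B
    have := h1 (mask B) (List.mem_range.mpr (mask_lt B))
    rw [beq_iff_eq] at this
    rw [this, inF_iff]
  have hL : ∀ B ∈ fam cs, ∃ e ∈ L, e.1 = mask B ∧ e.2 = pw.filter (tb e.1) := by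
    intro B hB
    have := h2 (mask B) (List.mem_range.mpr (mask_lt B))
    rw [(hmem B).mpr hB] at this
    simp only [Bool.not_true, Bool.false_or, List.any_eq_true] at this
    obtain ⟨e, he, he'⟩ := this
    have h5 := h3 e he
    rw [beq_iff_eq] at h5
    exact ⟨e, he, Nat.eq_of_beq_eq_true he', h5⟩
  intro B₁ hB₁ B₂ hB₂ a ha ha'
  obtain ⟨e₁, he₁, em₁, el₁⟩ := hL B₁ hB₁
  obtain ⟨e₂, he₂, em₂, el₂⟩ := hL B₂ hB₂
  unfold chk at h4
  rw [List.all_eq_true] at h4
  have h5 := h4 e₁ he₁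
  rw [List.all_eq_true] at h5
  have h6 := h5 e₂ he₂
  unfold sc at h6
  rw [List.all_eq_true] at h6
  have ha2 : 2 ^ (a : ℕ) ∈ e₁.2 := by
    rw [el₁, List.mem_filter]
    refine ⟨pw_mem a, ?_⟩
    rw [em₁, mask_tb]; simpa using ha
  have h7 := h6 _ ha2
  rw [em₂, mask_tb, em₁] at h7
  simp only [ha', decide_false, Bool.false_or, List.any_eq_true, Bool.and_eq_true,
    Bool.not_eq_true'] at h7
  obtain ⟨p, hp, hp1, hp2, hp3⟩ := h7
  rw [el₂, List.mem_filter] at hp
  obtain ⟨hp4, hp5⟩ := hp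
  obtain ⟨b, rfl⟩ := mem_pw hp4
  rw [em₂, mask_tb, decide_eq_true_iff] at hp5
  rw [mask_tb, decide_eq_false_iff_not] at hp1
  refine ⟨b, hp5, hp1, ?_, ?_⟩
  · rw [← hmem, mask_exch ha hp1]
    exact hp2
  · rw [← hmem, mask_exch hp5 ha']
    have : Nat.xor (Nat.xor (mask B₂) (2 ^ (b : ℕ))) (2 ^ (a : ℕ)) =
        Nat.xor (Nat.xor (mask B₂) (2 ^ (a : ℕ))) (2 ^ (b : ℕ)) :=
      Nat.xor_right_comm _ _ _
    rw [this]
    exact hp3

end Pool.Agent.MatSub
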