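import Mathlib
import Pool.Agent.Lib.MP_6a4d09_co.Check

set_option autoImplicit false
set_option maxRecDepth 100000

namespace Pool.Agent.MatSub

open Set

/-- constraints -/
def cSuf2 : List (ℕ × ℕ) := [(385, 2), (146, 2), (164, 2), (200, 2), (290, 2), (324, 2), (280, 2)]

theorem seSuf2 : SymmExch (fam cSuf2) := by
  have h : okb cSuf2 726838724464839811684459246342334906725853125834228639777343899256432227293478273591565031730164309570628012512409281753724836400097408
    [(7, [1, 2, 4]), (11, [1, 2, 8]), (13, [1, 4, 8]), (14, [2, 4, 8]), (19, [1, 2, 16]), (21, [1, 4, 16]), (22, [2, 4, 16]), (25, [1, 8, 16]), (26, [2, 8, 16]), (28, [4, 8, 16]), (35, [1, 2, 32]), (37, [1, 4, 32]), (38, [2, 4, 32]), (41, [1, 8, 32]), (42, [2, 8, 32]), (44, [4, 8, 32]), (49, [1, 16, 32]), (50, [2, 16, 32]), (52, [4, 16, 32]), (56, [8, 16, 32]), (67, [1, 2, 64]), (69, [1, 4, 64]), (70, [2, 4, 64]), (73, [1, 8, 64]), (74, [2, 8, 64]), (76, [4, 8, 64]), (81, [1, 16, 64]), (82, [2, 16, 64]),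 (84, [4, 16, 64]), (88, [8, 16, 64]), (97, [1, 32, 64]), (98, [2, 32, 64]), (100, [4, 32, 64]), (104, [8, 32, 64]), (112, [16, 32, 64]), (131, [1, 2, 128]), (133, [1, 4, 128]), (134, [2, 4, 128]), (137, [1, 8, 128]), (138, [2, 8, 128]), (140, [4, 8, 128]), (145, [1, 16, 128]), (148, [4, 16, 128]), (152, [8, 16, 128]), (161, [1, 32, 128]), (162, [2, 32, 128]), (168, [8, 32, 128]), (176, [16, 32, 128]), (193, [1, 64, 128]), (194, [2, 64, 128]), (196, [4, 64, 128]), (208, [16, 64, 128]), (224, [32, 64, 128]), (259, [1, 2, 256]), (261, [1, 4, 256]), (262, [2, 4, 256]), (265, [1, 8, 256]), (266, [2, 8, 256]), (268, [4, 8, 256]), (273, [1, 16, 256]), (274, [2, 16, 256]), (276, [4, 16, 256]), (289, [1, 32, 256]), (292, [4, 32, 256]), (296, [8, 32, 256]), (304, [16, 32, 256]), (321, [1, 64, 256]), (322, [2, 64, 256]), (328, [8, 64, 256]), (336, [16, 64, 256]), (352, [32, 64, 256]), (386, [2, 128, 256]), (388, [4, 128, 256]), (392, [8, 128, 256]), (400, [16, 128, 256]), (416, [32,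 128, 256]), (448, [64, 128, 256])] = true := by decide +kernel
  exact symm_of_ok h

/-- constraints -/
def cSuf9 : List (ℕ × ℕ) := []

theorem seSuf9 : SymmExch (fam cSuf9) := by
  have h : okb cSuf9 726838724464839811763263258735123865184586998611241664320355097393768402919119177681353760993282076861050082480640275340731558262237312
    [(7, [1, 2, 4]), (11, [1, 2, 8]), (13, [1, 4, 8]), (14, [2, 4, 8]), (19, [1, 2, 16]), (21, [1, 4, 16]), (22, [2, 4, 16]), (25, [1, 8, 16]), (26, [2, 8, 16]), (28, [4, 8, 16]), (35, [1, 2, 32]), (37, [1, 4, 32]), (38, [2, 4, 32]), (41, [1, 8, 32]), (42, [2, 8, 32]), (44, [4, 8, 32]), (49, [1, 16, 32]), (50, [2, 16, 32]), (52, [4, 16, 32]), (56, [8, 16, 32]), (67, [1, 2, 64]), (69, [1, 4, 64]), (70, [2, 4, 64]), (73, [1, 8, 64]), (74, [2, 8, 64]), (76, [4, 8, 64]), (81, [1, 16, 64]), (82, [2, 16, 64]), (84, [4, 16, 64]), (88, [8, 16, 64]), (97, [1, 32, 64]), (98, [2, 32, 64]), (100, [4, 32, 64]), (104, [8, 32, 64]), (112, [16, 32, 64]),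 (131, [1, 2, 128]), (133, [1, 4, 128]), (134, [2, 4, 128]), (137, [1, 8, 128]), (138, [2, 8, 128]), (140, [4, 8, 128]), (145, [1, 16, 128]), (146, [2, 16, 128]), (148, [4, 16, 128]), (152, [8, 16, 128]), (161, [1, 32, 128]), (162, [2, 32, 128]), (164, [4, 32, 128]), (168, [8, 32, 128]), (176, [16, 32, 128]), (193, [1, 64, 128]), (194, [2, 64, 128]), (196, [4, 64, 128]), (200, [8, 64, 128]), (208, [16, 64, 128]), (224, [32, 64, 128]), (259, [1, 2, 256]), (261, [1, 4, 256]), (262, [2, 4, 256]), (265, [1, 8, 256]), (266, [2, 8, 256]), (268, [4, 8, 256]), (273, [1, 16, 256]), (274, [2, 16, 256]), (276, [4, 16, 256]), (280, [8, 16, 256]), (289, [1, 32, 256]), (290, [2, 32, 256]), (292, [4, 32, 256]), (296, [8, 32, 256]), (304, [16, 32, 256]), (321, [1, 64, 256]), (322, [2, 64, 256]), (324, [4, 64, 256]), (328, [8, 64, 256]), (336, [16, 64, 256]), (352, [32, 64, 256]), (385, [1, 128, 256]), (386, [2, 128, 256]), (388, [4, 128, 256]), (392, [8, 128, 256]), (400, [16, 128, 256]),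 (416, [32, 128, 256]), (448, [64, 128, 256])] = true := by decide +kernel
  exact symm_of_ok h

/-- constraints -/
def cLn5 : List (ℕ × ℕ) := [(347, 1)]

theorem seLn5 : SymmExch (fam cLn5) := by
  have h : okb cLn5 169230328640735740474001986252854027806326591502688406738830314194537294829782674312804194912968881970912368349391491396796416
    [(37, [1, 4, 32]), (38, [2, 4, 32]), (44, [4, 8, 32]), (52, [4, 16, 32]), (100, [4, 32, 64]), (133, [1, 4, 128]), (134, [2, 4, 128]), (140, [4, 8, 128]), (148, [4, 16, 128]), (161, [1, 32, 128]), (162, [2, 32, 128]), (164, [4, 32, 128]), (168, [8, 32, 128]), (176, [16, 32, 128]), (196, [4, 64, 128]), (224, [32, 64, 128]), (292, [4, 32, 256]), (388, [4, 128, 256]), (416, [32, 128, 256])] = true := by decide +kernel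
  exact symm_of_ok h

/-- constraints -/
def cLn7 : List (ℕ × ℕ) := [(221, 1)]

theorem seLn7 : SymmExch (fam cLn7) := by
  have h : okb cLn7 169230328167911666126442230178009813517604489524771021452038909512817862816287375932555900875458380721120122070648271627354112
    [(35, [1, 2, 32]), (38, [2, 4, 32]), (42, [2, 8, 32]), (50, [2, 16, 32]), (98, [2, 32, 64]), (162, [2, 32, 128]), (259, [1, 2, 256]), (262, [2, 4, 256]), (266, [2, 8, 256]), (274, [2, 16, 256]), (289, [1, 32, 256]), (290, [2, 32, 256]), (292, [4, 32, 256]), (296, [8, 32, 256]), (304, [16, 32, 256]), (322, [2, 64, 256]), (352, [32, 64, 256]), (386, [2, 128, 256]), (416, [32, 128, 256])] = true := by decide +kernel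
  exact symm_of_ok h

/-- constraints -/
def cLn9 : List (ℕ × ℕ) := [(231, 1)]

theorem seLn9 : SymmExch (fam cLn9) := by
  have h : okb cLn9 2592336791673185576474793465368677048084881298133418976535899608527646629888686627141493380148305915236174308374894084096
    [(25, [1, 8, 16]), (26, [2, 8, 16]), (28, [4, 8, 16]), (56, [8, 16, 32]), (88, [8, 16, 64]), (152, [8, 16, 128]), (265, [1, 8, 256]), (266, [2, 8, 256]), (268, [4, 8, 256]), (273, [1, 16, 256]), (274, [2, 16, 256]), (276, [4, 16, 256]), (280, [8, 16, 256]), (296, [8, 32, 256]), (304, [16, 32, 256]), (328, [8, 64, 256]), (336, [16, 64, 256]), (392, [8, 128, 256]), (400, [16, 128, 256])] = true := by decide +kernel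
  exact symm_of_ok h

/-- constraints -/
def cQ1 : List (ℕ × ℕ) := [(496, 1)]

theorem seQ1 : SymmExch (fam cQ1) := by
  have h : okb cQ1 664183423865245696949603170009833839448308491698772778356860429141649768372004992
    [(7, [1, 2, 4]), (11, [1, 2, 8]), (13, [1, 4, 8]), (14, [2, 4, 8]), (19, [1, 2, 16]), (21, [1, 4, 16]), (22, [2, 4, 16]), (25, [1, 8, 16]), (26, [2, 8, 16]), (28, [4, 8, 16]), (35, [1, 2, 32]), (37, [1, 4, 32]), (38, [2, 4, 32]), (41, [1, 8, 32]), (42, [2, 8, 32]), (44, [4, 8, 32]), (67, [1, 2, 64]), (69, [1, 4, 64]), (70, [2, 4, 64]), (73, [1, 8, 64]), (74, [2, 8, 64]), (76, [4, 8, 64]), (131, [1, 2, 128]), (133, [1, 4, 128]), (134, [2, 4, 128]), (137, [1, 8, 128]), (138, [2, 8, 128]), (140, [4, 8, 128]), (259, [1, 2, 256]), (261, [1, 4, 256]), (262, [2, 4, 256]), (265, [1, 8, 256]), (266, [2, 8, 256]), (268, [4, 8, 256])] = true := by decide +kernel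
  exact symm_of_ok h

/-- constraints -/
def cR1 : List (ℕ × ℕ) := [(12, 1), (14, 2), (496, 1)]

theorem seR1 : SymmExch (fam cR1) := by
  have h : okb cR1 189899026349198560494656415414248168879920837933400864104820624789453559994779776
    [(7, [1, 2, 4]), (11, [1, 2, 8]), (19, [1, 2, 16]), (21, [1, 4, 16]), (22, [2, 4, 16]), (25, [1, 8, 16]), (26, [2, 8, 16]), (35, [1, 2, 32]), (37, [1, 4, 32]), (38, [2, 4, 32]), (41, [1, 8, 32]), (42, [2, 8, 32]), (67, [1, 2, 64]), (69, [1, 4, 64]), (70, [2, 4, 64]), (73, [1, 8, 64]), (74, [2, 8, 64]), (131, [1, 2, 128]), (133, [1, 4, 128]), (134, [2, 4, 128]), (137, [1, 8, 128]), (138, [2, 8, 128]), (259, [1, 2, 256]), (261, [1, 4, 256]), (262, [2, 4, 256]), (265, [1, 8, 256]), (266, [2, 8, 256])] = true := by decide +kernel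
  exact symm_of_ok h

/-- constraints -/
def cR2 : List (ℕ × ℕ) := [(499, 2), (14, 2), (496, 1)]

theorem seR2 : SymmExch (fam cR2) := by
  have h : okb cR2 663257087151347167386214602129764336185479609562512286336836913898774385152501888
    [(7, [1, 2, 4]), (11, [1, 2, 8]), (13, [1, 4, 8]), (21, [1, 4, 16]), (22, [2, 4, 16]), (25, [1, 8, 16]), (26, [2, 8, 16]), (28, [4, 8, 16]), (37, [1, 4, 32]), (38, [2, 4, 32]), (41, [1, 8, 32]), (42, [2, 8, 32]), (44, [4, 8, 32]), (69, [1, 4, 64]), (70, [2, 4, 64]), (73, [1, 8, 64]), (74, [2, 8, 64]), (76, [4, 8, 64]), (133, [1, 4, 128]), (134, [2, 4, 128]), (137, [1, 8, 128]), (138, [2, 8, 128]), (140, [4, 8, 128]), (261, [1, 4, 256]), (262, [2, 4, 256]), (265, [1, 8, 256]), (266, [2, 8, 256]), (268, [4, 8, 256])] = true := by decide +kernel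
  exact symm_of_ok h

end Pool.Agent.MatSub
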