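import Mathlib
import Pool.Agent.Lib.MP_6a4d09_co.Check

set_option autoImplicit false
set_option maxRecDepth 100000

namespace Pool.Agent.MatSub

open Set

/-- constraints -/
def cSuf3 : List (ℕ × ℕ) := [(146, 2), (164, 2), (200, 2), (290, 2), (324, 2), (280, 2)]

theorem seSuf3 : SymmExch (fam cSuf3) := by
  have h : okb cSuf3 726838724464839811763263258735123865150411206034515867387503377797363120629374860400056475273158730793456545022179113035338092380711040
    [(7, [1, 2, 4]), (11, [1, 2, 8]), (13, [1, 4, 8]), (14, [2, 4, 8]), (19, [1, 2, 16]), (21, [1, 4, 16]), (22, [2, 4, 16]), (25, [1, 8, 16]), (26, [2, 8, 16]), (28, [4, 8, 16]), (35, [1, 2, 32]), (37, [1, 4, 32]), (38, [2, 4, 32]), (41, [1, 8, 32]), (42, [2, 8, 32]), (44, [4, 8, 32]), (49, [1, 16, 32]), (50, [2, 16, 32]), (52, [4, 16, 32]), (56, [8, 16, 32]), (67, [1, 2, 64]), (69, [1, 4, 64]), (70, [2, 4, 64]), (73, [1, 8, 64]), (74, [2, 8, 64]), (76, [4, 8, 64]), (81, [1, 16, 64]), (82, [2, 16, 64]), (84, [4, 16, 64]), (88,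 [8, 16, 64]), (97, [1, 32, 64]), (98, [2, 32, 64]), (100, [4, 32, 64]), (104, [8, 32, 64]), (112, [16, 32, 64]), (131, [1, 2, 128]), (133, [1, 4, 128]), (134, [2, 4, 128]), (137, [1, 8, 128]), (138, [2, 8, 128]), (140, [4, 8, 128]), (145, [1, 16, 128]), (148, [4, 16, 128]), (152, [8, 16, 128]), (161, [1, 32, 128]), (162, [2, 32, 128]), (168, [8, 32, 128]), (176, [16, 32, 128]), (193, [1, 64, 128]), (194, [2, 64, 128]), (196, [4, 64, 128]), (208, [16, 64, 128]), (224, [32, 64, 128]), (259, [1, 2, 256]), (261, [1, 4, 256]), (262, [2, 4, 256]), (265, [1, 8, 256]), (266, [2, 8, 256]), (268, [4, 8, 256]), (273, [1, 16, 256]), (274, [2, 16, 256]), (276, [4, 16, 256]), (289, [1, 32, 256]), (292, [4, 32, 256]), (296, [8, 32, 256]), (304, [16, 32, 256]), (321, [1, 64, 256]), (322, [2, 64, 256]), (328, [8, 64, 256]), (336, [16, 64, 256]), (352, [32, 64, 256]), (385, [1, 128, 256]), (386, [2, 128, 256]), (388, [4, 128, 256]), (392, [8, 128, 256]), (400, [16, 128, 256]), (416, [32, 128, 256]), (448,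 [64, 128, 256])] = true := by decide +kernel
  exact symm_of_ok h

/-- constraints -/
def cSuf8 : List (ℕ × ℕ) := [(280, 2)]

theorem seSuf8 : SymmExch (fam cSuf8) := by
  have h : okb cSuf8 726838724464839811763263258735123865184586998611239721651462871664697483457212354162447118586443024721528830668230536436446353053739136
    [(7, [1, 2, 4]), (11, [1, 2, 8]), (13, [1, 4, 8]), (14, [2, 4, 8]), (19, [1, 2, 16]), (21, [1, 4, 16]), (22, [2, 4, 16]), (25, [1, 8, 16]), (26, [2, 8, 16]), (28, [4, 8, 16]), (35, [1, 2, 32]), (37, [1, 4, 32]), (38, [2, 4, 32]), (41, [1, 8, 32]), (42, [2, 8, 32]), (44, [4, 8, 32]), (49, [1, 16, 32]), (50, [2, 16, 32]), (52, [4, 16, 32]), (56, [8, 16, 32]), (67, [1, 2, 64]), (69, [1, 4, 64]), (70, [2, 4, 64]), (73, [1, 8, 64]), (74, [2, 8, 64]), (76, [4, 8, 64]), (81, [1, 16, 64]), (82, [2, 16, 64]), (84, [4, 16, 64]), (88, [8, 16, 64]), (97, [1, 32, 64]), (98, [2, 32, 64]), (100, [4, 32, 64]), (104, [8, 32, 64]), (112, [16, 32, 64]), (131, [1, 2, 128]), (133,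 [1, 4, 128]), (134, [2, 4, 128]), (137, [1, 8, 128]), (138, [2, 8, 128]), (140, [4, 8, 128]), (145, [1, 16, 128]), (146, [2, 16, 128]), (148, [4, 16, 128]), (152, [8, 16, 128]), (161, [1, 32, 128]), (162, [2, 32, 128]), (164, [4, 32, 128]), (168, [8, 32, 128]), (176, [16, 32, 128]), (193, [1, 64, 128]), (194, [2, 64, 128]), (196, [4, 64, 128]), (200, [8, 64, 128]), (208, [16, 64, 128]), (224, [32, 64, 128]), (259, [1, 2, 256]), (261, [1, 4, 256]), (262, [2, 4, 256]), (265, [1, 8, 256]), (266, [2, 8, 256]), (268, [4, 8, 256]), (273, [1, 16, 256]), (274, [2, 16, 256]), (276, [4, 16, 256]), (289, [1, 32, 256]), (290, [2, 32, 256]), (292, [4, 32, 256]), (296, [8, 32, 256]), (304, [16, 32, 256]), (321, [1, 64, 256]), (322, [2, 64, 256]), (324, [4, 64, 256]), (328, [8, 64, 256]), (336, [16, 64, 256]), (352, [32, 64, 256]), (385, [1, 128, 256]), (386, [2, 128, 256]), (388, [4, 128, 256]), (392, [8, 128, 256]), (400, [16, 128, 256]), (416, [32, 128, 256]), (448, [64, 128, 256])] = true := by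 decide +kernel
  exact symm_of_ok h

/-- constraints -/
def cLn2 : List (ℕ × ℕ) := [(398, 1)]

theorem seLn2 : SymmExch (fam cLn2) := by
  have h : okb cLn2 9174134452278678824618546587838600796269852751418320537047106514489913369324799043947266337433591948509184
    [(19, [1, 2, 16]), (21, [1, 4, 16]), (25, [1, 8, 16]), (35, [1, 2, 32]), (37, [1, 4, 32]), (41, [1, 8, 32]), (49, [1, 16, 32]), (50, [2, 16, 32]), (52, [4, 16, 32]), (56, [8, 16, 32]), (67, [1, 2, 64]), (69, [1, 4, 64]), (73, [1, 8, 64]), (81, [1, 16, 64]), (82, [2, 16, 64]), (84, [4, 16, 64]), (88, [8, 16, 64]), (97, [1, 32, 64]), (98, [2, 32, 64]), (100, [4, 32, 64]), (104, [8, 32, 64]), (112, [16, 32, 64]), (145, [1, 16, 128]), (161, [1, 32, 128]), (176, [16, 32, 128]), (193, [1, 64, 128]), (208, [16, 64, 128]), (224, [32, 64, 128]), (273, [1, 16, 256]), (289, [1, 32, 256]), (304, [16, 32, 256]), (321, [1, 64, 256]), (336, [16, 64, 256]), (352, [32, 64, 256])] = true := by decide +kernel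
  exact symm_of_ok h

/-- constraints -/
def cLn3 : List (ℕ × ℕ) := [(126, 1)]

theorem seLn3 : SymmExch (fam cLn3) := by
  have h : okb cLn3 726838724464839811763263258725949730147047871808025108516934108199573159210246848622544522092320082980932329075401006416511201057964032
    [(131, [1, 2, 128]), (133, [1, 4, 128]), (137, [1, 8, 128]), (145, [1, 16, 128]), (161, [1, 32, 128]), (193, [1, 64, 128]), (259, [1, 2, 256]), (261, [1, 4, 256]), (265, [1, 8, 256]), (273, [1, 16, 256]), (289, [1, 32, 256]), (321, [1, 64, 256]), (385, [1, 128, 256]), (386, [2, 128, 256]), (388, [4, 128, 256]), (392, [8, 128, 256]), (400, [16, 128, 256]), (416, [32, 128, 256]), (448, [64, 128, 256])] = true := by decide +kernel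
  exact symm_of_ok h

/-- constraints -/
def cLn4 : List (ℕ × ℕ) := [(365, 1)]

theorem seLn4 : SymmExch (fam cLn4) := by
  have h : okb cLn4 2582407486111694167572768288163412448815280313227332391350859143256215117700987235463002448907472234807220774715181760512
    [(19, [1, 2, 16]), (22, [2, 4, 16]), (26, [2, 8, 16]), (50, [2, 16, 32]), (82, [2, 16, 64]), (131, [1, 2, 128]), (134, [2, 4, 128]), (138, [2, 8, 128]), (145, [1, 16, 128]), (146, [2, 16, 128]), (148, [4, 16, 128]), (152, [8, 16, 128]), (162, [2, 32, 128]), (176, [16, 32, 128]), (194, [2, 64, 128]), (208, [16, 64, 128]), (274, [2, 16, 256]), (386, [2, 128, 256]), (400, [16, 128, 256])] = true := by decide +kernel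
  exact symm_of_ok h

/-- constraints -/
def cLn6 : List (ℕ × ℕ) := [(311, 1)]

theorem seLn6 : SymmExch (fam cLn6) := by
  have h : okb cLn6 726838724295606900636237394164991213243888307519836175475029009199225936806241716789306758259731750676384603006169050174807063444586496
    [(73, [1, 8, 64]), (74, [2, 8, 64]), (76, [4, 8, 64]), (88, [8, 16, 64]), (104, [8, 32, 64]), (137, [1, 8, 128]), (138, [2, 8, 128]), (140, [4, 8, 128]), (152, [8, 16, 128]), (168, [8, 32, 128]), (193, [1, 64, 128]), (194, [2, 64, 128]), (196, [4, 64, 128]), (200, [8, 64, 128]), (208, [16, 64, 128]), (224, [32, 64, 128]), (328, [8, 64, 256]), (392, [8, 128, 256]), (448, [64, 128, 256])] = true := by decide +kernel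
  exact symm_of_ok h

/-- constraints -/
def cLn8 : List (ℕ × ℕ) := [(187, 1)]

theorem seLn8 : SymmExch (fam cLn8) := by
  have h : okb cLn8 726838724295606891179755907039490336791917070442792621174695733579558104872067489365543215886177156646219090098432422186502119139311616
    [(69, [1, 4, 64]), (70, [2, 4, 64]), (76, [4, 8, 64]), (84, [4, 16, 64]), (100, [4, 32, 64]), (196, [4, 64, 128]), (261, [1, 4, 256]), (262, [2, 4, 256]), (268, [4, 8, 256]), (276, [4, 16, 256]), (292, [4, 32, 256]), (321, [1, 64, 256]), (322, [2, 64, 256]), (324, [4, 64, 256]), (328, [8, 64, 256]), (336, [16, 64, 256]), (352, [32, 64, 256]), (388, [4, 128, 256]), (448, [64, 128, 256])] = true := by decide +kernel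
  exact symm_of_ok h

/-- constraints -/
def cQp : List (ℕ × ℕ) := [(14, 2), (496, 1)]

theorem seQp : SymmExch (fam cQp) := by
  have h : okb cQp 664183423865245696949603170009833839448308491698772778356860429141649768371988608
    [(7, [1, 2, 4]), (11, [1, 2, 8]), (13, [1, 4, 8]), (19, [1, 2, 16]), (21, [1, 4, 16]), (22, [2, 4, 16]), (25, [1, 8, 16]), (26, [2, 8, 16]), (28, [4, 8, 16]), (35, [1, 2, 32]), (37, [1, 4, 32]), (38, [2, 4, 32]), (41, [1, 8, 32]), (42, [2, 8, 32]), (44, [4, 8, 32]), (67, [1, 2, 64]), (69, [1, 4, 64]), (70, [2, 4, 64]), (73, [1, 8, 64]), (74, [2, 8, 64]), (76, [4, 8, 64]), (131, [1, 2, 128]), (133, [1, 4, 128]), (134, [2, 4, 128]), (137, [1, 8, 128]), (138, [2, 8, 128]), (140, [4, 8, 128]), (259, [1, 2, 256]), (261, [1, 4, 256]), (262, [2, 4, 256]), (265, [1, 8, 256]), (266, [2, 8, 256]), (268, [4, 8, 256])] = true := by decide +kernel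
  exact symm_of_ok h

/-- constraints -/
def cQpp : List (ℕ × ℕ) := [(497, 1)]

theorem seQpp : SymmExch (fam cQpp) := by
  have h : okb cQpp 600266190606247157075791986285038114313115624296798828975237877383248326227421312
    [(7, [1, 2, 4]), (11, [1, 2, 8]), (13, [1, 4, 8]), (14, [2, 4, 8]), (22, [2, 4, 16]), (26, [2, 8, 16]), (28, [4, 8, 16]), (38, [2, 4, 32]), (42, [2, 8, 32]), (44, [4, 8, 32]), (70, [2, 4, 64]), (74, [2, 8, 64]), (76, [4, 8, 64]), (134, [2, 4, 128]), (138, [2, 8, 128]), (140, [4, 8, 128]), (262, [2, 4, 256]), (266, [2, 8, 256]), (268, [4, 8, 256])] = true := by decide +kernel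
  exact symm_of_ok h

end Pool.Agent.MatSub
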