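import Mathlib
import Pool.Agent.Lib.MP_6a4d09_co.Check

set_option autoImplicit false
set_option maxRecDepth 100000

namespace Pool.Agent.MatSub

open Set

/-- constraints -/
def cSuf0 : List (ℕ × ℕ) := [(15, 2), (113, 2), (385, 2), (146, 2), (164, 2), (200, 2), (290, 2), (324, 2), (280, 2)]

theorem seSuf0 : SymmExch (fam cSuf0) := by
  have h : okb cSuf0 726838724464839811684459246342334906725853125834228639777343899256432227293478273591565031730164309565435557195131573956726944680116224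
    [(19, [1, 2, 16]), (21, [1, 4, 16]), (22, [2, 4, 16]), (25, [1, 8, 16]), (26, [2, 8, 16]), (28, [4, 8, 16]), (35, [1, 2, 32]), (37, [1, 4, 32]), (38, [2, 4, 32]), (41, [1, 8, 32]), (42, [2, 8, 32]), (44, [4, 8, 32]), (50, [2, 16, 32]), (52, [4, 16, 32]), (56, [8, 16, 32]), (67, [1, 2, 64]), (69, [1, 4, 64]), (70, [2, 4, 64]), (73, [1, 8, 64]), (74, [2, 8, 64]), (76, [4, 8, 64]), (82, [2, 16, 64]), (84, [4, 16, 64]), (88, [8, 16, 64]), (98, [2, 32, 64]), (100, [4, 32, 64]), (104, [8, 32, 64]), (131, [1, 2, 128]), (133, [1, 4, 128]), (134, [2, 4, 128]), (137, [1, 8, 128]), (138, [2, 8, 128]), (140, [4, 8, 128]), (145, [1, 16, 128]), (148, [4, 16, 128]), (152, [8, 16, 128]), (161, [1, 32, 128]), (162, [2, 32, 128]), (168, [8, 32, 128]), (176, [16, 32, 128]), (193, [1, 64, 128]), (194, [2, 64, 128]), (196, [4, 64, 128]), (208, [16, 64, 128]), (224, [32, 64, 128]), (259, [1, 2, 256]), (261, [1, 4, 256]), (262, [2, 4, 256]), (265, [1, 8, 256]), (266, [2, 8, 256]),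 (268, [4, 8, 256]), (273, [1, 16, 256]), (274, [2, 16, 256]), (276, [4, 16, 256]), (289, [1, 32, 256]), (292, [4, 32, 256]), (296, [8, 32, 256]), (304, [16, 32, 256]), (321, [1, 64, 256]), (322, [2, 64, 256]), (328, [8, 64, 256]), (336, [16, 64, 256]), (352, [32, 64, 256]), (386, [2, 128, 256]), (388, [4, 128, 256]), (392, [8, 128, 256]), (400, [16, 128, 256]), (416, [32, 128, 256]), (448, [64, 128, 256])] = true := by decide +kernel
  exact symm_of_ok h

/-- constraints -/
def cSuf4 : List (ℕ × ℕ) := [(164, 2), (200, 2), (290, 2), (324, 2), (280, 2)]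

theorem seSuf4 : SymmExch (fam cSuf4) := by
  have h : okb cSuf4 726838724464839811763263258735123865150411206034515867387503377797363120629374860400056475362361711587579037588321986125931538404632704
    [(7, [1, 2, 4]), (11, [1, 2, 8]), (13, [1, 4, 8]), (14, [2, 4, 8]), (19, [1, 2, 16]), (21, [1, 4, 16]), (22, [2, 4, 16]), (25, [1, 8, 16]), (26, [2, 8, 16]), (28, [4, 8, 16]), (35, [1, 2, 32]), (37, [1, 4, 32]), (38, [2, 4, 32]), (41, [1, 8, 32]), (42, [2, 8, 32]), (44, [4, 8, 32]), (49, [1, 16, 32]), (50, [2, 16, 32]), (52, [4, 16, 32]), (56, [8, 16, 32]), (67, [1, 2, 64]), (69, [1, 4, 64]), (70, [2, 4, 64]), (73, [1, 8, 64]), (74, [2, 8, 64]), (76, [4, 8, 64]), (81, [1, 16, 64]), (82, [2, 16, 64]), (84, [4, 16, 64]), (88, [8, 16, 64]), (97, [1, 32, 64]), (98, [2, 32, 64]), (100, [4, 32, 64]), (104, [8, 32, 64]), (112, [16, 32, 64]), (131, [1, 2, 128]), (133, [1, 4, 128]), (134, [2, 4, 128]), (137, [1, 8, 128]), (138, [2, 8, 128]), (140, [4, 8, 128]), (145,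 [1, 16, 128]), (146, [2, 16, 128]), (148, [4, 16, 128]), (152, [8, 16, 128]), (161, [1, 32, 128]), (162, [2, 32, 128]), (168, [8, 32, 128]), (176, [16, 32, 128]), (193, [1, 64, 128]), (194, [2, 64, 128]), (196, [4, 64, 128]), (208, [16, 64, 128]), (224, [32, 64, 128]), (259, [1, 2, 256]), (261, [1, 4, 256]), (262, [2, 4, 256]), (265, [1, 8, 256]), (266, [2, 8, 256]), (268, [4, 8, 256]), (273, [1, 16, 256]), (274, [2, 16, 256]), (276, [4, 16, 256]), (289, [1, 32, 256]), (292, [4, 32, 256]), (296, [8, 32, 256]), (304, [16, 32, 256]), (321, [1, 64, 256]), (322, [2, 64, 256]), (328, [8, 64, 256]), (336, [16, 64, 256]), (352, [32, 64, 256]), (385, [1, 128, 256]), (386, [2, 128, 256]), (388, [4, 128, 256]), (392, [8, 128, 256]), (400, [16, 128, 256]), (416, [32, 128, 256]), (448, [64, 128, 256])] = true := by decide +kernel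
  exact symm_of_ok h

/-- constraints -/
def cSuf7 : List (ℕ × ℕ) := [(324, 2), (280, 2)]

theorem seSuf7 : SymmExch (fam cSuf7) := by
  have h : okb cSuf7 726838724464839811763263258735123865150411206036505160333142524365984649623569081804740674267290358996373315055740287636078959662753920
    [(7, [1, 2, 4]), (11, [1, 2, 8]), (13, [1, 4, 8]), (14, [2, 4, 8]), (19, [1, 2, 16]), (21, [1, 4, 16]), (22, [2, 4, 16]), (25, [1, 8, 16]), (26, [2, 8, 16]), (28, [4, 8, 16]), (35, [1, 2, 32]), (37, [1, 4, 32]), (38, [2, 4, 32]), (41, [1, 8, 32]), (42, [2, 8, 32]), (44, [4, 8, 32]), (49, [1, 16, 32]), (50, [2, 16, 32]), (52, [4, 16, 32]), (56, [8, 16, 32]), (67, [1, 2, 64]), (69, [1, 4, 64]), (70, [2, 4, 64]), (73, [1, 8, 64]), (74, [2, 8, 64]), (76, [4, 8, 64]), (81, [1, 16, 64]), (82, [2, 16, 64]), (84, [4, 16, 64]), (88, [8, 16, 64]), (97, [1, 32, 64]), (98, [2, 32, 64]), (100, [4, 32, 64]), (104, [8, 32, 64]), (112, [16, 32, 64]), (131, [1, 2, 128]), (133, [1, 4,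 128]), (134, [2, 4, 128]), (137, [1, 8, 128]), (138, [2, 8, 128]), (140, [4, 8, 128]), (145, [1, 16, 128]), (146, [2, 16, 128]), (148, [4, 16, 128]), (152, [8, 16, 128]), (161, [1, 32, 128]), (162, [2, 32, 128]), (164, [4, 32, 128]), (168, [8, 32, 128]), (176, [16, 32, 128]), (193, [1, 64, 128]), (194, [2, 64, 128]), (196, [4, 64, 128]), (200, [8, 64, 128]), (208, [16, 64, 128]), (224, [32, 64, 128]), (259, [1, 2, 256]), (261, [1, 4, 256]), (262, [2, 4, 256]), (265, [1, 8, 256]), (266, [2, 8, 256]), (268, [4, 8, 256]), (273, [1, 16, 256]), (274, [2, 16, 256]), (276, [4, 16, 256]), (289, [1, 32, 256]), (290, [2, 32, 256]), (292, [4, 32, 256]), (296, [8, 32, 256]), (304, [16, 32, 256]), (321, [1, 64, 256]), (322, [2, 64, 256]), (328, [8, 64, 256]), (336, [16, 64, 256]), (352, [32, 64, 256]), (385, [1, 128, 256]), (386, [2, 128, 256]), (388, [4, 128, 256]), (392, [8, 128, 256]), (400, [16, 128, 256]), (416, [32, 128, 256]), (448, [64, 128, 256])] = true := by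 decide +kernel
  exact symm_of_ok h

end Pool.Agent.MatSub
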