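import Mathlib
import Pool.Agent.Lib.MP_6a4d09_co.Complex
import Pool.Agent.Lib.MP_6a4d09_co.DataA
import Pool.Agent.Lib.MP_6a4d09_co.DataB
import Pool.Agent.Lib.MP_6a4d09_co.DataC
import Pool.Agent.Lib.MP_6a4d09_co.DataD

set_option autoImplicit false

namespace Pool.Agent.MatSub

open Set

/-! ### Regions cut out by the constraints -/

lemma fam_nil : poly (fam []) = hypersimplex 3 9 := by
  unfold hypersimplex fam
  congr 1
  ext B
  simp

/-- the region of the hypersimplex satisfying the constraints -/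
def reg (cs : List (ℕ × ℕ)) : Set (Fin 9 → ℝ) :=
  {x | x ∈ hypersimplex 3 9 ∧ ∀ c ∈ cs, sm (fs c.1) x ≤ (c.2 : ℝ)}

lemma reg_nil : reg [] = poly (fam []) := by
  rw [fam_nil]
  unfold reg
  ext x
  simp

lemma reg_cons {m r : ℕ} {cs : List (ℕ × ℕ)} (hse : SymmExch (fam cs)) (h : reg cs = poly (fam cs)) :
    reg ((m, r) :: cs) = poly (fam ((m, r) :: cs)) := by
  have h1 : reg ((m, r) :: cs) = {x | x ∈ poly (fam cs) ∧ sm (fs m) x ≤ (r : ℝ)} := by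
    rw [← h]
    ext x
    unfold reg
    simp only [mem_ofPred_eq, List.forall_mem_cons]
    tauto
  have h2 : fam ((m, r) :: cs) = {B | B ∈ fam cs ∧ (fs m ∩ B).card ≤ r} := by
    ext B
    unfold fam
    simp only [mem_ofPred_eq, List.forall_mem_cons]
    tauto
  rw [h1, h2]
  exact cut (fun B hB => hB.1) hse (fs m) r

lemma rgSuf9 : reg cSuf9 = poly (fam cSuf9) := reg_nil

lemma rgSuf8 : reg cSuf8 = poly (fam cSuf8) := reg_cons seSuf9 rgSuf9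

lemma rgSuf7 : reg cSuf7 = poly (fam cSuf7) := reg_cons seSuf8 rgSuf8

lemma rgSuf6 : reg cSuf6 = poly (fam cSuf6) := reg_cons seSuf7 rgSuf7

lemma rgSuf5 : reg cSuf5 = poly (fam cSuf5) := reg_cons seSuf6 rgSuf6

lemma rgSuf4 : reg cSuf4 = poly (fam cSuf4) := reg_cons seSuf5 rgSuf5

lemma rgSuf3 : reg cSuf3 = poly (fam cSuf3) := reg_cons seSuf4 rgSuf4

lemma rgSuf2 : reg cSuf2 = poly (fam cSuf2) := reg_cons seSuf3 rgSuf3

lemma rgSuf1 : reg cSuf1 = poly (fam cSuf1) := reg_cons seSuf2 rgSuf2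

lemma rgSuf0 : reg cSuf0 = poly (fam cSuf0) := reg_cons seSuf1 rgSuf1

lemma rgLn2 : reg cLn2 = poly (fam cLn2) := reg_cons seSuf9 rgSuf9

lemma rgLn3 : reg cLn3 = poly (fam cLn3) := reg_cons seSuf9 rgSuf9

lemma rgLn4 : reg cLn4 = poly (fam cLn4) := reg_cons seSuf9 rgSuf9

lemma rgLn5 : reg cLn5 = poly (fam cLn5) := reg_cons seSuf9 rgSuf9

lemma rgLn6 : reg cLn6 = poly (fam cLn6) := reg_cons seSuf9 rgSuf9

lemma rgLn7 : reg cLn7 = poly (fam cLn7) := reg_cons seSuf9 rgSuf9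

lemma rgLn8 : reg cLn8 = poly (fam cLn8) := reg_cons seSuf9 rgSuf9

lemma rgLn9 : reg cLn9 = poly (fam cLn9) := reg_cons seSuf9 rgSuf9

lemma rgQ1 : reg cQ1 = poly (fam cQ1) := reg_cons seSuf9 rgSuf9

lemma rgQpp : reg cQpp = poly (fam cQpp) := reg_cons seSuf9 rgSuf9

lemma rgQp : reg cQp = poly (fam cQp) := reg_cons seQ1 rgQ1

lemma rgR1 : reg cR1 = poly (fam cR1) := reg_cons seQp rgQp

lemma rgR2 : reg cR2 = poly (fam cR2) := reg_cons seQp rgQp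

lemma sm15 (x : Fin 9 → ℝ) : sm (fs 15) x = x 0 + x 1 + x 2 + x 3 := by
  have h : fs 15 = {0, 1, 2, 3} := by decide
  rw [h]
  simp only [sm]
  simp [add_assoc]

lemma sm113 (x : Fin 9 → ℝ) : sm (fs 113) x = x 0 + x 4 + x 5 + x 6 := by
  have h : fs 113 = {0, 4, 5, 6} := by decide
  rw [h]
  simp only [sm]
  simp [add_assoc]

lemma sm385 (x : Fin 9 → ℝ) : sm (fs 385) x = x 0 + x 7 + x 8 := by
  have h : fs 385 = {0, 7, 8} := by decide
  rw [h]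
  simp only [sm]
  simp [add_assoc]

lemma sm146 (x : Fin 9 → ℝ) : sm (fs 146) x = x 1 + x 4 + x 7 := by
  have h : fs 146 = {1, 4, 7} := by decide
  rw [h]
  simp only [sm]
  simp [add_assoc]

lemma sm164 (x : Fin 9 → ℝ) : sm (fs 164) x = x 2 + x 5 + x 7 := by
  have h : fs 164 = {2, 5, 7} := by decide
  rw [h]
  simp only [sm]
  simp [add_assoc]

lemma sm200 (x : Fin 9 → ℝ) : sm (fs 200) x = x 3 + x 6 + x 7 := by
  have h : fs 200 = {3, 6, 7} := by decide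
  rw [h]
  simp only [sm]
  simp [add_assoc]

lemma sm290 (x : Fin 9 → ℝ) : sm (fs 290) x = x 1 + x 5 + x 8 := by
  have h : fs 290 = {1, 5, 8} := by decide
  rw [h]
  simp only [sm]
  simp [add_assoc]

lemma sm324 (x : Fin 9 → ℝ) : sm (fs 324) x = x 2 + x 6 + x 8 := by
  have h : fs 324 = {2, 6, 8} := by decide
  rw [h]
  simp only [sm]
  simp [add_assoc]

lemma sm280 (x : Fin 9 → ℝ) : sm (fs 280) x = x 3 + x 4 + x 8 := by
  have h : fs 280 = {3, 4, 8} := by decide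
  rw [h]
  simp only [sm]
  simp [add_assoc]

lemma sm496 (x : Fin 9 → ℝ) : sm (fs 496) x = x 4 + x 5 + x 6 + x 7 + x 8 := by
  have h : fs 496 = {4, 5, 6, 7, 8} := by decide
  rw [h]
  simp only [sm]
  simp [add_assoc]

lemma sm398 (x : Fin 9 → ℝ) : sm (fs 398) x = x 1 + x 2 + x 3 + x 7 + x 8 := by
  have h : fs 398 = {1, 2, 3, 7, 8} := by decide
  rw [h]
  simp only [sm]
  simp [add_assoc]

lemma sm126 (x : Fin 9 → ℝ) : sm (fs 126) x = x 1 + x 2 + x 3 + x 4 + x 5 + x 6 := by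
  have h : fs 126 = {1, 2, 3, 4, 5, 6} := by decide
  rw [h]
  simp only [sm]
  simp [add_assoc]

lemma sm365 (x : Fin 9 → ℝ) : sm (fs 365) x = x 0 + x 2 + x 3 + x 5 + x 6 + x 8 := by
  have h : fs 365 = {0, 2, 3, 5, 6, 8} := by decide
  rw [h]
  simp only [sm]
  simp [add_assoc]

lemma sm347 (x : Fin 9 → ℝ) : sm (fs 347) x = x 0 + x 1 + x 3 + x 4 + x 6 + x 8 := by
  have h : fs 347 = {0, 1, 3, 4, 6, 8} := by decide
  rw [h]
  simp only [sm]
  simp [add_assoc]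

lemma sm311 (x : Fin 9 → ℝ) : sm (fs 311) x = x 0 + x 1 + x 2 + x 4 + x 5 + x 8 := by
  have h : fs 311 = {0, 1, 2, 4, 5, 8} := by decide
  rw [h]
  simp only [sm]
  simp [add_assoc]

lemma sm221 (x : Fin 9 → ℝ) : sm (fs 221) x = x 0 + x 2 + x 3 + x 4 + x 6 + x 7 := by
  have h : fs 221 = {0, 2, 3, 4, 6, 7} := by decide
  rw [h]
  simp only [sm]
  simp [add_assoc]

lemma sm187 (x : Fin 9 → ℝ) : sm (fs 187) x = x 0 + x 1 + x 3 + x 4 + x 5 + x 7 := by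
  have h : fs 187 = {0, 1, 3, 4, 5, 7} := by decide
  rw [h]
  simp only [sm]
  simp [add_assoc]

lemma sm231 (x : Fin 9 → ℝ) : sm (fs 231) x = x 0 + x 1 + x 2 + x 5 + x 6 + x 7 := by
  have h : fs 231 = {0, 1, 2, 5, 6, 7} := by decide
  rw [h]
  simp only [sm]
  simp [add_assoc]

lemma sm14 (x : Fin 9 → ℝ) : sm (fs 14) x = x 1 + x 2 + x 3 := by
  have h : fs 14 = {1, 2, 3} := by decide
  rw [h]
  simp only [sm]
  simp [add_assoc]

lemma sm497 (x : Fin 9 → ℝ) : sm (fs 497) x = x 0 + x 4 + x 5 + x 6 + x 7 + x 8 := by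
  have h : fs 497 = {0, 4, 5, 6, 7, 8} := by decide
  rw [h]
  simp only [sm]
  simp [add_assoc]

lemma sm12 (x : Fin 9 → ℝ) : sm (fs 12) x = x 2 + x 3 := by
  have h : fs 12 = {2, 3} := by decide
  rw [h]
  simp only [sm]
  simp

lemma sm499 (x : Fin 9 → ℝ) : sm (fs 499) x = x 0 + x 1 + x 4 + x 5 + x 6 + x 7 + x 8 := by
  have h : fs 499 = {0, 1, 4, 5, 6, 7, 8} := by decide
  rw [h]
  simp only [sm]
  simp [add_assoc]


/-- coordinates of a point of the hypersimplex -/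
lemma hyp_sum {x : Fin 9 → ℝ} (hx : x ∈ hypersimplex 3 9) :
    x 0 + x 1 + x 2 + x 3 + x 4 + x 5 + x 6 + x 7 + x 8 = 3 := by
  have h1 : sm Finset.univ x ≤ 3 := poly_le (fun T hT => by
    rw [Finset.univ_inter, show T.card = 3 from hT]; norm_num) hx
  have h2 : 3 ≤ sm Finset.univ x := poly_ge (fun T hT => by
    rw [Finset.univ_inter, show T.card = 3 from hT]; norm_num) hx
  have h3 : sm Finset.univ x = x 0 + x 1 + x 2 + x 3 + x 4 + x 5 + x 6 + x 7 + x 8 := by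
    simp only [sm, Fin.sum_univ_succ]
    simp [add_assoc]
  linarith

lemma hyp_bd {x : Fin 9 → ℝ} (hx : x ∈ hypersimplex 3 9) (i : Fin 9) : 0 ≤ x i ∧ x i ≤ 1 :=
  ⟨poly_nonneg hx i, poly_le_one hx i⟩

/-- the affine functions of the base subdivision -/
def hh : Fin 11 → (Fin 9 → ℝ) → ℝ :=
  ![fun _ => 0,
    fun x => sm (fs 113) x - 2,
    fun x => sm (fs 385) x - 2,
    fun x => sm (fs 146) x - 2,
    fun x => sm (fs 164) x - 2,
    fun x => sm (fs 200) x - 2,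
    fun x => sm (fs 290) x - 2,
    fun x => sm (fs 324) x - 2,
    fun x => sm (fs 280) x - 2,
    fun x => sm (fs 15) x - 2,
    fun x => sm (fs 15) x + sm (fs 14) x - 4]

/-- the bases of the pieces -/
def fml : Fin 11 → Set (Finset (Fin 9)) :=
  ![fam cSuf0, fam cLn2, fam cLn3, fam cLn4, fam cLn5, fam cLn6, fam cLn7, fam cLn8, fam cLn9, fam cQp, fam cQpp]

lemma hall (x : Fin 9 → ℝ) (t : ℝ) : (∀ j, hh j x ≤ t) ↔ (0 ≤ t ∧ sm (fs 113) x - 2 ≤ t ∧ sm (fs 385) x - 2 ≤ t ∧ sm (fs 146) x - 2 ≤ t ∧ sm (fs 164) x - 2 ≤ t ∧ sm (fs 200) x - 2 ≤ t ∧ sm (fs 290) x - 2 ≤ t ∧ sm (fs 324) x - 2 ≤ t ∧ sm (fs 280) x - 2 ≤ t ∧ sm (fs 15) x - 2 ≤ t ∧ sm (fs 15) x + sm (fs 14) x - 4 ≤ t) := by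
  simp only [hh, Fin.forall_fin_succ]
  simp

lemma reg_iffSuf0 (x : Fin 9 → ℝ) : x ∈ reg cSuf0 ↔ x ∈ hypersimplex 3 9 ∧ (sm (fs 15) x ≤ 2 ∧ sm (fs 113) x ≤ 2 ∧ sm (fs 385) x ≤ 2 ∧ sm (fs 146) x ≤ 2 ∧ sm (fs 164) x ≤ 2 ∧ sm (fs 200) x ≤ 2 ∧ sm (fs 290) x ≤ 2 ∧ sm (fs 324) x ≤ 2 ∧ sm (fs 280) x ≤ 2) := by
  unfold reg cSuf0
  simp only [mem_ofPred_eq, List.forall_mem_cons, List.not_mem_nil, IsEmpty.forall_iff, implies_true, and_true]
  norm_num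

lemma pcSuf0 : {x | x ∈ hypersimplex 3 9 ∧ ∀ j, hh j x ≤ 0} = poly (fam cSuf0) := by
  rw [← rgSuf0]
  ext x
  rw [mem_ofPred_eq, reg_iffSuf0, hall]
  refine and_congr_right (fun hx => ?_)
  have hs := hyp_sum hx
  have b0 := hyp_bd hx 0
  have b1 := hyp_bd hx 1
  have b2 := hyp_bd hx 2
  have b3 := hyp_bd hx 3
  have b4 := hyp_bd hx 4
  have b5 := hyp_bd hx 5
  have b6 := hyp_bd hx 6
  have b7 := hyp_bd hx 7
  have b8 := hyp_bd hx 8
  simp only [sm14, sm15, sm113, sm146, sm164, sm200, sm280, sm290, sm324, sm385]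
  constructor
  · rintro ⟨k0, k1, k2, k3, k4, k5, k6, k7, k8, k9, k10⟩
    refine ⟨?_, ?_, ?_, ?_, ?_, ?_, ?_, ?_, ?_⟩ <;> linarith
  · rintro ⟨k0, k1, k2, k3, k4, k5, k6, k7, k8⟩
    refine ⟨?_, ?_, ?_, ?_, ?_, ?_, ?_, ?_, ?_, ?_, ?_⟩ <;> linarith

lemma reg_iffLn2 (x : Fin 9 → ℝ) : x ∈ reg cLn2 ↔ x ∈ hypersimplex 3 9 ∧ (sm (fs 398) x ≤ 1) := by
  unfold reg cLn2
  simp only [mem_ofPred_eq, List.forall_mem_cons, List.not_mem_nil, IsEmpty.forall_iff, implies_true, and_true]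
  norm_num

lemma pcLn2 : {x | x ∈ hypersimplex 3 9 ∧ ∀ j, hh j x ≤ sm (fs 113) x - 2} = poly (fam cLn2) := by
  rw [← rgLn2]
  ext x
  rw [mem_ofPred_eq, reg_iffLn2, hall]
  refine and_congr_right (fun hx => ?_)
  have hs := hyp_sum hx
  have b0 := hyp_bd hx 0
  have b1 := hyp_bd hx 1
  have b2 := hyp_bd hx 2
  have b3 := hyp_bd hx 3
  have b4 := hyp_bd hx 4
  have b5 := hyp_bd hx 5
  have b6 := hyp_bd hx 6
  have b7 := hyp_bd hx 7
  have b8 := hyp_bd hx 8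
  simp only [sm14, sm15, sm113, sm146, sm164, sm200, sm280, sm290, sm324, sm385, sm398]
  constructor
  · rintro ⟨k0, k1, k2, k3, k4, k5, k6, k7, k8, k9, k10⟩
    linarith
  · rintro k0
    refine ⟨?_, ?_, ?_, ?_, ?_, ?_, ?_, ?_, ?_, ?_, ?_⟩ <;> linarith

lemma reg_iffLn3 (x : Fin 9 → ℝ) : x ∈ reg cLn3 ↔ x ∈ hypersimplex 3 9 ∧ (sm (fs 126) x ≤ 1) := by
  unfold reg cLn3
  simp only [mem_ofPred_eq, List.forall_mem_cons, List.not_mem_nil, IsEmpty.forall_iff, implies_true, and_true]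
  norm_num

lemma pcLn3 : {x | x ∈ hypersimplex 3 9 ∧ ∀ j, hh j x ≤ sm (fs 385) x - 2} = poly (fam cLn3) := by
  rw [← rgLn3]
  ext x
  rw [mem_ofPred_eq, reg_iffLn3, hall]
  refine and_congr_right (fun hx => ?_)
  have hs := hyp_sum hx
  have b0 := hyp_bd hx 0
  have b1 := hyp_bd hx 1
  have b2 := hyp_bd hx 2
  have b3 := hyp_bd hx 3
  have b4 := hyp_bd hx 4
  have b5 := hyp_bd hx 5
  have b6 := hyp_bd hx 6
  have b7 := hyp_bd hx 7
  have b8 := hyp_bd hx 8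
  simp only [sm14, sm15, sm113, sm126, sm146, sm164, sm200, sm280, sm290, sm324, sm385]
  constructor
  · rintro ⟨k0, k1, k2, k3, k4, k5, k6, k7, k8, k9, k10⟩
    linarith
  · rintro k0
    refine ⟨?_, ?_, ?_, ?_, ?_, ?_, ?_, ?_, ?_, ?_, ?_⟩ <;> linarith

lemma reg_iffLn4 (x : Fin 9 → ℝ) : x ∈ reg cLn4 ↔ x ∈ hypersimplex 3 9 ∧ (sm (fs 365) x ≤ 1) := by
  unfold reg cLn4
  simp only [mem_ofPred_eq, List.forall_mem_cons, List.not_mem_nil, IsEmpty.forall_iff, implies_true, and_true]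
  norm_num

lemma pcLn4 : {x | x ∈ hypersimplex 3 9 ∧ ∀ j, hh j x ≤ sm (fs 146) x - 2} = poly (fam cLn4) := by
  rw [← rgLn4]
  ext x
  rw [mem_ofPred_eq, reg_iffLn4, hall]
  refine and_congr_right (fun hx => ?_)
  have hs := hyp_sum hx
  have b0 := hyp_bd hx 0
  have b1 := hyp_bd hx 1
  have b2 := hyp_bd hx 2
  have b3 := hyp_bd hx 3
  have b4 := hyp_bd hx 4
  have b5 := hyp_bd hx 5
  have b6 := hyp_bd hx 6
  have b7 := hyp_bd hx 7
  have b8 := hyp_bd hx 8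
  simp only [sm14, sm15, sm113, sm146, sm164, sm200, sm280, sm290, sm324, sm365, sm385]
  constructor
  · rintro ⟨k0, k1, k2, k3, k4, k5, k6, k7, k8, k9, k10⟩
    linarith
  · rintro k0
    refine ⟨?_, ?_, ?_, ?_, ?_, ?_, ?_, ?_, ?_, ?_, ?_⟩ <;> linarith

lemma reg_iffLn5 (x : Fin 9 → ℝ) : x ∈ reg cLn5 ↔ x ∈ hypersimplex 3 9 ∧ (sm (fs 347) x ≤ 1) := by
  unfold reg cLn5
  simp only [mem_ofPred_eq, List.forall_mem_cons, List.not_mem_nil, IsEmpty.forall_iff, implies_true, and_true]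
  norm_num

lemma pcLn5 : {x | x ∈ hypersimplex 3 9 ∧ ∀ j, hh j x ≤ sm (fs 164) x - 2} = poly (fam cLn5) := by
  rw [← rgLn5]
  ext x
  rw [mem_ofPred_eq, reg_iffLn5, hall]
  refine and_congr_right (fun hx => ?_)
  have hs := hyp_sum hx
  have b0 := hyp_bd hx 0
  have b1 := hyp_bd hx 1
  have b2 := hyp_bd hx 2
  have b3 := hyp_bd hx 3
  have b4 := hyp_bd hx 4
  have b5 := hyp_bd hx 5
  have b6 := hyp_bd hx 6
  have b7 := hyp_bd hx 7
  have b8 := hyp_bd hx 8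
  simp only [sm14, sm15, sm113, sm146, sm164, sm200, sm280, sm290, sm324, sm347, sm385]
  constructor
  · rintro ⟨k0, k1, k2, k3, k4, k5, k6, k7, k8, k9, k10⟩
    linarith
  · rintro k0
    refine ⟨?_, ?_, ?_, ?_, ?_, ?_, ?_, ?_, ?_, ?_, ?_⟩ <;> linarith

lemma reg_iffLn6 (x : Fin 9 → ℝ) : x ∈ reg cLn6 ↔ x ∈ hypersimplex 3 9 ∧ (sm (fs 311) x ≤ 1) := by
  unfold reg cLn6
  simp only [mem_ofPred_eq, List.forall_mem_cons, List.not_mem_nil, IsEmpty.forall_iff, implies_true, and_true]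
  norm_num

lemma pcLn6 : {x | x ∈ hypersimplex 3 9 ∧ ∀ j, hh j x ≤ sm (fs 200) x - 2} = poly (fam cLn6) := by
  rw [← rgLn6]
  ext x
  rw [mem_ofPred_eq, reg_iffLn6, hall]
  refine and_congr_right (fun hx => ?_)
  have hs := hyp_sum hx
  have b0 := hyp_bd hx 0
  have b1 := hyp_bd hx 1
  have b2 := hyp_bd hx 2
  have b3 := hyp_bd hx 3
  have b4 := hyp_bd hx 4
  have b5 := hyp_bd hx 5
  have b6 := hyp_bd hx 6
  have b7 := hyp_bd hx 7
  have b8 := hyp_bd hx 8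
  simp only [sm14, sm15, sm113, sm146, sm164, sm200, sm280, sm290, sm311, sm324, sm385]
  constructor
  · rintro ⟨k0, k1, k2, k3, k4, k5, k6, k7, k8, k9, k10⟩
    linarith
  · rintro k0
    refine ⟨?_, ?_, ?_, ?_, ?_, ?_, ?_, ?_, ?_, ?_, ?_⟩ <;> linarith

lemma reg_iffLn7 (x : Fin 9 → ℝ) : x ∈ reg cLn7 ↔ x ∈ hypersimplex 3 9 ∧ (sm (fs 221) x ≤ 1) := by
  unfold reg cLn7
  simp only [mem_ofPred_eq, List.forall_mem_cons, List.not_mem_nil, IsEmpty.forall_iff, implies_true, and_true]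
  norm_num

lemma pcLn7 : {x | x ∈ hypersimplex 3 9 ∧ ∀ j, hh j x ≤ sm (fs 290) x - 2} = poly (fam cLn7) := by
  rw [← rgLn7]
  ext x
  rw [mem_ofPred_eq, reg_iffLn7, hall]
  refine and_congr_right (fun hx => ?_)
  have hs := hyp_sum hx
  have b0 := hyp_bd hx 0
  have b1 := hyp_bd hx 1
  have b2 := hyp_bd hx 2
  have b3 := hyp_bd hx 3
  have b4 := hyp_bd hx 4
  have b5 := hyp_bd hx 5
  have b6 := hyp_bd hx 6
  have b7 := hyp_bd hx 7
  have b8 := hyp_bd hx 8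
  simp only [sm14, sm15, sm113, sm146, sm164, sm200, sm221, sm280, sm290, sm324, sm385]
  constructor
  · rintro ⟨k0, k1, k2, k3, k4, k5, k6, k7, k8, k9, k10⟩
    linarith
  · rintro k0
    refine ⟨?_, ?_, ?_, ?_, ?_, ?_, ?_, ?_, ?_, ?_, ?_⟩ <;> linarith

lemma reg_iffLn8 (x : Fin 9 → ℝ) : x ∈ reg cLn8 ↔ x ∈ hypersimplex 3 9 ∧ (sm (fs 187) x ≤ 1) := by
  unfold reg cLn8
  simp only [mem_ofPred_eq, List.forall_mem_cons, List.not_mem_nil, IsEmpty.forall_iff, implies_true, and_true]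
  norm_num

lemma pcLn8 : {x | x ∈ hypersimplex 3 9 ∧ ∀ j, hh j x ≤ sm (fs 324) x - 2} = poly (fam cLn8) := by
  rw [← rgLn8]
  ext x
  rw [mem_ofPred_eq, reg_iffLn8, hall]
  refine and_congr_right (fun hx => ?_)
  have hs := hyp_sum hx
  have b0 := hyp_bd hx 0
  have b1 := hyp_bd hx 1
  have b2 := hyp_bd hx 2
  have b3 := hyp_bd hx 3
  have b4 := hyp_bd hx 4
  have b5 := hyp_bd hx 5
  have b6 := hyp_bd hx 6
  have b7 := hyp_bd hx 7
  have b8 := hyp_bd hx 8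
  simp only [sm14, sm15, sm113, sm146, sm164, sm187, sm200, sm280, sm290, sm324, sm385]
  constructor
  · rintro ⟨k0, k1, k2, k3, k4, k5, k6, k7, k8, k9, k10⟩
    linarith
  · rintro k0
    refine ⟨?_, ?_, ?_, ?_, ?_, ?_, ?_, ?_, ?_, ?_, ?_⟩ <;> linarith

lemma reg_iffLn9 (x : Fin 9 → ℝ) : x ∈ reg cLn9 ↔ x ∈ hypersimplex 3 9 ∧ (sm (fs 231) x ≤ 1) := by
  unfold reg cLn9
  simp only [mem_ofPred_eq, List.forall_mem_cons, List.not_mem_nil, IsEmpty.forall_iff, implies_true, and_true]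
  norm_num

lemma pcLn9 : {x | x ∈ hypersimplex 3 9 ∧ ∀ j, hh j x ≤ sm (fs 280) x - 2} = poly (fam cLn9) := by
  rw [← rgLn9]
  ext x
  rw [mem_ofPred_eq, reg_iffLn9, hall]
  refine and_congr_right (fun hx => ?_)
  have hs := hyp_sum hx
  have b0 := hyp_bd hx 0
  have b1 := hyp_bd hx 1
  have b2 := hyp_bd hx 2
  have b3 := hyp_bd hx 3
  have b4 := hyp_bd hx 4
  have b5 := hyp_bd hx 5
  have b6 := hyp_bd hx 6
  have b7 := hyp_bd hx 7
  have b8 := hyp_bd hx 8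
  simp only [sm14, sm15, sm113, sm146, sm164, sm200, sm231, sm280, sm290, sm324, sm385]
  constructor
  · rintro ⟨k0, k1, k2, k3, k4, k5, k6, k7, k8, k9, k10⟩
    linarith
  · rintro k0
    refine ⟨?_, ?_, ?_, ?_, ?_, ?_, ?_, ?_, ?_, ?_, ?_⟩ <;> linarith

lemma reg_iffQp (x : Fin 9 → ℝ) : x ∈ reg cQp ↔ x ∈ hypersimplex 3 9 ∧ (sm (fs 14) x ≤ 2 ∧ sm (fs 496) x ≤ 1) := by
  unfold reg cQp
  simp only [mem_ofPred_eq, List.forall_mem_cons, List.not_mem_nil, IsEmpty.forall_iff, implies_true, and_true]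
  norm_num

lemma pcQp : {x | x ∈ hypersimplex 3 9 ∧ ∀ j, hh j x ≤ sm (fs 15) x - 2} = poly (fam cQp) := by
  rw [← rgQp]
  ext x
  rw [mem_ofPred_eq, reg_iffQp, hall]
  refine and_congr_right (fun hx => ?_)
  have hs := hyp_sum hx
  have b0 := hyp_bd hx 0
  have b1 := hyp_bd hx 1
  have b2 := hyp_bd hx 2
  have b3 := hyp_bd hx 3
  have b4 := hyp_bd hx 4
  have b5 := hyp_bd hx 5
  have b6 := hyp_bd hx 6
  have b7 := hyp_bd hx 7
  have b8 := hyp_bd hx 8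
  simp only [sm14, sm15, sm113, sm146, sm164, sm200, sm280, sm290, sm324, sm385, sm496]
  constructor
  · rintro ⟨k0, k1, k2, k3, k4, k5, k6, k7, k8, k9, k10⟩
    refine ⟨?_, ?_⟩ <;> linarith
  · rintro ⟨k0, k1⟩
    refine ⟨?_, ?_, ?_, ?_, ?_, ?_, ?_, ?_, ?_, ?_, ?_⟩ <;> linarith

lemma reg_iffQpp (x : Fin 9 → ℝ) : x ∈ reg cQpp ↔ x ∈ hypersimplex 3 9 ∧ (sm (fs 497) x ≤ 1) := by
  unfold reg cQpp
  simp only [mem_ofPred_eq, List.forall_mem_cons, List.not_mem_nil, IsEmpty.forall_iff, implies_true, and_true]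
  norm_num

lemma pcQpp : {x | x ∈ hypersimplex 3 9 ∧ ∀ j, hh j x ≤ sm (fs 15) x + sm (fs 14) x - 4} = poly (fam cQpp) := by
  rw [← rgQpp]
  ext x
  rw [mem_ofPred_eq, reg_iffQpp, hall]
  refine and_congr_right (fun hx => ?_)
  have hs := hyp_sum hx
  have b0 := hyp_bd hx 0
  have b1 := hyp_bd hx 1
  have b2 := hyp_bd hx 2
  have b3 := hyp_bd hx 3
  have b4 := hyp_bd hx 4
  have b5 := hyp_bd hx 5
  have b6 := hyp_bd hx 6
  have b7 := hyp_bd hx 7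
  have b8 := hyp_bd hx 8
  simp only [sm14, sm15, sm113, sm146, sm164, sm200, sm280, sm290, sm324, sm385, sm497]
  constructor
  · rintro ⟨k0, k1, k2, k3, k4, k5, k6, k7, k8, k9, k10⟩
    linarith
  · rintro k0
    refine ⟨?_, ?_, ?_, ?_, ?_, ?_, ?_, ?_, ?_, ?_, ?_⟩ <;> linarith

/-- the base subdivision -/
def C0 : Set (Set (Fin 9 → ℝ)) := pieceComplex (fun i => poly (fml i))

theorem base : IsMatroidSubdivision (hypersimplex 3 9) C0 := by
  apply regular_complex _ hh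
  · intro i a b x y hab
    have hb : b = 1 - a := by linarith
    subst hb
    fin_cases i <;> simp [hh, sm_add, sm_smul] <;> ring
  · intro i
    fin_cases i
    · exact seSuf0
    · exact seLn2
    · exact seLn3
    · exact seLn4
    · exact seLn5
    · exact seLn6
    · exact seLn7
    · exact seLn8
    · exact seLn9
    · exact seQp
    · exact seQpp
  · intro i
    fin_cases i
    · exact pcSuf0
    · exact pcLn2
    · exact pcLn3
    · exact pcLn4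
    · exact pcLn5
    · exact pcLn6
    · exact pcLn7
    · exact pcLn8
    · exact pcLn9
    · exact pcQp
    · exact pcQpp

end Pool.Agent.MatSub
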