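import Mathlib
import Pool.Agent.Lib.MP_6a4d09_co.Complex

set_option autoImplicit false

namespace Pool.Agent.MatSub

open Set

variable {n : ℕ}

/-- two vertices lie in a common cell -/
def Tog (𝒞 : Set (Set (Fin n → ℝ))) (T₁ T₂ : Finset (Fin n)) : Prop :=
  ∃ C ∈ 𝒞, ind T₁ ∈ C ∧ ind T₂ ∈ C

lemma Tog.symm {𝒞 : Set (Set (Fin n → ℝ))} {T₁ T₂ : Finset (Fin n)} (h : Tog 𝒞 T₁ T₂) :
    Tog 𝒞 T₂ T₁ := by
  obtain ⟨C, hC, h1, h2⟩ := h
  exact ⟨C, hC, h2, h1⟩

/-- move the weight of coordinate `u` to coordinate `u'` -/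
def mv (u u' : Fin n) (x : Fin n → ℝ) : Fin n → ℝ :=
  fun i => if i = u then 0 else if i = u' then x u + x u' else x i

lemma mv_add (u u' : Fin n) (x y : Fin n → ℝ) : mv u u' (x + y) = mv u u' x + mv u u' y := by
  funext i
  simp only [mv, Pi.add_apply]
  split_ifs <;> ring

lemma mv_smul (u u' : Fin n) (c : ℝ) (x : Fin n → ℝ) : mv u u' (c • x) = c • mv u u' x := by
  funext i
  simp only [mv, Pi.smul_apply, smul_eq_mul]
  split_ifs <;> ring

/-- swap element `u` for `u'` -/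
def sw (u u' : Fin n) (T : Finset (Fin n)) : Finset (Fin n) :=
  if u ∈ T then insert u' (T.erase u) else T

lemma mv_ind {u u' : Fin n} (huu : u ≠ u') {T : Finset (Fin n)} (h : u ∈ T → u' ∉ T) :
    mv u u' (ind T) = ind (sw u u' T) := by
  funext i
  unfold mv sw ind
  by_cases hu : u ∈ T
  · have hu' := h hu
    simp only [hu, hu', if_true, if_false, Finset.mem_insert, Finset.mem_erase]
    by_cases hiu : i = u
    · subst hiu
      simp [huu]
    · by_cases hiu' : i = u'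
      · subst hiu'; simp [hiu]
      · simp [hiu, hiu']
  · simp only [hu, if_false]
    by_cases hiu : i = u
    · subst hiu; simp [hu]
    · by_cases hiu' : i = u'
      · subst hiu'; simp [hiu]
      · simp [hiu, hiu']

lemma mv_self {u u' : Fin n} {T : Finset (Fin n)} (h : u ∉ T) (huu : u ≠ u') :
    mv u u' (ind T) = ind T := by
  rw [mv_ind huu (fun h' => absurd h' h), sw, if_neg h]

lemma mv_back {u u' : Fin n} {T : Finset (Fin n)} (huu : u ≠ u') (h : u' ∉ T) :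
    mv u' u (ind (sw u u' T)) = ind T := by
  have hs : u' ∈ sw u u' T → u ∉ sw u u' T := by
    unfold sw
    by_cases hu : u ∈ T
    · rw [if_pos hu]
      intro _ hh
      rw [Finset.mem_insert, Finset.mem_erase] at hh
      rcases hh with hh | hh
      · exact huu hh
      · exact hh.1 rfl
    · rw [if_neg hu]
      intro hh; exact absurd hh h
  rw [mv_ind huu.symm hs]
  congr 1
  unfold sw
  by_cases hu : u ∈ T
  · rw [if_pos hu, if_pos (Finset.mem_insert_self _ _)]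
    ext i
    simp only [Finset.mem_insert, Finset.mem_erase]
    by_cases hiu : i = u
    · subst hiu; simp [hu]
    · by_cases hiu' : i = u'
      · subst hiu'; simp [hiu, h]
      · simp [hiu, hiu']
  · rw [if_neg hu, if_neg h]

lemma mv_mem {C : Set (Fin n → ℝ)} (hC : C = poly (vs C)) {u u' : Fin n} (huu : u ≠ u')
    (h1 : ∀ B ∈ vs C, u ∈ B → u' ∉ B) (h2 : ∀ B ∈ vs C, u ∈ B → insert u' (B.erase u) ∈ vs C)
    {x : Fin n → ℝ} (hx : x ∈ C) : mv u u' x ∈ C := by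
  have hsub : poly (vs C) ⊆ {x | mv u u' x ∈ C} := by
    apply convexHull_min
    · rintro _ ⟨B, hB, rfl⟩
      show mv u u' (ind B) ∈ C
      rw [mv_ind huu (h1 B hB), sw]
      split_ifs with h
      · exact h2 B hB h
      · exact hB
    · intro x hx y hy a b ha hb hab
      show mv u u' (a • x + b • y) ∈ C
      rw [mv_add, mv_smul, mv_smul]
      have hconv : Convex ℝ C := by rw [hC]; exact convex_poly _
      exact hconv hx hy ha hb hab
  rw [hC] at hx
  exact hsub hx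

lemma exists_mem_of_pos {𝓑 : Set (Finset (Fin n))} {x : Fin n → ℝ} (hx : x ∈ poly 𝓑) {i : Fin n}
    (hi : 0 < x i) : ∃ B ∈ 𝓑, i ∈ B := by
  by_contra hcon
  push Not at hcon
  have : sm {i} x ≤ 0 := by
    apply poly_le _ hx
    intro B hB
    have : {i} ∩ B = ∅ := by
      rw [Finset.singleton_inter_of_notMem (hcon B hB)]
    rw [this]; simp
  rw [sm_single] at this
  linarith

/-- the transport lemma -/
lemma transport {k : ℕ} {𝒞 𝒞₀ : Set (Set (Fin n → ℝ))}
    (hC : IsMatroidSubdivision (hypersimplex k n) 𝒞)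
    (h0 : IsMatroidSubdivision (hypersimplex k n) 𝒞₀) (href : Refines 𝒞 𝒞₀)
    {G : Set (Fin n → ℝ)} (hG : G ∈ 𝒞₀) {u u' : Fin n} (huu : u ≠ u') {T₁ T₂ : Finset (Fin n)}
    (hu1 : u' ∉ T₁) (hu2 : u' ∉ T₂) (g1 : ind T₁ ∈ G) (g2 : ind T₂ ∈ G)
    (g3 : ind (sw u u' T₁) ∈ G) (g4 : ind (sw u u' T₂) ∈ G)
    (hsw : ∀ C ∈ 𝒞, C ⊆ G → (∃ B ∈ vs C, u ∈ B) → (∃ B ∈ vs C, u' ∈ B) →
      (∀ B ∈ vs C, u ∈ B → u' ∉ B) ∧ (∀ B ∈ vs C, u ∈ B → insert u' (B.erase u) ∈ vs C) ∧
      (∀ B ∈ vs C, u' ∈ B → insert u (B.erase u') ∈ vs C))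
    (huT : u ∈ T₁) (htog : Tog 𝒞 T₁ T₂) : Tog 𝒞 (sw u u' T₁) (sw u u' T₂) := by
  have hGconv : Convex ℝ G := by
    rw [(cell_spec h0 hG).1]; exact convex_poly _
  obtain ⟨Y, hY⟩ : ∃ Y : Fin n → ℝ, Y = (1/2 : ℝ) • ((1/2 : ℝ) • ind T₁ + (1/2 : ℝ) • ind T₂) +
      (1/2 : ℝ) • ((1/2 : ℝ) • ind (sw u u' T₁) + (1/2 : ℝ) • ind (sw u u' T₂)) := ⟨_, rfl⟩
  have hYG : Y ∈ G := by
    rw [hY]
    apply hGconv _ _ (by norm_num) (by norm_num) (by norm_num)
    · exact hGconv g1 g2 (by norm_num) (by norm_num) (by norm_num)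
    · exact hGconv g3 g4 (by norm_num) (by norm_num) (by norm_num)
  obtain ⟨C', hC'm, hYC', hC'G⟩ := cell_in hC h0 href hG hYG
  obtain ⟨hpoly, hexch, hcard⟩ := cell_spec hC hC'm
  have hnn : ∀ (T : Finset (Fin n)) (i : Fin n), 0 ≤ ind T i := by
    intro T i; unfold ind; split_ifs <;> norm_num
  have hYu : 0 < Y u := by
    rw [hY]
    simp only [Pi.add_apply, Pi.smul_apply, smul_eq_mul]
    have h1 : ind T₁ u = 1 := by simp [ind, huT]
    rw [h1]
    have := hnn T₂ u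
    have := hnn (sw u u' T₁) u
    have := hnn (sw u u' T₂) u
    linarith
  have hYu' : 0 < Y u' := by
    rw [hY]
    simp only [Pi.add_apply, Pi.smul_apply, smul_eq_mul]
    have h1 : ind (sw u u' T₁) u' = 1 := by simp [ind, sw, huT]
    rw [h1]
    have := hnn T₂ u'
    have := hnn T₁ u'
    have := hnn (sw u u' T₂) u'
    linarith
  have hYC'' := hYC'
  rw [hpoly] at hYC''
  obtain ⟨s1, s2, s3⟩ := hsw C' hC'm hC'G (exists_mem_of_pos hYC'' hYu) (exists_mem_of_pos hYC'' hYu')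
  have hm : (1/2 : ℝ) • ind T₁ + (1/2 : ℝ) • ind T₂ ∈ C' := by
    have h5 := mv_mem hpoly huu.symm (fun B hB hb hb' => s1 B hB hb' hb) s3 hYC'
    rw [hY, mv_add, mv_smul, mv_smul, mv_add, mv_add, mv_smul, mv_smul, mv_smul, mv_smul,
      mv_self hu1 huu.symm, mv_self hu2 huu.symm, mv_back huu hu1, mv_back huu hu2] at h5
    have e : (1/2 : ℝ) • ((1/2 : ℝ) • ind T₁ + (1/2 : ℝ) • ind T₂) +
      (1/2 : ℝ) • ((1/2 : ℝ) • ind T₁ + (1/2 : ℝ) • ind T₂) =
        (1/2 : ℝ) • ind T₁ + (1/2 : ℝ) • ind T₂ := by module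
    rwa [e] at h5
  obtain ⟨C, hCm, hc1, hc2⟩ := htog
  have hCconv : Convex ℝ C := by
    rw [(cell_spec hC hCm).1]; exact convex_poly _
  have hmC : (1/2 : ℝ) • ind T₁ + (1/2 : ℝ) • ind T₂ ∈ C :=
    hCconv hc1 hc2 (by norm_num) (by norm_num) (by norm_num)
  have hface := hC.inter C hCm C' hC'm
  have hseg : (1/2 : ℝ) • ind T₁ + (1/2 : ℝ) • ind T₂ ∈ openSegment ℝ (ind T₁) (ind T₂) :=
    ⟨1/2, 1/2, by norm_num, by norm_num, by norm_num, rfl⟩
  have k1 := hface.2.left_mem_of_mem_openSegment hc1 hc2 ⟨hmC, hm⟩ hseg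
  have k2 := hface.2.right_mem_of_mem_openSegment hc1 hc2 ⟨hmC, hm⟩ hseg
  refine ⟨C', hC'm, ?_, ?_⟩
  · have := mv_mem hpoly huu s1 s2 k1.2
    rwa [mv_ind huu (fun _ => hu1)] at this
  · have := mv_mem hpoly huu s1 s2 k2.2
    rwa [mv_ind huu (fun _ => hu2)] at this

/-- closure of base families under swapping parallel elements -/
lemma swapP {𝓑 : Set (Finset (Fin n))} (hex : Exch 𝓑) (hcard : ∀ B ∈ 𝓑, B.card = 3)
    {c u u' : Fin n} (hcu : c ≠ u) (hcu' : c ≠ u') (huu : u ≠ u') (hc : ∀ B ∈ 𝓑, c ∈ B)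
    (hnb : ({c, u, u'} : Finset (Fin n)) ∉ 𝓑) (hB2 : ∃ B ∈ 𝓑, u' ∈ B) :
    ∀ B ∈ 𝓑, u ∈ B → insert u' (B.erase u) ∈ 𝓑 := by
  have hno : ∀ B ∈ 𝓑, u ∈ B → u' ∉ B := by
    intro B hB hu hu'
    apply hnb
    have : ({c, u, u'} : Finset (Fin n)) = B := by
      apply Finset.eq_of_subset_of_card_le
      · intro i hi
        simp only [Finset.mem_insert, Finset.mem_singleton] at hi
        rcases hi with rfl | rfl | rfl
        · exact hc B hB
        · exact hu
        · exact hu'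
      · rw [hcard B hB]
        rw [Finset.card_insert_of_notMem, Finset.card_insert_of_notMem, Finset.card_singleton]
        · simpa using huu
        · simp [hcu, hcu']
    rw [this]; exact hB
  intro B hB hu
  obtain ⟨B₂, hB₂, hu₂⟩ := hB2
  have huB₂ : u ∉ B₂ := fun h => hno B₂ hB₂ h hu₂
  have hu'B : u' ∉ B := hno B hB hu
  -- third elements
  have hthird : ∀ A ∈ 𝓑, ∀ v, v ∈ A → c ≠ v → ∃ q, q ∈ A ∧ q ≠ c ∧ q ≠ v ∧ ∀ i ∈ A, i = c ∨ i = v ∨ i = q := by
    intro A hA v hv hcv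
    have h1 : ((A.erase c).erase v).card = 1 := by
      rw [Finset.card_erase_of_mem (Finset.mem_erase.mpr ⟨hcv.symm, hv⟩),
        Finset.card_erase_of_mem (hc A hA), hcard A hA]
    obtain ⟨q, hq⟩ := Finset.card_eq_one.mp h1
    have hqm : q ∈ (A.erase c).erase v := by rw [hq]; exact Finset.mem_singleton_self q
    rw [Finset.mem_erase, Finset.mem_erase] at hqm
    refine ⟨q, hqm.2.2, hqm.2.1, hqm.1, ?_⟩
    intro i hi
    by_cases h2 : i = c
    · exact Or.inl h2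
    by_cases h3 : i = v
    · exact Or.inr (Or.inl h3)
    right; right
    have : i ∈ (A.erase c).erase v := Finset.mem_erase.mpr ⟨h3, Finset.mem_erase.mpr ⟨h2, hi⟩⟩
    rw [hq] at this
    exact Finset.mem_singleton.mp this
  obtain ⟨q, hqB, hqc, hqu, hBall⟩ := hthird B hB u hu hcu
  obtain ⟨q₂, hqB₂, hqc₂, hqu₂, hB₂all⟩ := hthird B₂ hB₂ u' hu₂ hcu'
  have hqu' : q ≠ u' := by rintro rfl; exact hu'B hqB
  -- target set
  have htarget : ∀ A : Finset (Fin n), (∀ i, i ∈ A ↔ i = c ∨ i = u' ∨ i = q) → A ∈ 𝓑 →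
      insert u' (B.erase u) ∈ 𝓑 := by
    intro A hA hAm
    have : insert u' (B.erase u) = A := by
      ext i
      rw [hA, Finset.mem_insert, Finset.mem_erase]
      constructor
      · rintro (rfl | ⟨h1, h2⟩)
        · exact Or.inr (Or.inl rfl)
        · rcases hBall i h2 with h | h | h
          · exact Or.inl h
          · exact absurd h h1
          · exact Or.inr (Or.inr h)
      · rintro (rfl | rfl | rfl)
        · exact Or.inr ⟨hcu, hc B hB⟩
        · exact Or.inl rfl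
        · exact Or.inr ⟨hqu, hqB⟩
    rw [this]; exact hAm
  by_cases hqq : q₂ = q
  · apply htarget B₂ _ hB₂
    intro i
    constructor
    · intro hi
      rw [← hqq]; exact hB₂all i hi
    · rintro (rfl | rfl | rfl)
      · exact hc B₂ hB₂
      · exact hu₂
      · rw [← hqq]; exact hqB₂
  · have hq₂B : q₂ ∉ B := by
      intro h
      rcases hBall q₂ h with h | h | h
      · exact hqc₂ h
      · rw [h] at hqB₂; exact huB₂ hqB₂
      · exact hqq h
    obtain ⟨b, hb, hb', hbm⟩ := hex B₂ hB₂ B hB q₂ hqB₂ hq₂B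
    have hb2 : b = q := by
      rcases hBall b hb with h | h | h
      · rw [h] at hb'; exact absurd (hc B₂ hB₂) hb'
      · exfalso
        apply hnb
        rw [h] at hbm
        have : ({c, u, u'} : Finset (Fin n)) = insert u (B₂.erase q₂) := by
          ext i
          simp only [Finset.mem_insert, Finset.mem_singleton, Finset.mem_erase]
          constructor
          · rintro (rfl | rfl | rfl)
            · exact Or.inr ⟨hqc₂.symm, hc B₂ hB₂⟩
            · exact Or.inl rfl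
            · exact Or.inr ⟨hqu₂.symm, hu₂⟩
          · rintro (rfl | ⟨h1, h2⟩)
            · exact Or.inr (Or.inl rfl)
            · rcases hB₂all i h2 with h | h | h
              · exact Or.inl h
              · exact Or.inr (Or.inr h)
              · exact absurd h h1
        rw [this]; exact hbm
      · exact h
    rw [hb2] at hbm
    apply htarget _ _ hbm
    intro i
    rw [Finset.mem_insert, Finset.mem_erase]
    constructor
    · rintro (rfl | ⟨h1, h2⟩)
      · exact Or.inr (Or.inr rfl)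
      · rcases hB₂all i h2 with h | h | h
        · exact Or.inl h
        · exact Or.inr (Or.inl h)
        · exact absurd h h1
    · rintro (rfl | rfl | rfl)
      · exact Or.inr ⟨hqc₂.symm, hc B₂ hB₂⟩
      · exact Or.inr ⟨hqu₂.symm, hu₂⟩
      · exact Or.inl rfl

/-- closure of base families of direct sums -/
lemma swapQ {𝓑 : Set (Finset (Fin n))} (hex : Exch 𝓑) (hcard : ∀ B ∈ 𝓑, B.card = 3)
    {L : Finset (Fin n)} {u u' : Fin n} (hu : u ∉ L) (hu' : u' ∉ L) (huu : u ≠ u')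
    (hL : ∀ B ∈ 𝓑, (L ∩ B).card = 2) (hB2 : ∃ B ∈ 𝓑, u' ∈ B) :
    (∀ B ∈ 𝓑, u ∈ B → u' ∉ B) ∧ ∀ B ∈ 𝓑, u ∈ B → insert u' (B.erase u) ∈ 𝓑 := by
  -- at most one element outside L
  have hone : ∀ B ∈ 𝓑, ∀ i ∈ B, ∀ j ∈ B, i ∉ L → j ∉ L → i = j := by
    intro B hB i hi j hj hiL hjL
    by_contra hij
    have h1 : (B \ L).card = 1 := by
      have h2 : (B \ L).card + (B ∩ L).card = B.card := Finset.card_sdiff_add_card_inter B L
      rw [Finset.inter_comm, hL B hB, hcard B hB] at h2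
      omega
    obtain ⟨q, hq⟩ := Finset.card_eq_one.mp h1
    have hi2 : i ∈ B \ L := Finset.mem_sdiff.mpr ⟨hi, hiL⟩
    have hj2 : j ∈ B \ L := Finset.mem_sdiff.mpr ⟨hj, hjL⟩
    rw [hq, Finset.mem_singleton] at hi2 hj2
    exact hij (hi2.trans hj2.symm)
  refine ⟨fun B hB h1 h2 => huu (hone B hB u h1 u' h2 hu hu'), ?_⟩
  intro B hB huB
  obtain ⟨B₂, hB₂, hu₂⟩ := hB2
  have huB₂ : u ∉ B₂ := fun h => huu (hone B₂ hB₂ u h u' hu₂ hu hu')
  obtain ⟨b, hb, hb', hbm⟩ := hex B hB B₂ hB₂ u huB huB₂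
  have hbL : b ∉ L := by
    intro hbL
    have h1 := hL _ hbm
    have h2 : L ∩ insert b (B.erase u) = insert b (L ∩ B) := by
      ext i
      simp only [Finset.mem_inter, Finset.mem_insert, Finset.mem_erase]
      constructor
      · rintro ⟨h3, h4 | ⟨_, h5⟩⟩
        · exact Or.inl h4
        · exact Or.inr ⟨h3, h5⟩
      · rintro (rfl | ⟨h3, h4⟩)
        · exact ⟨hbL, Or.inl rfl⟩
        · refine ⟨h3, Or.inr ⟨?_, h4⟩⟩
          rintro rfl; exact hu h3
    rw [h2, Finset.card_insert_of_notMem, hL B hB] at h1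
    · omega
    · intro h; exact hb' (Finset.mem_inter.mp h).2
  have : b = u' := hone B₂ hB₂ b hb u' hu₂ hbL hu'
  rw [this] at hbm
  exact hbm

variable {𝒞 𝒞₀ : Set (Set (Fin n → ℝ))} {𝓑₀ : Set (Finset (Fin n))}

/-- transport along a pair `u, u'` parallel in the contraction of `c` -/
lemma togP (hC : IsMatroidSubdivision (hypersimplex 3 n) 𝒞)
    (h0 : IsMatroidSubdivision (hypersimplex 3 n) 𝒞₀) (href : Refines 𝒞 𝒞₀)
    (hP : poly 𝓑₀ ∈ 𝒞₀) (hk : ∀ B ∈ 𝓑₀, B.card = 3) {c u u' : Fin n} {T₁ T₂ : Finset (Fin n)}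
    (hcu : c ≠ u) (hcu' : c ≠ u') (huu : u ≠ u') (hnb : ({c, u, u'} : Finset (Fin n)) ∉ 𝓑₀)
    (hc1 : c ∈ T₁) (hc2 : c ∈ T₂) (hu1 : u ∈ T₁) (hu1' : u' ∉ T₁) (hu2' : u' ∉ T₂)
    (m1 : T₁ ∈ 𝓑₀) (m2 : T₂ ∈ 𝓑₀) (m3 : sw u u' T₁ ∈ 𝓑₀) (m4 : sw u u' T₂ ∈ 𝓑₀)
    (htog : Tog 𝒞 T₁ T₂) : Tog 𝒞 (sw u u' T₁) (sw u u' T₂) := by
  have hface : IsFace (poly 𝓑₀) {x | x ∈ poly 𝓑₀ ∧ sm {c} x = 1} :=
    isFace_eq (convex_poly _) {c} 1 (fun x hx => by rw [sm_single]; exact poly_le_one hx c)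
  have hin : ∀ T ∈ 𝓑₀, c ∈ T → ind T ∈ {x | x ∈ poly 𝓑₀ ∧ sm {c} x = 1} := by
    intro T hT hcT
    refine ⟨ind_mem_poly hT, ?_⟩
    rw [sm_single]; simp [ind, hcT]
  have hcsw : ∀ T : Finset (Fin n), c ∈ T → c ∈ sw u u' T := by
    intro T hT
    unfold sw
    split_ifs
    · exact Finset.mem_insert_of_mem (Finset.mem_erase.mpr ⟨hcu, hT⟩)
    · exact hT
  have hG : {x | x ∈ poly 𝓑₀ ∧ sm {c} x = 1} ∈ 𝒞₀ :=
    h0.face_mem _ hP _ hface ⟨_, hin T₁ m1 hc1⟩
  refine transport hC h0 href hG huu hu1' hu2' (hin _ m1 hc1) (hin _ m2 hc2)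
    (hin _ m3 (hcsw _ hc1)) (hin _ m4 (hcsw _ hc2)) ?_ hu1 htog
  intro C hCm hCG hexu hexu'
  obtain ⟨hpoly, hexch, hcard⟩ := cell_spec hC hCm
  have hcB : ∀ B ∈ vs C, c ∈ B := by
    intro B hB
    have := (hCG hB).2
    rw [sm_single] at this
    by_contra hn
    simp [ind, hn] at this
  have hB0 : ∀ B ∈ vs C, B ∈ 𝓑₀ := by
    intro B hB
    exact mem_of_ind_mem hk (hcard B hB) (hCG hB).1
  have hnb1 : ({c, u, u'} : Finset (Fin n)) ∉ vs C := fun h => hnb (hB0 _ h)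
  have hnb2 : ({c, u', u} : Finset (Fin n)) ∉ vs C := by
    have : ({c, u', u} : Finset (Fin n)) = {c, u, u'} := by
      ext i; simp only [Finset.mem_insert, Finset.mem_singleton]; tauto
    rw [this]; exact hnb1
  refine ⟨?_, swapP hexch hcard hcu hcu' huu hcB hnb1 hexu',
    swapP hexch hcard hcu' hcu huu.symm hcB hnb2 hexu⟩
  intro B hB h1 h2
  apply hnb1
  have : ({c, u, u'} : Finset (Fin n)) = B := by
    apply Finset.eq_of_subset_of_card_le
    · intro i hi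
      simp only [Finset.mem_insert, Finset.mem_singleton] at hi
      rcases hi with rfl | rfl | rfl
      · exact hcB B hB
      · exact h1
      · exact h2
    · rw [hcard B hB]
      rw [Finset.card_insert_of_notMem, Finset.card_insert_of_notMem, Finset.card_singleton]
      · simpa using huu
      · simp [hcu, hcu']
  rw [this]; exact hB

/-- transport along two centres off a line -/
lemma togQ (hC : IsMatroidSubdivision (hypersimplex 3 n) 𝒞)
    (h0 : IsMatroidSubdivision (hypersimplex 3 n) 𝒞₀) (href : Refines 𝒞 𝒞₀)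
    (hP : poly 𝓑₀ ∈ 𝒞₀) {L : Finset (Fin n)} (hL : ∀ B ∈ 𝓑₀, (L ∩ B).card ≤ 2) {u u' : Fin n}
    {T₁ T₂ : Finset (Fin n)}
    (hu : u ∉ L) (hu' : u' ∉ L) (huu : u ≠ u')
    (hu1 : u ∈ T₁) (hu1' : u' ∉ T₁) (hu2' : u' ∉ T₂)
    (m1 : T₁ ∈ 𝓑₀) (m2 : T₂ ∈ 𝓑₀) (m3 : sw u u' T₁ ∈ 𝓑₀) (m4 : sw u u' T₂ ∈ 𝓑₀)
    (c1 : (L ∩ T₁).card = 2) (c2 : (L ∩ T₂).card = 2) (c3 : (L ∩ sw u u' T₁).card = 2)
    (c4 : (L ∩ sw u u' T₂).card = 2)
    (htog : Tog 𝒞 T₁ T₂) : Tog 𝒞 (sw u u' T₁) (sw u u' T₂) := by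
  have hface : IsFace (poly 𝓑₀) {x | x ∈ poly 𝓑₀ ∧ sm L x = 2} :=
    isFace_eq (convex_poly _) L 2 (fun x hx => poly_le (fun B hB => by exact_mod_cast hL B hB) hx)
  have hin : ∀ T ∈ 𝓑₀, (L ∩ T).card = 2 → ind T ∈ {x | x ∈ poly 𝓑₀ ∧ sm L x = 2} := by
    intro T hT hcT
    refine ⟨ind_mem_poly hT, ?_⟩
    rw [sm_ind, hcT]; norm_num
  have hG : {x | x ∈ poly 𝓑₀ ∧ sm L x = 2} ∈ 𝒞₀ :=
    h0.face_mem _ hP _ hface ⟨_, hin T₁ m1 c1⟩
  refine transport hC h0 href hG huu hu1' hu2' (hin _ m1 c1) (hin _ m2 c2)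
    (hin _ m3 c3) (hin _ m4 c4) ?_ hu1 htog
  intro C hCm hCG hexu hexu'
  obtain ⟨hpoly, hexch, hcard⟩ := cell_spec hC hCm
  have hLB : ∀ B ∈ vs C, (L ∩ B).card = 2 := by
    intro B hB
    have := (hCG hB).2
    rw [sm_ind] at this
    exact_mod_cast this
  obtain ⟨s1, s2⟩ := swapQ hexch hcard hu hu' huu hLB hexu'
  obtain ⟨s3, s4⟩ := swapQ hexch hcard hu' hu huu.symm hLB hexu
  exact ⟨s1, s2, s4⟩

/-- a cell can be restricted to a valid hyperplane -/
lemma drop_le (hC : IsMatroidSubdivision (hypersimplex 3 n) 𝒞) {C : Set (Fin n → ℝ)} (hCm : C ∈ 𝒞)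
    {m : Fin n → ℝ} (hm : m ∈ C) (S : Finset (Fin n)) (r : ℕ) (hr : sm S m = r)
    (hor : (∀ B ∈ vs C, (S ∩ B).card ≤ r) ∨ (∀ B ∈ vs C, r ≤ (S ∩ B).card)) :
    ∃ D ∈ 𝒞, D ⊆ C ∧ m ∈ D ∧ ∀ B ∈ vs D, (S ∩ B).card = r := by
  obtain ⟨hpoly, hexch, hcard⟩ := cell_spec hC hCm
  have hconv : Convex ℝ C := by rw [hpoly]; exact convex_poly _
  have hface : IsFace C {x | x ∈ C ∧ sm S x = r} := by
    rcases hor with h | h
    · apply isFace_eq hconv
      intro x hx
      rw [hpoly] at hx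
      exact poly_le (fun B hB => by exact_mod_cast h B hB) hx
    · apply isFace_eq' hconv
      intro x hx
      rw [hpoly] at hx
      exact poly_ge (fun B hB => by exact_mod_cast h B hB) hx
  refine ⟨_, hC.face_mem C hCm _ hface ⟨m, hm, hr⟩, fun x hx => hx.1, ⟨hm, hr⟩, ?_⟩
  intro B hB
  have := hB.2
  rw [sm_ind] at this
  exact_mod_cast this

/-- an octahedron is cut in at most one way -/
lemma octa (hC : IsMatroidSubdivision (hypersimplex 3 n) 𝒞)
    (h0 : IsMatroidSubdivision (hypersimplex 3 n) 𝒞₀) (href : Refines 𝒞 𝒞₀)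
    (hP : poly 𝓑₀ ∈ 𝒞₀) {c w x y z : Fin n}
    (n1 : c ≠ w) (n2 : c ≠ x) (n3 : c ≠ y) (n4 : c ≠ z) (n5 : w ≠ x) (n6 : w ≠ y) (n7 : w ≠ z)
    (n8 : x ≠ y) (n9 : x ≠ z) (n10 : y ≠ z)
    (hk : ∀ B ∈ 𝓑₀, B.card = 3)
    (m1 : {c, w, x} ∈ 𝓑₀) (m2 : {c, y, z} ∈ 𝓑₀) (m3 : {c, w, y} ∈ 𝓑₀) (m4 : {c, x, z} ∈ 𝓑₀)
    (m5 : {c, w, z} ∈ 𝓑₀) (m6 : {c, x, y} ∈ 𝓑₀) :
    Tog 𝒞 {c, w, x} {c, y, z} ∨ Tog 𝒞 {c, w, y} {c, x, z} := by
  classical
  by_contra hcon
  rw [not_or] at hcon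
  obtain ⟨hcon1, hcon2⟩ := hcon
  obtain ⟨J, hJ⟩ : ∃ J : Finset (Fin n), J = {c, w, x, y, z} := ⟨_, rfl⟩
  -- the face G
  have hf1 : IsFace (poly 𝓑₀) {p | p ∈ poly 𝓑₀ ∧ sm {c} p = 1} :=
    isFace_eq (convex_poly _) {c} 1 (fun p hp => by rw [sm_single]; exact poly_le_one hp c)
  have hf2 : IsFace (poly 𝓑₀) {p | p ∈ poly 𝓑₀ ∧ sm J p = 3} := by
    apply isFace_eq (convex_poly _)
    intro p hp
    apply poly_le _ hp
    intro B hB
    have : (J ∩ B).card ≤ B.card := Finset.card_le_card Finset.inter_subset_right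
    rw [hk B hB] at this
    exact_mod_cast this
  have hf := hf1.inter hf2
  obtain ⟨G, hGdef⟩ : ∃ G, G = {p | p ∈ poly 𝓑₀ ∧ sm {c} p = 1} ∩ {p | p ∈ poly 𝓑₀ ∧ sm J p = 3} := ⟨_, rfl⟩
  rw [← hGdef] at hf
  have hin : ∀ T ∈ 𝓑₀, c ∈ T → T ⊆ J → ind T ∈ G := by
    intro T hT hcT hTJ
    rw [hGdef]
    refine ⟨⟨ind_mem_poly hT, ?_⟩, ⟨ind_mem_poly hT, ?_⟩⟩
    · rw [sm_single]; simp [ind, hcT]
    · rw [sm_ind, Finset.inter_eq_right.mpr hTJ, hk T hT]; norm_num
  have g1 : ind {c, w, x} ∈ G := hin _ m1 (by simp) (by rw [hJ]; intro i; simp only [Finset.mem_insert, Finset.mem_singleton]; tauto)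
  have g2 : ind {c, y, z} ∈ G := hin _ m2 (by simp) (by rw [hJ]; intro i; simp only [Finset.mem_insert, Finset.mem_singleton]; tauto)
  have hG : G ∈ 𝒞₀ := h0.face_mem _ hP _ hf ⟨_, g1⟩
  obtain ⟨m, hm⟩ : ∃ m : Fin n → ℝ, m = (1/2 : ℝ) • ind {c, w, x} + (1/2 : ℝ) • ind {c, y, z} := ⟨_, rfl⟩
  have hmG : m ∈ G := by
    rw [hm]; exact hf.1 g1 g2 (by norm_num) (by norm_num) (by norm_num)
  obtain ⟨C, hCm, hmC, hCG⟩ := cell_in hC h0 href hG hmG
  have hmc : m c = 1 := by rw [hm]; simp [ind]; norm_num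
  have hmw : m w = 1/2 := by rw [hm]; simp [ind, n6, n7, n1.symm]
  have hmx : m x = 1/2 := by rw [hm]; simp [ind, n8, n9, n2.symm]
  have hmy : m y = 1/2 := by rw [hm]; simp [ind, n6.symm, n8.symm, n3.symm]
  have hmz : m z = 1/2 := by rw [hm]; simp [ind, n7.symm, n9.symm, n4.symm]
  have hswx : sm {w, x} m = ((1 : ℕ) : ℝ) := by
    rw [sm, Finset.sum_pair n5, hmw, hmx]; norm_num
  have hswy : sm {w, y} m = ((1 : ℕ) : ℝ) := by
    rw [sm, Finset.sum_pair n6, hmw, hmy]; norm_num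
  have hshape : ∀ D ⊆ G, ∀ B ∈ vs D, B.card = 3 → c ∈ B ∧ B ⊆ J := by
    intro D hDG B hB hBc
    have h1 := hDG hB
    rw [hGdef] at h1
    obtain ⟨⟨_, h2⟩, ⟨_, h3⟩⟩ := h1
    constructor
    · rw [sm_single] at h2
      by_contra hn
      simp [ind, hn] at h2
    · rw [sm_ind] at h3
      have h4 : (J ∩ B).card = 3 := by exact_mod_cast h3
      have h5 : J ∩ B = B := by
        apply Finset.eq_of_subset_of_card_le Finset.inter_subset_right
        rw [h4, hBc]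
      exact Finset.inter_eq_right.mp h5
  -- generic step: a pair not together gives a hyperplane
  have hstep : ∀ (p q s t : Fin n), p ≠ q → ({c, p, q, s, t} : Finset (Fin n)) = J →
      c ≠ p → c ≠ q → p ≠ s → p ≠ t → q ≠ s → q ≠ t → s ≠ t → c ≠ s → c ≠ t →
      sm {p, q} m = ((1 : ℕ) : ℝ) → ¬ Tog 𝒞 {c, p, q} {c, s, t} → ∀ D ∈ 𝒞, D ⊆ G → m ∈ D →
      ∃ D' ∈ 𝒞, D' ⊆ D ∧ m ∈ D' ∧ ∀ B ∈ vs D', (({p, q} : Finset (Fin n)) ∩ B).card = 1 := by
    intro p q s t hpq hJ' q1 q2 q3 q4 q5 q6 q7 q8 q9 hsm hnt D hDm hDG hmD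
    obtain ⟨_, _, hcard⟩ := cell_spec hC hDm
    apply drop_le hC hDm hmD {p, q} 1 hsm
    by_cases h1 : {c, p, q} ∈ vs D
    · right
      intro B hB
      by_contra hlt
      have hz : (({p, q} : Finset (Fin n)) ∩ B).card = 0 := by omega
      rw [Finset.card_eq_zero] at hz
      have hpB : p ∉ B := by
        intro h
        have : p ∈ ({p, q} : Finset (Fin n)) ∩ B := by simp [h]
        rw [hz] at this; simp at this
      have hqB : q ∉ B := by
        intro h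
        have : q ∈ ({p, q} : Finset (Fin n)) ∩ B := by simp [h]
        rw [hz] at this; simp at this
      obtain ⟨hcB, hBJ⟩ := hshape D hDG B hB (hcard B hB)
      have : B = {c, s, t} := by
        apply Finset.eq_of_subset_of_card_le
        · intro i hi
          have hi2 := hBJ hi
          rw [← hJ'] at hi2
          simp only [Finset.mem_insert, Finset.mem_singleton] at hi2 ⊢
          rcases hi2 with h | h | h | h | h
          · exact Or.inl h
          · rw [h] at hi; exact absurd hi hpB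
          · rw [h] at hi; exact absurd hi hqB
          · exact Or.inr (Or.inl h)
          · exact Or.inr (Or.inr h)
        · rw [hcard B hB]; exact Finset.card_le_three
      rw [this] at hB
      exact hnt ⟨D, hDm, h1, hB⟩
    · left
      intro B hB
      by_contra hlt
      have hz : 2 ≤ (({p, q} : Finset (Fin n)) ∩ B).card := by omega
      have h2 : ({p, q} : Finset (Fin n)) ∩ B = {p, q} := by
        apply Finset.eq_of_subset_of_card_le Finset.inter_subset_left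
        rw [Finset.card_pair hpq]; exact hz
      have h3 := Finset.inter_eq_left.mp h2
      have hpB : p ∈ B := h3 (by simp)
      have hqB : q ∈ B := h3 (by simp)
      obtain ⟨hcB, hBJ⟩ := hshape D hDG B hB (hcard B hB)
      apply h1
      have : ({c, p, q} : Finset (Fin n)) = B := by
        apply Finset.eq_of_subset_of_card_le
        · intro i hi
          simp only [Finset.mem_insert, Finset.mem_singleton] at hi
          rcases hi with rfl | rfl | rfl
          · exact hcB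
          · exact hpB
          · exact hqB
        · rw [hcard B hB]
          rw [Finset.card_insert_of_notMem, Finset.card_pair hpq]
          simp [q1, q2]
      rw [this]; exact hB
  obtain ⟨D1, hD1m, hD1C, hmD1, hD1⟩ := hstep w x y z n5 (by rw [hJ]) n1 n2 n6 n7 n8 n9 n10 n3 n4 hswx
    hcon1 C hCm hCG hmC
  obtain ⟨D2, hD2m, hD2C, hmD2, hD2⟩ := hstep w y x z n6
    (by rw [hJ]; ext i; simp only [Finset.mem_insert, Finset.mem_singleton]; tauto) n1 n3 n5 n7 n8.symm n10 n9 n2 n4 hswy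
    hcon2 D1 hD1m (hD1C.trans hCG) hmD1
  obtain ⟨hpoly, hexch, hcard⟩ := cell_spec hC hD2m
  have hsub2 : ∀ B ∈ vs D2, B ∈ vs D1 := fun B hB => hD2C hB
  -- the only possible members are cwz and cxy
  have honly : ∀ B ∈ vs D2, (w ∈ B → x ∉ B ∧ y ∉ B) ∧ (w ∉ B → x ∈ B ∧ y ∈ B) := by
    intro B hB
    have e1 := hD1 B (hsub2 B hB)
    have e2 := hD2 B hB
    constructor
    · intro hw
      constructor
      · intro hx
        have : ({w, x} : Finset (Fin n)) ∩ B = {w, x} := by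
          apply Finset.inter_eq_left.mpr
          intro i hi
          simp only [Finset.mem_insert, Finset.mem_singleton] at hi
          rcases hi with rfl | rfl <;> assumption
        rw [this, Finset.card_pair n5] at e1
        omega
      · intro hy
        have : ({w, y} : Finset (Fin n)) ∩ B = {w, y} := by
          apply Finset.inter_eq_left.mpr
          intro i hi
          simp only [Finset.mem_insert, Finset.mem_singleton] at hi
          rcases hi with rfl | rfl <;> assumption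
        rw [this, Finset.card_pair n6] at e2
        omega
    · intro hw
      constructor
      · by_contra hx
        have : ({w, x} : Finset (Fin n)) ∩ B = ∅ := by
          ext i
          simp only [Finset.mem_inter, Finset.mem_insert, Finset.mem_singleton, Finset.notMem_empty,
            iff_false, not_and]
          rintro (rfl | rfl) <;> assumption
        rw [this] at e1
        simp at e1
      · by_contra hy
        have : ({w, y} : Finset (Fin n)) ∩ B = ∅ := by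
          ext i
          simp only [Finset.mem_inter, Finset.mem_insert, Finset.mem_singleton, Finset.notMem_empty,
            iff_false, not_and]
          rintro (rfl | rfl) <;> assumption
        rw [this] at e2
        simp at e2
  have hmD2' := hmD2
  rw [hpoly] at hmD2'
  obtain ⟨B₁, hB₁, hwB₁⟩ := exists_mem_of_pos hmD2' (i := w) (by rw [hmw]; norm_num)
  obtain ⟨B₂, hB₂, hxB₂⟩ := exists_mem_of_pos hmD2' (i := x) (by rw [hmx]; norm_num)
  have hwB₂ : w ∉ B₂ := fun h => ((honly B₂ hB₂).1 h).1 hxB₂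
  have hyB₂ : y ∈ B₂ := ((honly B₂ hB₂).2 hwB₂).2
  obtain ⟨b, hb, hb', hbm⟩ := hexch B₁ hB₁ B₂ hB₂ w hwB₁ hwB₂
  have hw' : w ∉ insert b (B₁.erase w) := by
    intro h
    rw [Finset.mem_insert, Finset.mem_erase] at h
    rcases h with h | h
    · rw [← h] at hb; exact hwB₂ hb
    · exact h.1 rfl
  obtain ⟨hx', hy'⟩ := (honly _ hbm).2 hw'
  obtain ⟨hx1, hy1⟩ := (honly B₁ hB₁).1 hwB₁
  rw [Finset.mem_insert, Finset.mem_erase] at hx' hy'
  have hxb : x = b := by
    rcases hx' with h | h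
    · exact h
    · exact absurd h.2 hx1
  have hyb : y = b := by
    rcases hy' with h | h
    · exact h
    · exact absurd h.2 hy1
  exact n8 (hxb.trans hyb.symm)

end Pool.Agent.MatSub
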