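import Mathlib
import Pool.Agent.Lib.MP_6a4d09_co.Base
import Pool.Agent.Lib.MP_6a4d09_co.Swap

set_option autoImplicit false
set_option maxRecDepth 100000

namespace Pool.Agent.MatSub

open Set

/-! ### The transport chain -/

instance decFam (cs : List (ℕ × ℕ)) (B : Finset (Fin 9)) : Decidable (B ∈ fam cs) :=
  decidable_of_iff _ (inF_iff cs B)

/-- the big piece is a cell of the base subdivision -/
lemma P0_mem : poly (fam cSuf0) ∈ C0 :=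
  ⟨⟨ind {7, 0, 3}, ind_mem_poly (by decide +kernel)⟩, 0, IsFace.refl (convex_poly _)⟩

variable {𝒞 : Set (Set (Fin 9 → ℝ))}

lemma stepP (hC : IsMatroidSubdivision (hypersimplex 3 9) 𝒞) (href : Refines 𝒞 C0)
    (c u u' : Fin 9) (T₁ T₂ S₁ S₂ : Finset (Fin 9))
    (hd : c ≠ u ∧ c ≠ u' ∧ u ≠ u' ∧ ({c, u, u'} : Finset (Fin 9)) ∉ fam cSuf0 ∧
      c ∈ T₁ ∧ c ∈ T₂ ∧ u ∈ T₁ ∧ u' ∉ T₁ ∧ u' ∉ T₂ ∧ T₁ ∈ fam cSuf0 ∧ T₂ ∈ fam cSuf0 ∧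
      S₁ ∈ fam cSuf0 ∧ S₂ ∈ fam cSuf0 ∧ sw u u' T₁ = S₁ ∧ sw u u' T₂ = S₂)
    (htog : Tog 𝒞 T₁ T₂) : Tog 𝒞 S₁ S₂ := by
  obtain ⟨d1, d2, d3, d4, d5, d6, d7, d8, d9, d10, d11, d12, d13, d14, d15⟩ := hd
  rw [← d14, ← d15]
  exact togP hC base href P0_mem (fun B hB => hB.1) d1 d2 d3 d4 d5 d6 d7 d8 d9 d10 d11
    (by rw [d14]; exact d12) (by rw [d15]; exact d13) htog

lemma stepQ (hC : IsMatroidSubdivision (hypersimplex 3 9) 𝒞) (href : Refines 𝒞 C0)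
    (m : ℕ) (hm : (m, 2) ∈ cSuf0)
    (u u' : Fin 9) (T₁ T₂ S₁ S₂ : Finset (Fin 9))
    (hd : u ∉ fs m ∧ u' ∉ fs m ∧ u ≠ u' ∧
      u ∈ T₁ ∧ u' ∉ T₁ ∧ u' ∉ T₂ ∧ T₁ ∈ fam cSuf0 ∧ T₂ ∈ fam cSuf0 ∧
      S₁ ∈ fam cSuf0 ∧ S₂ ∈ fam cSuf0 ∧ (fs m ∩ T₁).card = 2 ∧ (fs m ∩ T₂).card = 2 ∧
      (fs m ∩ S₁).card = 2 ∧ (fs m ∩ S₂).card = 2 ∧ sw u u' T₁ = S₁ ∧ sw u u' T₂ = S₂)
    (htog : Tog 𝒞 T₁ T₂) : Tog 𝒞 S₁ S₂ := by
  obtain ⟨d1, d2, d3, d4, d5, d6, d7, d8, d9, d10, d11, d12, d13, d14, d15, d16⟩ := hd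
  rw [← d15, ← d16]
  exact togQ hC base href P0_mem (fun B hB => hB.2 _ hm) d1 d2 d3 d4 d5 d6 d7 d8
    (by rw [d15]; exact d9) (by rw [d16]; exact d10) d11 d12 (by rw [d15]; exact d13)
    (by rw [d16]; exact d14) htog

lemma chain3 (hC : IsMatroidSubdivision (hypersimplex 3 9) 𝒞) (href : Refines 𝒞 C0)
    (h : Tog 𝒞 {7, 0, 3} {7, 1, 2}) : Tog 𝒞 {7, 0, 1} {7, 2, 3} := by
  replace h : Tog 𝒞 {8, 0, 3} {8, 1, 2} := stepQ hC href 15 (by decide) 7 8 {7, 0, 3} {7, 1, 2} _ _ (by decide +kernel) h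
  replace h : Tog 𝒞 {8, 0, 4} {8, 1, 2} := stepP hC href 8 3 4 {8, 0, 3} {8, 1, 2} _ _ (by decide +kernel) h
  replace h : Tog 𝒞 {8, 0, 4} {8, 5, 2} := (stepP hC href 8 1 5 {8, 1, 2} {8, 0, 4} _ _ (by decide +kernel) h.symm).symm
  replace h : Tog 𝒞 {8, 0, 4} {8, 5, 6} := (stepP hC href 8 2 6 {8, 5, 2} {8, 0, 4} _ _ (by decide +kernel) h.symm).symm
  replace h : Tog 𝒞 {7, 0, 4} {7, 5, 6} := stepQ hC href 113 (by decide) 8 7 {8, 0, 4} {8, 5, 6} _ _ (by decide +kernel) h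
  replace h : Tog 𝒞 {7, 0, 1} {7, 5, 6} := stepP hC href 7 4 1 {7, 0, 4} {7, 5, 6} _ _ (by decide +kernel) h
  replace h : Tog 𝒞 {7, 0, 1} {7, 2, 6} := (stepP hC href 7 5 2 {7, 5, 6} {7, 0, 1} _ _ (by decide +kernel) h.symm).symm
  replace h : Tog 𝒞 {7, 0, 1} {7, 2, 3} := (stepP hC href 7 6 3 {7, 2, 6} {7, 0, 1} _ _ (by decide +kernel) h.symm).symm
  exact h

lemma chain1 (hC : IsMatroidSubdivision (hypersimplex 3 9) 𝒞) (href : Refines 𝒞 C0)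
    (h : Tog 𝒞 {7, 0, 1} {7, 2, 3}) : Tog 𝒞 {7, 0, 2} {7, 3, 1} := by
  replace h : Tog 𝒞 {8, 0, 1} {8, 2, 3} := stepQ hC href 15 (by decide) 7 8 {7, 0, 1} {7, 2, 3} _ _ (by decide +kernel) h
  replace h : Tog 𝒞 {8, 0, 5} {8, 2, 3} := stepP hC href 8 1 5 {8, 0, 1} {8, 2, 3} _ _ (by decide +kernel) h
  replace h : Tog 𝒞 {8, 0, 5} {8, 6, 3} := (stepP hC href 8 2 6 {8, 2, 3} {8, 0, 5} _ _ (by decide +kernel) h.symm).symm
  replace h : Tog 𝒞 {8, 0, 5} {8, 6, 4} := (stepP hC href 8 3 4 {8, 6, 3} {8, 0, 5} _ _ (by decide +kernel) h.symm).symm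
  replace h : Tog 𝒞 {7, 0, 5} {7, 6, 4} := stepQ hC href 113 (by decide) 8 7 {8, 0, 5} {8, 6, 4} _ _ (by decide +kernel) h
  replace h : Tog 𝒞 {7, 0, 2} {7, 6, 4} := stepP hC href 7 5 2 {7, 0, 5} {7, 6, 4} _ _ (by decide +kernel) h
  replace h : Tog 𝒞 {7, 0, 2} {7, 3, 4} := (stepP hC href 7 6 3 {7, 6, 4} {7, 0, 2} _ _ (by decide +kernel) h.symm).symm
  replace h : Tog 𝒞 {7, 0, 2} {7, 3, 1} := (stepP hC href 7 4 1 {7, 3, 4} {7, 0, 2} _ _ (by decide +kernel) h.symm).symm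
  exact h

lemma chain2 (hC : IsMatroidSubdivision (hypersimplex 3 9) 𝒞) (href : Refines 𝒞 C0)
    (h : Tog 𝒞 {7, 0, 2} {7, 3, 1}) : Tog 𝒞 {7, 0, 3} {7, 1, 2} := by
  replace h : Tog 𝒞 {8, 0, 2} {8, 3, 1} := stepQ hC href 15 (by decide) 7 8 {7, 0, 2} {7, 3, 1} _ _ (by decide +kernel) h
  replace h : Tog 𝒞 {8, 0, 6} {8, 3, 1} := stepP hC href 8 2 6 {8, 0, 2} {8, 3, 1} _ _ (by decide +kernel) h
  replace h : Tog 𝒞 {8, 0, 6} {8, 4, 1} := (stepP hC href 8 3 4 {8, 3, 1} {8, 0, 6} _ _ (by decide +kernel) h.symm).symm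
  replace h : Tog 𝒞 {8, 0, 6} {8, 4, 5} := (stepP hC href 8 1 5 {8, 4, 1} {8, 0, 6} _ _ (by decide +kernel) h.symm).symm
  replace h : Tog 𝒞 {7, 0, 6} {7, 4, 5} := stepQ hC href 113 (by decide) 8 7 {8, 0, 6} {8, 4, 5} _ _ (by decide +kernel) h
  replace h : Tog 𝒞 {7, 0, 3} {7, 4, 5} := stepP hC href 7 6 3 {7, 0, 6} {7, 4, 5} _ _ (by decide +kernel) h
  replace h : Tog 𝒞 {7, 0, 3} {7, 1, 5} := (stepP hC href 7 4 1 {7, 4, 5} {7, 0, 3} _ _ (by decide +kernel) h.symm).symm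
  replace h : Tog 𝒞 {7, 0, 3} {7, 1, 2} := (stepP hC href 7 5 2 {7, 1, 5} {7, 0, 3} _ _ (by decide +kernel) h.symm).symm
  exact h


/-- all three diagonals of the octahedron at 7 lie in cells -/
lemma all_diag (hC : IsMatroidSubdivision (hypersimplex 3 9) 𝒞) (href : Refines 𝒞 C0) :
    Tog 𝒞 {7, 0, 1} {7, 2, 3} ∧ Tog 𝒞 {7, 0, 2} {7, 3, 1} ∧ Tog 𝒞 {7, 0, 3} {7, 1, 2} := by
  have h : Tog 𝒞 {7, 0, 1} {7, 2, 3} ∨ Tog 𝒞 {7, 0, 2} {7, 1, 3} :=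
    octa hC base href P0_mem (c := 7) (w := 0) (x := 1) (y := 2) (z := 3) (by decide) (by decide)
      (by decide) (by decide) (by decide) (by decide) (by decide) (by decide) (by decide)
      (by decide) (fun B hB => hB.1) (by decide +kernel) (by decide +kernel) (by decide +kernel)
      (by decide +kernel) (by decide +kernel) (by decide +kernel)
  rcases h with h | h
  · have h2 := chain1 hC href h
    have h3 := chain2 hC href h2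
    exact ⟨h, h2, h3⟩
  · have e : ({7, 1, 3} : Finset (Fin 9)) = {7, 3, 1} := by decide
    rw [e] at h
    have h3 := chain2 hC href h
    have h1 := chain3 hC href h3
    exact ⟨h1, h, h3⟩


/-- moving the diagonals to any centre -/
lemma diag_at (hC : IsMatroidSubdivision (hypersimplex 3 9) 𝒞) (href : Refines 𝒞 C0) :
    ∀ c : Fin 9, (c = 4 ∨ c = 5 ∨ c = 6 ∨ c = 7 ∨ c = 8) →
      Tog 𝒞 {c, 0, 1} {c, 2, 3} ∧ Tog 𝒞 {c, 0, 2} {c, 3, 1} ∧ Tog 𝒞 {c, 0, 3} {c, 1, 2} := by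
  obtain ⟨h1, h2, h3⟩ := all_diag hC href
  rintro c (rfl | rfl | rfl | rfl | rfl)
  · exact ⟨stepQ hC href 15 (by decide) 7 4 _ _ _ _ (by decide +kernel) h1,
      stepQ hC href 15 (by decide) 7 4 _ _ _ _ (by decide +kernel) h2,
      stepQ hC href 15 (by decide) 7 4 _ _ _ _ (by decide +kernel) h3⟩
  · exact ⟨stepQ hC href 15 (by decide) 7 5 _ _ _ _ (by decide +kernel) h1,
      stepQ hC href 15 (by decide) 7 5 _ _ _ _ (by decide +kernel) h2,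
      stepQ hC href 15 (by decide) 7 5 _ _ _ _ (by decide +kernel) h3⟩
  · exact ⟨stepQ hC href 15 (by decide) 7 6 _ _ _ _ (by decide +kernel) h1,
      stepQ hC href 15 (by decide) 7 6 _ _ _ _ (by decide +kernel) h2,
      stepQ hC href 15 (by decide) 7 6 _ _ _ _ (by decide +kernel) h3⟩
  · exact ⟨h1, h2, h3⟩
  · exact ⟨stepQ hC href 15 (by decide) 7 8 _ _ _ _ (by decide +kernel) h1,
      stepQ hC href 15 (by decide) 7 8 _ _ _ _ (by decide +kernel) h2,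
      stepQ hC href 15 (by decide) 7 8 _ _ _ _ (by decide +kernel) h3⟩

end Pool.Agent.MatSub
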