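import Mathlib
import Pool.Agent.Lib.MP_6a4d09_co.Chain

set_option autoImplicit false
set_option maxRecDepth 100000

namespace Pool.Agent.MatSub

open Set

variable {𝒞 : Set (Set (Fin 9 → ℝ))}

/-! ### The point `f` and the cells containing it -/

/-- barycentre of the thirty triples meeting `{0,1,2,3}` in two elements -/
noncomputable def fpt : Fin 9 → ℝ := ![1/2, 1/2, 1/2, 1/2, 1/5, 1/5, 1/5, 1/5, 1/5]

/-- the thirty triples -/
def good (B : Finset (Fin 9)) : Prop := B.card = 3 ∧ (fs 15 ∩ B).card = 2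

instance (B : Finset (Fin 9)) : Decidable (good B) := by unfold good; infer_instance

/-- the weights -/
noncomputable def gw (B : Finset (Fin 9)) : ℝ := if good B then 1/30 else 0

lemma card_good : ((Finset.univ : Finset (Finset (Fin 9))).filter good).card = 30 := by
  decide +kernel

lemma card_good_in (i : Fin 9) : ((Finset.univ : Finset (Finset (Fin 9))).filter
    (fun B => good B ∧ i ∈ B)).card = if i < 4 then 15 else 6 := by
  revert i
  decide +kernel

lemma fpt_rep {𝓑 : Set (Finset (Fin 9))} (h : ∀ B, good B → B ∈ 𝓑) : Rep 𝓑 fpt gw := by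
  refine ⟨?_, ?_, ?_, ?_⟩
  · intro B; unfold gw; split_ifs <;> norm_num
  · intro B hB; unfold gw; rw [if_neg (fun hg => hB (h B hg))]
  · unfold gw
    rw [← Finset.sum_filter, Finset.sum_const, card_good]
    norm_num
  · funext i
    rw [Finset.sum_apply]
    have e : ∀ B : Finset (Fin 9), (gw B • ind B) i = if (good B ∧ i ∈ B) then 1/30 else 0 := by
      intro B
      unfold gw ind
      by_cases h1 : good B <;> by_cases h2 : i ∈ B <;> simp [h1, h2]
    simp_rw [e]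
    rw [← Finset.sum_filter, Finset.sum_const, card_good_in]
    fin_cases i <;> simp [fpt] <;> norm_num

lemma good_P0 : ∀ B, good B → B ∈ fam cSuf0 := by decide +kernel

lemma good_Qp : ∀ B, good B → B ∈ fam cQp := by decide +kernel

/-- the face of the big piece on which the sum over `{0,1,2,3}` is 2 -/
def G1 : Set (Fin 9 → ℝ) := {x | x ∈ poly (fam cSuf0) ∧ sm (fs 15) x = 2}

lemma fpt_G1 : fpt ∈ G1 := by
  refine ⟨rep_mem (fpt_rep good_P0), ?_⟩
  rw [sm15]; simp [fpt]; norm_num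

lemma G1_mem : G1 ∈ C0 := by
  refine ⟨⟨fpt, fpt_G1⟩, 0, ?_⟩
  apply isFace_eq (convex_poly _) (fs 15) 2
  intro x hx
  have hx' : x ∈ poly (fam cSuf0) := hx
  rw [← rgSuf0] at hx'
  exact ((reg_iffSuf0 x).mp hx').2.1

lemma tog_mem (hC : IsMatroidSubdivision (hypersimplex 3 9) 𝒞) {C' : Set (Fin 9 → ℝ)}
    (hC' : C' ∈ 𝒞) {T₁ T₂ : Finset (Fin 9)}
    (hm : (1/2 : ℝ) • ind T₁ + (1/2 : ℝ) • ind T₂ ∈ C') (htog : Tog 𝒞 T₁ T₂) :
    ind T₁ ∈ C' ∧ ind T₂ ∈ C' := by
  obtain ⟨D, hD, h1, h2⟩ := htog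
  have hDconv : Convex ℝ D := by
    rw [(cell_spec hC hD).1]; exact convex_poly _
  have hf := hC.inter D hD C' hC'
  have hmD : (1/2 : ℝ) • ind T₁ + (1/2 : ℝ) • ind T₂ ∈ D :=
    hDconv h1 h2 (by norm_num) (by norm_num) (by norm_num)
  have hseg : (1/2 : ℝ) • ind T₁ + (1/2 : ℝ) • ind T₂ ∈ openSegment ℝ (ind T₁) (ind T₂) :=
    ⟨1/2, 1/2, by norm_num, by norm_num, by norm_num, rfl⟩
  exact ⟨(hf.2.left_mem_of_mem_openSegment h1 h2 ⟨hmD, hm⟩ hseg).2,
    (hf.2.right_mem_of_mem_openSegment h1 h2 ⟨hmD, hm⟩ hseg).2⟩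

/-- the point with all centre weight on `c` -/
noncomputable def mpt (c : Fin 9) : Fin 9 → ℝ := fun i => if i < 4 then 1/2 else if i = c then 1 else 0

lemma mpt_in (hC : IsMatroidSubdivision (hypersimplex 3 9) 𝒞) {C' : Set (Fin 9 → ℝ)}
    (hC' : C' ∈ 𝒞) (hf : fpt ∈ C') (hG : C' ⊆ G1) :
    ∀ c : Fin 9, (c = 4 ∨ c = 5 ∨ c = 6 ∨ c = 7 ∨ c = 8) → mpt c ∈ C' := by
  obtain ⟨hpoly, hexch, hcard⟩ := cell_spec hC hC'
  have hL : ∀ B ∈ vs C', (fs 15 ∩ B).card = 2 := by
    intro B hB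
    have := (hG hB).2
    rw [sm_ind] at this
    exact_mod_cast this
  have hf' := hf
  rw [hpoly] at hf'
  have hex : ∀ c : Fin 9, (c = 4 ∨ c = 5 ∨ c = 6 ∨ c = 7 ∨ c = 8) → ∃ B ∈ vs C', c ∈ B := by
    intro c hc
    apply exists_mem_of_pos hf'
    rcases hc with rfl | rfl | rfl | rfl | rfl <;> simp [fpt]
  have hmv : ∀ u u' : Fin 9, (u = 4 ∨ u = 5 ∨ u = 6 ∨ u = 7 ∨ u = 8) →
      (u' = 4 ∨ u' = 5 ∨ u' = 6 ∨ u' = 7 ∨ u' = 8) → u ≠ u' → ∀ x ∈ C', mv u u' x ∈ C' := by
    intro u u' hu hu' huu x hx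
    have n1 : u ∉ fs 15 := by rcases hu with rfl | rfl | rfl | rfl | rfl <;> decide
    have n2 : u' ∉ fs 15 := by rcases hu' with rfl | rfl | rfl | rfl | rfl <;> decide
    obtain ⟨s1, s2⟩ := swapQ hexch hcard n1 n2 huu hL (hex u' hu')
    exact mv_mem hpoly huu s1 s2 hx
  rintro c (rfl | rfl | rfl | rfl | rfl)
  · have h := hmv 5 4 (by simp) (by simp) (by decide) _ (hmv 6 4 (by simp) (by simp) (by decide) _
      (hmv 7 4 (by simp) (by simp) (by decide) _ (hmv 8 4 (by simp) (by simp) (by decide) _ hf)))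
    convert h using 1
    funext i
    fin_cases i <;> simp [mpt, mv, fpt] <;> norm_num
  · have h := hmv 4 5 (by simp) (by simp) (by decide) _ (hmv 6 5 (by simp) (by simp) (by decide) _
      (hmv 7 5 (by simp) (by simp) (by decide) _ (hmv 8 5 (by simp) (by simp) (by decide) _ hf)))
    convert h using 1
    funext i
    fin_cases i <;> simp [mpt, mv, fpt] <;> norm_num
  · have h := hmv 4 6 (by simp) (by simp) (by decide) _ (hmv 5 6 (by simp) (by simp) (by decide) _
      (hmv 7 6 (by simp) (by simp) (by decide) _ (hmv 8 6 (by simp) (by simp) (by decide) _ hf)))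
    convert h using 1
    funext i
    fin_cases i <;> simp [mpt, mv, fpt] <;> norm_num
  · have h := hmv 4 7 (by simp) (by simp) (by decide) _ (hmv 5 7 (by simp) (by simp) (by decide) _
      (hmv 6 7 (by simp) (by simp) (by decide) _ (hmv 8 7 (by simp) (by simp) (by decide) _ hf)))
    convert h using 1
    funext i
    fin_cases i <;> simp [mpt, mv, fpt] <;> norm_num
  · have h := hmv 4 8 (by simp) (by simp) (by decide) _ (hmv 5 8 (by simp) (by simp) (by decide) _
      (hmv 6 8 (by simp) (by simp) (by decide) _ (hmv 7 8 (by simp) (by simp) (by decide) _ hf)))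
    convert h using 1
    funext i
    fin_cases i <;> simp [mpt, mv, fpt] <;> norm_num

lemma good_form : ∀ B : Finset (Fin 9), good B → ∃ c : Fin 9, (c = 4 ∨ c = 5 ∨ c = 6 ∨ c = 7 ∨ c = 8) ∧
    (B = {c, 0, 1} ∨ B = {c, 2, 3} ∨ B = {c, 0, 2} ∨ B = {c, 3, 1} ∨ B = {c, 0, 3} ∨ B = {c, 1, 2}) := by
  decide +kernel

/-- some cell in `G1` contains all thirty vertices -/
lemma thirty (hC : IsMatroidSubdivision (hypersimplex 3 9) 𝒞) (href : Refines 𝒞 C0) :
    ∃ C' ∈ 𝒞, fpt ∈ C' ∧ ∀ B, good B → B ∈ vs C' := by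
  obtain ⟨C', hC'm, hfC', hC'G⟩ := cell_in hC base href G1_mem fpt_G1
  refine ⟨C', hC'm, hfC', ?_⟩
  intro B hB
  obtain ⟨c, hc, hBc⟩ := good_form B hB
  have hm := mpt_in hC hC'm hfC' hC'G c hc
  obtain ⟨t1, t2, t3⟩ := diag_at hC href c hc
  have e1 : (1/2 : ℝ) • ind {c, 0, 1} + (1/2 : ℝ) • ind {c, 2, 3} = mpt c := by
    funext i
    rcases hc with rfl | rfl | rfl | rfl | rfl <;> fin_cases i <;> simp [mpt, ind] <;> norm_num
  have e2 : (1/2 : ℝ) • ind {c, 0, 2} + (1/2 : ℝ) • ind {c, 3, 1} = mpt c := by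
    funext i
    rcases hc with rfl | rfl | rfl | rfl | rfl <;> fin_cases i <;> simp [mpt, ind] <;> norm_num
  have e3 : (1/2 : ℝ) • ind {c, 0, 3} + (1/2 : ℝ) • ind {c, 1, 2} = mpt c := by
    funext i
    rcases hc with rfl | rfl | rfl | rfl | rfl <;> fin_cases i <;> simp [mpt, ind] <;> norm_num
  have k1 := tog_mem hC hC'm (by rw [e1]; exact hm) t1
  have k2 := tog_mem hC hC'm (by rw [e2]; exact hm) t2
  have k3 := tog_mem hC hC'm (by rw [e3]; exact hm) t3
  rcases hBc with h | h | h | h | h | h <;> rw [h]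
  · exact k1.1
  · exact k1.2
  · exact k2.1
  · exact k2.2
  · exact k3.1
  · exact k3.2

/-- every cell through `f` contains the thirty vertices -/
lemma all_cells (hC : IsMatroidSubdivision (hypersimplex 3 9) 𝒞) (href : Refines 𝒞 C0)
    {D : Set (Fin 9 → ℝ)} (hD : D ∈ 𝒞) (hf : fpt ∈ D) : ∀ B, good B → B ∈ vs D := by
  obtain ⟨C', hC'm, hfC', hall⟩ := thirty hC href
  intro B hB
  have hface := hC.inter C' hC'm D hD
  have hpoly := (cell_spec hC hC'm).1
  rw [hpoly] at hface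
  have hfx : fpt ∈ poly (vs C') ∩ D := ⟨by rw [← hpoly]; exact hfC', hf⟩
  have := supp_mem_face hface hfx (fpt_rep hall) (B := B) (by unfold gw; rw [if_pos hB]; norm_num)
  exact this.2

/-! ### The point `z` and its cell -/

/-- points on the segment from `f` to a vertex inside the line -/
noncomputable def zpt (t : ℝ) : Fin 9 → ℝ := (1 - t) • fpt + t • ind {0, 1, 2}

lemma zpt_apply (t : ℝ) (i : Fin 9) : zpt t i = (1 - t) * fpt i + t * ind {0, 1, 2} i := rfl

lemma exists_t (hC : IsMatroidSubdivision (hypersimplex 3 9) 𝒞) :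
    ∃ t : ℝ, 0 < t ∧ t < 1/10 ∧ ∀ D ∈ 𝒞, zpt t ∈ D → fpt ∈ D := by
  have hclosed : ∀ D ∈ 𝒞, IsClosed D := by
    intro D hD
    rw [(cell_spec hC hD).1]
    exact ((Set.toFinite (vs D)).image _).isClosed_convexHull ℝ
  have hcont : Continuous zpt := by
    unfold zpt
    fun_prop
  have h0 : zpt 0 = fpt := by
    funext i; rw [zpt_apply]; ring
  have hev : ∀ D ∈ 𝒞, ∀ᶠ t in nhds (0 : ℝ), zpt t ∈ D → fpt ∈ D := by
    intro D hD
    by_cases hf : fpt ∈ D
    · exact Filter.Eventually.of_forall (fun _ _ => hf)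
    · have hopen : IsOpen Dᶜ := (hclosed D hD).isOpen_compl
      have h1 : ∀ᶠ t in nhds (0 : ℝ), zpt t ∈ Dᶜ := by
        apply hcont.continuousAt.eventually_mem
        rw [h0]
        exact hopen.mem_nhds hf
      filter_upwards [h1] with t ht h2
      exact absurd h2 ht
  have hall : ∀ᶠ t in nhds (0 : ℝ), ∀ D ∈ 𝒞, zpt t ∈ D → fpt ∈ D :=
    (Filter.eventually_all_finite hC.finite).mpr hev
  rw [Metric.eventually_nhds_iff] at hall
  obtain ⟨ε, hε, hall⟩ := hall
  refine ⟨min (ε / 2) (1 / 20), by positivity, ?_, ?_⟩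
  · have := min_le_right (ε / 2) (1 / 20 : ℝ)
    linarith
  · apply hall
    have h1 : 0 < min (ε / 2) (1 / 20 : ℝ) := by positivity
    have h2 := min_le_left (ε / 2) (1 / 20 : ℝ)
    rw [Real.dist_eq, sub_zero, abs_of_pos h1]
    linarith

/-- cells through `z` lie in the piece `Q'` -/
lemma z_cell (hC : IsMatroidSubdivision (hypersimplex 3 9) 𝒞) (href : Refines 𝒞 C0) {t : ℝ}
    (ht0 : 0 < t) (ht1 : t < 1/10) {D : Set (Fin 9 → ℝ)} (hD : D ∈ 𝒞) (hz : zpt t ∈ D) :
    D ⊆ poly (fam cQp) := by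
  obtain ⟨E, ⟨_, i, hE⟩, hDE⟩ := href D hD
  have hDi : D ⊆ poly (fml i) := hDE.trans hE.2.subset
  have hzi := hDi hz
  have hi : i = 9 := by
    have hpc : zpt t ∈ {x | x ∈ hypersimplex 3 9 ∧ ∀ j, hh j x ≤ hh i x} := by
      have hQ : {x | x ∈ hypersimplex 3 9 ∧ ∀ j, hh j x ≤ hh i x} = poly (fml i) := by
        fin_cases i
        · exact pcSuf0
        · exact pcLn2
        · exact pcLn3
        · exact pcLn4
        · exact pcLn5
        · exact pcLn6
        · exact pcLn7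
        · exact pcLn8
        · exact pcLn9
        · exact pcQp
        · exact pcQpp
      rw [hQ]; exact hzi
    have h9 := hpc.2 9
    have e9 : hh 9 (zpt t) = t := by
      simp only [hh]
      simp [sm15, zpt_apply, fpt, ind]
      ring
    rw [e9] at h9
    by_contra hne
    revert h9
    fin_cases i
    · simp [hh]; linarith
    · simp [hh, sm113, zpt_apply, fpt, ind]; linarith
    · simp [hh, sm385, zpt_apply, fpt, ind]; linarith
    · simp [hh, sm146, zpt_apply, fpt, ind]; linarith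
    · simp [hh, sm164, zpt_apply, fpt, ind]; linarith
    · simp [hh, sm200, zpt_apply, fpt, ind]; linarith
    · simp [hh, sm290, zpt_apply, fpt, ind]; linarith
    · simp [hh, sm324, zpt_apply, fpt, ind]; linarith
    · simp [hh, sm280, zpt_apply, fpt, ind]; linarith
    · exact absurd rfl hne
    · simp [hh, sm15, sm14, zpt_apply, fpt, ind]; linarith
  rw [hi] at hDi
  exact hDi

lemma inside : ∀ B : Finset (Fin 9), B ∈ fam cQp → 3 ≤ (fs 15 ∩ B).card →
    (B = {0, 1, 2} ∨ B = {0, 1, 3} ∨ B = {0, 2, 3}) := by decide +kernel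

lemma Qp_form : ∀ B : Finset (Fin 9), B ∈ fam cQp →
    (good B ∨ B = {0, 1, 2} ∨ B = {0, 1, 3} ∨ B = {0, 2, 3}) := by decide +kernel

/-- the exchange step: from `{0,i,j}` to `{0,i,k}` -/
lemma exch_step {V : Set (Finset (Fin 9))} (hex : Exch V) (hQ : ∀ B ∈ V, B ∈ fam cQp)
    (i j k : Fin 9) (h1 : ({0, i, j} : Finset (Fin 9)) ∈ V) (h2 : ({i, k, 4} : Finset (Fin 9)) ∈ V)
    (hd : (4 : Fin 9) ≠ i ∧ (4 : Fin 9) ≠ j ∧ (insert j (({i, k, 4} : Finset (Fin 9)).erase 4)) ∉ fam cQp ∧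
      i ∈ ({i, k, 4} : Finset (Fin 9)) ∧
      insert 0 (({i, k, 4} : Finset (Fin 9)).erase 4) = ({0, i, k} : Finset (Fin 9))) :
    ({0, i, k} : Finset (Fin 9)) ∈ V := by
  obtain ⟨d1, d2, d3, d4, d5⟩ := hd
  obtain ⟨b, hb, hb', hbm⟩ := hex _ h2 _ h1 4 (by simp) (by simp [d1, d2])
  simp only [Finset.mem_insert, Finset.mem_singleton] at hb
  rcases hb with rfl | rfl | rfl
  · rw [← d5]; exact hbm
  · exact absurd d4 hb'
  · exact absurd (hQ _ hbm) d3

/-- the cell through `z` is the whole piece `Q'` -/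
lemma z_cell_eq (hC : IsMatroidSubdivision (hypersimplex 3 9) 𝒞) (href : Refines 𝒞 C0) {t : ℝ}
    (ht0 : 0 < t) (ht1 : t < 1/10) {D : Set (Fin 9 → ℝ)} (hD : D ∈ 𝒞) (hz : zpt t ∈ D)
    (hf : fpt ∈ D) : D = poly (fam cQp) := by
  have hsub := z_cell hC href ht0 ht1 hD hz
  apply Subset.antisymm hsub
  obtain ⟨hpoly, hexch, hcard⟩ := cell_spec hC hD
  have hQ : ∀ B ∈ vs D, B ∈ fam cQp := by
    intro B hB
    exact mem_of_ind_mem (fun T hT => hT.1) (hcard B hB) (hsub hB)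
  have hgood := all_cells hC href hD hf
  have hline : ∃ B ∈ vs D, 3 ≤ (fs 15 ∩ B).card := by
    by_contra hcon
    push Not at hcon
    have h1 : sm (fs 15) (zpt t) ≤ 2 := by
      apply poly_le (𝓑 := vs D)
      · intro B hB
        have := hcon B hB
        have : (fs 15 ∩ B).card ≤ 2 := by omega
        exact_mod_cast this
      · rw [← hpoly]; exact hz
    rw [sm15] at h1
    simp [zpt_apply, fpt, ind] at h1
    linarith
  obtain ⟨B, hB, hB3⟩ := hline
  have hmem : ∀ T, good T → T ∈ vs D := hgood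
  have e21 : ({0, 2, 1} : Finset (Fin 9)) = {0, 1, 2} := by decide
  have e31 : ({0, 3, 1} : Finset (Fin 9)) = {0, 1, 3} := by decide
  have e32 : ({0, 3, 2} : Finset (Fin 9)) = {0, 2, 3} := by decide
  have hthree : ({0, 1, 2} : Finset (Fin 9)) ∈ vs D ∧ ({0, 1, 3} : Finset (Fin 9)) ∈ vs D ∧
      ({0, 2, 3} : Finset (Fin 9)) ∈ vs D := by
    rcases inside B (hQ B hB) hB3 with h | h | h <;> rw [h] at hB
    · refine ⟨hB, ?_, ?_⟩
      · exact exch_step hexch hQ 1 2 3 hB (hmem _ (by decide)) (by decide +kernel)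
      · exact exch_step hexch hQ 2 1 3 (by rw [e21]; exact hB) (hmem _ (by decide)) (by decide +kernel)
    · refine ⟨?_, hB, ?_⟩
      · exact exch_step hexch hQ 1 3 2 hB (hmem _ (by decide)) (by decide +kernel)
      · rw [← e32]
        exact exch_step hexch hQ 3 1 2 (by rw [e31]; exact hB) (hmem _ (by decide)) (by decide +kernel)
    · refine ⟨?_, ?_, hB⟩
      · rw [← e21]
        exact exch_step hexch hQ 2 3 1 hB (hmem _ (by decide)) (by decide +kernel)
      · rw [← e31]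
        exact exch_step hexch hQ 3 2 1 (by rw [e32]; exact hB) (hmem _ (by decide)) (by decide +kernel)
  rw [hpoly]
  apply poly_mono
  intro T hT
  rcases Qp_form T hT with h | h | h | h
  · exact hmem T h
  · rw [h]; exact hthree.1
  · rw [h]; exact hthree.2.1
  · rw [h]; exact hthree.2.2

/-! ### The piece `Q'` is decomposable -/

/-- the two affine functions -/
noncomputable def h2 : Fin 2 → (Fin 9 → ℝ) → ℝ := ![fun _ => 0, fun x => sm (fs 12) x - 1]

/-- the two pieces -/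
def fm2 : Fin 2 → Set (Finset (Fin 9)) := ![fam cR1, fam cR2]

lemma reg_mem_iff (cs : List (ℕ × ℕ)) (x : Fin 9 → ℝ) :
    x ∈ reg cs ↔ x ∈ hypersimplex 3 9 ∧ ∀ c ∈ cs, sm (fs c.1) x ≤ (c.2 : ℝ) := Iff.rfl

lemma pcR1 : {x | x ∈ poly (fam cQp) ∧ ∀ j, h2 j x ≤ 0} = poly (fam cR1) := by
  rw [← rgR1, ← rgQp]
  ext x
  simp only [mem_ofPred_eq, reg_mem_iff, cQp, cR1, List.forall_mem_cons, h2, Fin.forall_fin_succ]
  simp
  constructor
  · rintro ⟨⟨k1, k2, k3⟩, k4⟩
    refine ⟨k1, by linarith, k2, k3⟩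
  · rintro ⟨k1, k2, k3, k4⟩
    refine ⟨⟨k1, k3, k4⟩, by linarith⟩

lemma pcR2 : {x | x ∈ poly (fam cQp) ∧ ∀ j, h2 j x ≤ sm (fs 12) x - 1} = poly (fam cR2) := by
  rw [← rgR2, ← rgQp]
  ext x
  simp only [mem_ofPred_eq, reg_mem_iff, cQp, cR2, List.forall_mem_cons, h2, Fin.forall_fin_succ]
  simp
  constructor
  · rintro ⟨⟨k1, k2, k3⟩, k4⟩
    refine ⟨k1, ?_, k2, k3⟩
    have hs := hyp_sum k1
    rw [sm12] at k4
    rw [sm499]
    linarith
  · rintro ⟨k1, k2, k3, k4⟩
    refine ⟨⟨k1, k3, k4⟩, ?_⟩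
    have hs := hyp_sum k1
    rw [sm499] at k2
    rw [sm12]
    linarith

lemma split_Qp : IsMatroidSubdivision (poly (fam cQp)) (pieceComplex (fun i => poly (fm2 i))) := by
  apply regular_complex _ h2
  · intro i a b x y hab
    have hb : b = 1 - a := by linarith
    subst hb
    fin_cases i <;> simp [h2, sm_add, sm_smul] <;> ring
  · intro i
    fin_cases i
    · exact seR1
    · exact seR2
  · intro i
    fin_cases i
    · exact pcR1
    · exact pcR2

lemma not_trivial : pieceComplex (fun i => poly (fm2 i)) ≠ trivialSubdivision (poly (fam cQp)) := by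
  intro he
  have h1 : poly (fam cQp) ∈ trivialSubdivision (poly (fam cQp)) :=
    ⟨IsFace.refl (convex_poly _), ind {0, 1, 2}, ind_mem_poly (by decide +kernel)⟩
  rw [← he] at h1
  obtain ⟨_, i, hi⟩ := h1
  have hsub := hi.2.subset
  fin_cases i
  · have h3 : ind {2, 3, 4} ∈ poly (fam cR1) := hsub (ind_mem_poly (by decide +kernel))
    have h4 : ({2, 3, 4} : Finset (Fin 9)) ∈ fam cR1 :=
      mem_of_ind_mem (fun T hT => hT.1) (by decide) h3
    revert h4
    decide +kernel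
  · have h3 : ind {0, 1, 4} ∈ poly (fam cR2) := hsub (ind_mem_poly (by decide +kernel))
    have h4 : ({0, 1, 4} : Finset (Fin 9)) ∈ fam cR2 :=
      mem_of_ind_mem (fun T hT => hT.1) (by decide) h3
    revert h4
    decide +kernel

/-- **Main theorem.** -/
theorem main : ∃ 𝒞 : Set (Set (Fin 9 → ℝ)), IsFinest (hypersimplex 3 9) 𝒞 ∧
    ∃ N : Matroid (Fin 9), N.E = Set.univ ∧ IsMaximalCell 𝒞 (matroidPolytope N) ∧
      ¬ Indecomposable N := by
  obtain ⟨𝒞, hfin, href⟩ := exists_finest base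
  refine ⟨𝒞, hfin, ?_⟩
  have hC := hfin.1
  obtain ⟨N, hN, hNP⟩ := exists_matroid seQp ⟨{0, 1, 2}, by decide +kernel⟩
  obtain ⟨t, ht0, ht1, ht⟩ := exists_t hC
  have hzP : zpt t ∈ hypersimplex 3 9 := by
    have h1 : fpt ∈ hypersimplex 3 9 := rep_mem (fpt_rep (fun B hB => hB.1))
    have h2 : ind {0, 1, 2} ∈ hypersimplex 3 9 := ind_mem_poly (by decide)
    exact (convex_poly _) h1 h2 (by linarith) (by linarith) (by ring)
  rw [← hC.union] at hzP
  obtain ⟨Q, hQ, hzQ⟩ := hzP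
  have hQeq := z_cell_eq hC href ht0 ht1 hQ hzQ (ht Q hQ hzQ)
  refine ⟨N, hN, ⟨?_, ?_⟩, ?_⟩
  · rw [← hNP, ← hQeq]; exact hQ
  · intro D hD hsub
    rw [← hNP] at hsub ⊢
    rw [← hQeq] at hsub
    have hzD := hsub hzQ
    exact z_cell_eq hC href ht0 ht1 hD hzD (ht D hD hzD)
  · intro hind
    have h1 : IsMatroidSubdivision (matroidPolytope N) (pieceComplex (fun i => poly (fm2 i))) := by
      rw [← hNP]; exact split_Qp
    have h2 := hind _ h1
    rw [← hNP] at h2
    exact not_trivial h2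

end Pool.Agent.MatSub
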